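import Pool.Agent.CFS.RichK

/-!
# Module CFS-Core2: `rich_k` for `k = 2`, `C = 1`, and a version with an injective map

Plan.  `core_two`: `(2 * 2 - 1)/(2 - 1) = 3` (as reals; `Real.rpow_natCast`).
`core_map`: apply `core_two` to `I = F`, the points `P.image g` and
`H' f = {z | ∃ p ∈ P, p ∈ H f ∧ g p = z}`, `V'` similarly.  `(P.image g).card = P.card`; for
`z = g p`, `p ∈ P`: `z ∈ H' f ↔ p ∈ H f` (injectivity on `P`), so richness and the pair condition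
(two points of `P` lie in at most one common `H f`, `f ∈ F`) transfer: `T = {z, z'}`, `z ≠ z'`,
`z = g p`, `z' = g p'`, `p ≠ p'`; the set of `f` with `z z' ∈ H' f` has card `≤ 1`
(`Finset.card_le_one`).
-/

noncomputable section

namespace CFS

open Finset Classical

theorem core_two (l : ℕ) : ∃ A : ℝ, 1 ≤ A ∧
    ∀ {ι : Type} (I : Finset ι) (P : Finset (W l)) (H V : ι → Set (W l)) (ρ : ℝ),
      System l 2 1 I P H V → A ≤ ρ →
      (∀ p ∈ P, ρ ≤ ((I.filter (fun i => p ∈ H i)).card : ℝ)) →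
      (∀ p ∈ P, ρ ≤ ((I.filter (fun i => p ∈ V i)).card : ℝ)) →
      (P.card : ℝ) ≤ A * ((I.card : ℝ) ^ 2 / ρ ^ 3 + I.card / ρ) := by
  obtain ⟨A, hA, h⟩ := rich_k l 2 1 le_rfl
  refine ⟨A, hA, ?_⟩
  intro ι I P H V ρ hS hρ h1 h2
  have h3 := h I P H V ρ hS hρ h1 h2
  have e : (2 * ((2 : ℕ) : ℝ) - 1) / (((2 : ℕ) : ℝ) - 1) = ((3 : ℕ) : ℝ) := by norm_num
  rw [e, Real.rpow_natCast] at h3
  exact h3

/-- the image of a set in `P` under `g` -/
private def mp {l : ℕ} {ι : Type} (P : Finset (W l)) (g : W l → W l) (H : ι → Set (W l)) (i : ι) :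
    Set (W l) := {z | ∃ p ∈ P, p ∈ H i ∧ g p = z}

private theorem mp_iff {l : ℕ} {ι : Type} {P : Finset (W l)} {g : W l → W l} {H : ι → Set (W l)}
    (hg : ∀ p ∈ P, ∀ q ∈ P, g p = g q → p = q) {i : ι} {p : W l} (hp : p ∈ P) :
    g p ∈ mp P g H i ↔ p ∈ H i := by
  constructor
  · rintro ⟨q, hq, hqH, e⟩
    rw [← hg q hq p hp e]
    exact hqH
  · intro h
    exact ⟨p, hp, h, rfl⟩

private theorem mp_few {l : ℕ} {ι : Type} {I : Finset ι} {P : Finset (W l)} {g : W l → W l}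
    {H : ι → Set (W l)} (hg : ∀ p ∈ P, ∀ q ∈ P, g p = g q → p = q)
    (h : ∀ p ∈ P, ∀ q ∈ P, p ≠ q → ∀ i ∈ I, ∀ i' ∈ I, p ∈ H i → q ∈ H i → p ∈ H i' → q ∈ H i' →
        i = i') (T : Finset (W l)) (hT : T ⊆ P.image g) (hc : T.card = 2) :
    (I.filter (fun i => ∀ p ∈ T, p ∈ mp P g H i)).card ≤ 1 := by
  obtain ⟨z, z', hne, rfl⟩ := Finset.card_eq_two.1 hc
  obtain ⟨p, hp, rfl⟩ := Finset.mem_image.1 (hT (Finset.mem_insert_self z {z'}))
  obtain ⟨q, hq, rfl⟩ := Finset.mem_image.1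
    (hT (Finset.mem_insert_of_mem (Finset.mem_singleton_self z')))
  have hpq : p ≠ q := fun e => hne (by rw [e])
  rw [Finset.card_le_one]
  intro i hi i' hi'
  obtain ⟨hiI, hi⟩ := Finset.mem_filter.1 hi
  obtain ⟨hiI', hi'⟩ := Finset.mem_filter.1 hi'
  have m1 := hi (g p) (Finset.mem_insert_self _ _)
  have m2 := hi (g q) (Finset.mem_insert_of_mem (Finset.mem_singleton_self _))
  have m3 := hi' (g p) (Finset.mem_insert_self _ _)
  have m4 := hi' (g q) (Finset.mem_insert_of_mem (Finset.mem_singleton_self _))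
  rw [mp_iff hg hp] at m1 m3
  rw [mp_iff hg hq] at m2 m4
  exact h p hp q hq hpq i hiI i' hiI' m1 m2 m3 m4

theorem core_map (l : ℕ) : ∃ A : ℝ, 1 ≤ A ∧
    ∀ {ι : Type} (I : Finset ι) (P : Finset (W l)) (g : W l → W l) (H V : ι → Set (W l)) (ρ : ℝ),
      (∀ p ∈ P, ∀ q ∈ P, g p = g q → p = q) →
      (∀ i ∈ I, ∀ p ∈ P, ∀ q ∈ P, p ∈ H i → q ∈ H i → Hor (g p) (g q)) →
      (∀ i ∈ I, ∀ p ∈ P, ∀ q ∈ P, p ∈ V i → q ∈ V i → Ver (g p) (g q)) →
      (∀ p ∈ P, ∀ q ∈ P, p ≠ q → ∀ i ∈ I, ∀ i' ∈ I, p ∈ H i → q ∈ H i → p ∈ H i' → q ∈ H i' →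
        i = i') →
      (∀ p ∈ P, ∀ q ∈ P, p ≠ q → ∀ i ∈ I, ∀ i' ∈ I, p ∈ V i → q ∈ V i → p ∈ V i' → q ∈ V i' →
        i = i') →
      A ≤ ρ →
      (∀ p ∈ P, ρ ≤ ((I.filter (fun i => p ∈ H i)).card : ℝ)) →
      (∀ p ∈ P, ρ ≤ ((I.filter (fun i => p ∈ V i)).card : ℝ)) →
      (P.card : ℝ) ≤ A * ((I.card : ℝ) ^ 2 / ρ ^ 3 + I.card / ρ) := by
  obtain ⟨A, hA, h⟩ := core_two l
  refine ⟨A, hA, ?_⟩
  intro ι I P g H V ρ hg hH hV fH fV hρ rH rV
  have hcard : (P.image g).card = P.card :=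
    Finset.card_image_of_injOn fun p hp q hq e => hg p hp q hq e
  have hS : System l 2 1 I (P.image g) (mp P g H) (mp P g V) := by
    refine ⟨?_, ?_, mp_few hg fH, mp_few hg fV⟩
    · rintro i hi z hz z' hz' ⟨p, hp, hpH, rfl⟩ ⟨q, hq, hqH, rfl⟩
      exact hH i hi p hp q hq hpH hqH
    · rintro i hi z hz z' hz' ⟨p, hp, hpH, rfl⟩ ⟨q, hq, hqH, rfl⟩
      exact hV i hi p hp q hq hpH hqH
  have h1 := h I (P.image g) (mp P g H) (mp P g V) ρ hS hρ ?_ ?_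
  · rw [hcard] at h1
    exact h1
  · intro z hz
    obtain ⟨p, hp, rfl⟩ := Finset.mem_image.1 hz
    have e : I.filter (fun i => g p ∈ mp P g H i) = I.filter (fun i => p ∈ H i) :=
      Finset.filter_congr fun i _ => mp_iff hg hp
    rw [e]
    exact rH p hp
  · intro z hz
    obtain ⟨p, hp, rfl⟩ := Finset.mem_image.1 hz
    have e : I.filter (fun i => g p ∈ mp P g V i) = I.filter (fun i => p ∈ V i) :=
      Finset.filter_congr fun i _ => mp_iff hg hp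
    rw [e]
    exact rV p hp

end CFS
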