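import Mathlib

/-!
# Module CFS-Triv: the two elementary bounds for linear systems (finite combinatorics)

`S p ⊆ F`, `|S p ∩ S q| ≤ 1` for `p ≠ q` in `P`, all `|S p| ≥ ρ`.

Plan.
* `triv1`: first, by induction on `P' ⊆ P`: `2 * |P'.biUnion S| + m (m - 1) ≥ 2 m ρ`, `m = |P'|` (adding
  `p`: `|S p ∪ U| = |S p| + |U| - |S p ∩ U|` and `|S p ∩ U| ≤ Σ_{q ∈ P'} |S p ∩ S q| ≤ m`).  Suppose
  `|P| > 2 N/ρ`; take `P' ⊆ P` with `m = ⌊2N/ρ⌋₊ + 1` elements (`Finset.exists_subset_card_eq`);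
  `m - 1 ≤ 2N/ρ ≤ ρ` so `2 N ≥ 2 m ρ - m ρ = m ρ > 2 N`, contradiction.
* `triv2`: the sets `(S p).offDiag`, `p ∈ P`, are disjoint subsets of `F ×ˢ F` and have
  `|S p| (|S p| - 1) ≥ |S p|²/2 ≥ ρ²/2` elements (`|S p| ≥ 2`).
-/

namespace CFS

open Finset Classical

private theorem triv_aux {φ X : Type*} (P : Finset X) (S : X → Finset φ)
    (h1 : ∀ p ∈ P, ∀ q ∈ P, p ≠ q → (S p ∩ S q).card ≤ 1) (ρ : ℝ)
    (hr : ∀ p ∈ P, ρ ≤ ((S p).card : ℝ)) (P' : Finset X) : P' ⊆ P →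
    2 * (P'.card : ℝ) * ρ ≤ 2 * ((P'.biUnion S).card : ℝ) + (P'.card : ℝ) * ((P'.card : ℝ) - 1) := by
  induction P' using Finset.induction_on with
  | empty => intro _; simp
  | insert p Q hp ih =>
    intro hsub
    have hpP : p ∈ P := hsub (Finset.mem_insert_self p Q)
    have hQP : Q ⊆ P := fun q hq => hsub (Finset.mem_insert_of_mem hq)
    have ih' := ih hQP
    have hint : (S p ∩ Q.biUnion S).card ≤ Q.card := by
      calc (S p ∩ Q.biUnion S).card = (Q.biUnion fun q => S p ∩ S q).card := by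
            rw [Finset.inter_biUnion]
        _ ≤ ∑ q ∈ Q, (S p ∩ S q).card := Finset.card_biUnion_le
        _ ≤ ∑ _q ∈ Q, 1 := by
            refine Finset.sum_le_sum fun q hq => h1 p hpP q (hQP hq) ?_
            rintro rfl
            exact hp hq
        _ = Q.card := by simp
    have hun := Finset.card_union_add_card_inter (S p) (Q.biUnion S)
    rw [Finset.biUnion_insert, Finset.card_insert_of_notMem hp]
    have h2 : ((S p ∪ Q.biUnion S).card : ℝ) + ((S p ∩ Q.biUnion S).card : ℝ) =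
        ((S p).card : ℝ) + ((Q.biUnion S).card : ℝ) := by exact_mod_cast hun
    have h3 : ((S p ∩ Q.biUnion S).card : ℝ) ≤ (Q.card : ℝ) := by exact_mod_cast hint
    have h4 := hr p hpP
    push_cast
    nlinarith

theorem triv1 {φ X : Type*} (F : Finset φ) (P : Finset X) (S : X → Finset φ)
    (hS : ∀ p ∈ P, S p ⊆ F) (h1 : ∀ p ∈ P, ∀ q ∈ P, p ≠ q → (S p ∩ S q).card ≤ 1) (ρ : ℝ)
    (hρ : 0 < ρ) (hr : ∀ p ∈ P, ρ ≤ ((S p).card : ℝ)) (hN : 2 * (F.card : ℝ) ≤ ρ ^ 2) :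
    (P.card : ℝ) ≤ 2 * F.card / ρ := by
  by_contra hcon
  push Not at hcon
  have hN0 : (0 : ℝ) ≤ 2 * F.card / ρ := by positivity
  have hm : ⌊2 * (F.card : ℝ) / ρ⌋₊ + 1 ≤ P.card := by
    have h2 : ⌊2 * (F.card : ℝ) / ρ⌋₊ < P.card := (Nat.floor_lt hN0).2 hcon
    omega
  obtain ⟨P', hP', hc⟩ := Finset.exists_subset_card_eq hm
  have h2 := triv_aux P S h1 ρ hr P' hP'
  have h3 : ((P'.biUnion S).card : ℝ) ≤ (F.card : ℝ) := by
    have : (P'.biUnion S).card ≤ F.card :=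
      Finset.card_le_card (Finset.biUnion_subset.2 fun p hp => hS p (hP' hp))
    exact_mod_cast this
  have h4 : (P'.card : ℝ) - 1 ≤ 2 * (F.card : ℝ) / ρ := by
    rw [hc]
    push_cast
    have := Nat.floor_le hN0
    linarith
  have h5 : 2 * (F.card : ℝ) / ρ ≤ ρ := by
    rw [div_le_iff₀ hρ]
    nlinarith
  have h6 : 2 * (F.card : ℝ) / ρ < (P'.card : ℝ) := by
    rw [hc]
    push_cast
    exact Nat.lt_floor_add_one _
  have h7 : 2 * (F.card : ℝ) < (P'.card : ℝ) * ρ := (div_lt_iff₀ hρ).1 h6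
  have h8 : (P'.card : ℝ) * ((P'.card : ℝ) - 1) ≤ (P'.card : ℝ) * ρ :=
    mul_le_mul_of_nonneg_left (h4.trans h5) (Nat.cast_nonneg _)
  nlinarith

theorem triv2 {φ X : Type*} (F : Finset φ) (P : Finset X) (S : X → Finset φ)
    (hS : ∀ p ∈ P, S p ⊆ F) (h1 : ∀ p ∈ P, ∀ q ∈ P, p ≠ q → (S p ∩ S q).card ≤ 1) (ρ : ℝ)
    (hρ : 2 ≤ ρ) (hr : ∀ p ∈ P, ρ ≤ ((S p).card : ℝ)) :
    (P.card : ℝ) * ρ ^ 2 ≤ 2 * (F.card : ℝ) ^ 2 := by
  have hdisj : (P.biUnion fun p => (S p).offDiag).card = ∑ p ∈ P, (S p).offDiag.card := by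
    refine Finset.card_biUnion fun p hp q hq hpq => ?_
    show Disjoint (S p).offDiag (S q).offDiag
    rw [Finset.disjoint_left]
    rintro ⟨f, g⟩ h2 h3
    rw [Finset.mem_offDiag] at h2 h3
    have h4 : ({f, g} : Finset φ) ⊆ S p ∩ S q := by
      intro x hx
      rw [Finset.mem_insert, Finset.mem_singleton] at hx
      rcases hx with rfl | rfl
      · exact Finset.mem_inter.2 ⟨h2.1, h3.1⟩
      · exact Finset.mem_inter.2 ⟨h2.2.1, h3.2.1⟩
    have h5 := Finset.card_le_card h4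
    rw [Finset.card_pair h2.2.2] at h5
    have h6 := h1 p hp q hq hpq
    omega
  have hsub : (P.biUnion fun p => (S p).offDiag).card ≤ F.card * F.card := by
    rw [← Finset.card_product]
    refine Finset.card_le_card (Finset.biUnion_subset.2 fun p hp => ?_)
    rintro ⟨f, g⟩ h2
    rw [Finset.mem_offDiag] at h2
    exact Finset.mem_product.2 ⟨hS p hp h2.1, hS p hp h2.2.1⟩
  rw [hdisj] at hsub
  have h2 : ∑ p ∈ P, ((S p).offDiag.card : ℝ) ≤ (F.card : ℝ) ^ 2 := by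
    have : ((∑ p ∈ P, (S p).offDiag.card : ℕ) : ℝ) ≤ ((F.card * F.card : ℕ) : ℝ) := by exact_mod_cast hsub
    push_cast at this
    rw [sq]
    exact this
  have h3 : ∑ _p ∈ P, (ρ ^ 2 / 2) ≤ ∑ p ∈ P, ((S p).offDiag.card : ℝ) := by
    refine Finset.sum_le_sum fun p hp => ?_
    have h4 := hr p hp
    have h5 : 1 ≤ (S p).card := by
      have : (1 : ℝ) ≤ ((S p).card : ℝ) := by linarith
      exact_mod_cast this
    rw [Finset.offDiag_card, Nat.cast_sub (Nat.le_mul_of_pos_left _ h5)]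
    push_cast
    nlinarith
  rw [Finset.sum_const, nsmul_eq_mul] at h3
  linarith

end CFS
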