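import Mathlib

/-!
# Module CFS-SplB: ring and cut pigeonholes

Plan.
* `ring`: for each `p` at most 49 values `t < 1000` are bad (if there were 50 bad `t`, the rings are
  disjoint subsets of `S p`, so `|S p| ≥ Σ_t ring_t > 50 * |S p| / 50`), so
  `Σ_t #{p bad for t} ≤ 49 |P|` and some `t` has `20 * #{bad} ≤ |P|`.  (`w^t s` is nondecreasing in `t`, so
  a given `f` lies in at most one ring.)
* `cut`: `J3 = 20 J + 1` radii `r_j = s/8 + 3 j κ s`, `j < J3`, with `κ = 1/(24 J3)`, `r_j ≤ s/4`; for fixed
  `p, i` at most one `j` has `|‖b p - c i‖ - r_j| ≤ κ s` (the `r_j` are `3 κ s` apart); so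
  `Σ_j #{p cut by r_j} ≤ J |P|` and some `j` has `20 * #{cut} ≤ |P|`.
* `dich`: `m = |Sp|`.  If the near count is `< ζ m ≤ m/25`: far count `≥ m - m/50 - m/25 ≥ 9m/10`.  If the
  far count is `< ζ m`: near count `≥ 47m/50`; the near elements in non-heavy patches are
  `≤ Σ_{i<J, not heavy} count ≤ J ζ m = m/25`; so near elements in heavy patches are `≥ 45m/50`.
-/

namespace CFS

open Finset Classical

private lemma pig {X : Type*} (P : Finset X) (N K : ℕ) (Bad : ℕ → X → Prop)
    {inst : ∀ t p, Decidable (Bad t p)}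
    (hB : ∀ p ∈ P, ∀ B ⊆ range N, (∀ t ∈ B, Bad t p) → B.card ≤ K) (hNK : 20 * K < N) :
    ∃ t < N, 20 * (P.filter (fun p => Bad t p)).card ≤ P.card := by
  replace hB : ∀ p ∈ P, ((range N).filter (fun t => Bad t p)).card ≤ K := fun p hp =>
    hB p hp _ (Finset.filter_subset _ _) (fun t ht => (Finset.mem_filter.1 ht).2)
  by_contra h
  push Not at h
  have h1 : ∑ t ∈ range N, (P.filter (fun p => Bad t p)).card
      = ∑ p ∈ P, ((range N).filter (fun t => Bad t p)).card := by
    simp_rw [Finset.card_filter]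
    exact Finset.sum_comm
  have h2 : ∑ p ∈ P, ((range N).filter (fun t => Bad t p)).card ≤ P.card * K := by
    calc ∑ p ∈ P, ((range N).filter (fun t => Bad t p)).card ≤ ∑ _p ∈ P, K := Finset.sum_le_sum hB
      _ = P.card * K := by simp
  have h3 : ∑ _t ∈ range N, (P.card + 1) ≤ ∑ t ∈ range N, 20 * (P.filter (fun p => Bad t p)).card := by
    apply Finset.sum_le_sum
    intro t ht
    exact h t (Finset.mem_range.1 ht)
  rw [← Finset.mul_sum, h1] at h3
  simp only [Finset.sum_const, Finset.card_range, smul_eq_mul] at h3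
  have h4 : N * (P.card + 1) ≤ 20 * (P.card * K) := h3.trans (Nat.mul_le_mul_left 20 h2)
  have h5 : 20 * K * P.card ≤ N * P.card := Nat.mul_le_mul_right _ hNK.le
  have h6 : N * (P.card + 1) = N * P.card + N := by ring
  have h7 : 20 * (P.card * K) = 20 * K * P.card := by ring
  omega

theorem ring_pig {V φ X : Type*} [NormedAddCommGroup V] (P : Finset X) (S : X → Finset φ) (a : φ → V)
    (v : V) (s w : ℝ) (hs : 0 < s) (hw : 1 ≤ w) :
    ∃ t < 1000, 20 * (P.filter (fun p => (S p).card < 50 * ((S p).filter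
      (fun f => w ^ t * s < ‖a f - v‖ ∧ ‖a f - v‖ ≤ w ^ (t + 1) * s)).card)).card ≤ P.card := by
  have h1000 : 20 * 49 < 1000 := by norm_num
  generalize (1000 : ℕ) = N1000 at h1000 ⊢
  refine pig P N1000 49 (fun t p => (S p).card < 50 * ((S p).filter
      (fun f => w ^ t * s < ‖a f - v‖ ∧ ‖a f - v‖ ≤ w ^ (t + 1) * s)).card) ?_ h1000
  · intro p hp B hBs hBB
    set R : ℕ → Finset φ := fun t => (S p).filter
      (fun f => w ^ t * s < ‖a f - v‖ ∧ ‖a f - v‖ ≤ w ^ (t + 1) * s) with hR
    have hdis : ∀ t ∈ B, ∀ t' ∈ B, t ≠ t' → Disjoint (R t) (R t') := by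
      have key : ∀ t t' : ℕ, t < t' → Disjoint (R t) (R t') := by
        intro t t' htt
        rw [Finset.disjoint_left]
        intro f hf hf'
        simp only [hR, Finset.mem_filter] at hf hf'
        have h1 : w ^ (t + 1) * s ≤ w ^ t' * s :=
          mul_le_mul_of_nonneg_right (pow_le_pow_right₀ hw htt) hs.le
        linarith [hf.2.2, hf'.2.1]
      intro t _ t' _ hne
      rcases lt_or_gt_of_ne hne with h | h
      · exact key t t' h
      · exact (key t' t h).symm
    have h1 : ∑ t ∈ B, (R t).card ≤ (S p).card := by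
      rw [← Finset.card_biUnion hdis]
      apply Finset.card_le_card
      intro f hf
      rw [Finset.mem_biUnion] at hf
      obtain ⟨t, _, hf⟩ := hf
      exact (Finset.mem_filter.1 hf).1
    have h2 : ∑ _t ∈ B, ((S p).card + 1) ≤ ∑ t ∈ B, 50 * (R t).card := by
      apply Finset.sum_le_sum
      intro t ht
      exact hBB t ht
    rw [← Finset.mul_sum] at h2
    simp only [Finset.sum_const, smul_eq_mul] at h2
    have h3 : B.card * ((S p).card + 1) ≤ 50 * (S p).card := h2.trans (Nat.mul_le_mul_left 50 h1)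
    by_contra hcon
    have h4 : 50 ≤ B.card := by
      have : ¬ B.card ≤ 49 := hcon
      omega
    have h5 : 50 * ((S p).card + 1) ≤ B.card * ((S p).card + 1) := Nat.mul_le_mul_right _ h4
    omega

theorem cut_pig {V X : Type*} [NormedAddCommGroup V] (J : ℕ) (κ : ℝ)
    (hκ : κ = 1 / (24 * (20 * J + 1))) (P : Finset X) (b : X → V) (c : ℕ → V) (s : ℝ)
    (hs : 0 < s) :
    ∃ r : ℝ, s / 8 ≤ r ∧ r ≤ s / 4 ∧
      20 * (P.filter (fun p => ∃ i < J, |‖b p - c i‖ - r| ≤ κ * s)).card ≤ P.card := by
  have hJ : (0 : ℝ) ≤ (J : ℝ) := Nat.cast_nonneg J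
  have hκ0 : 0 < κ := by rw [hκ]; positivity
  have hκs : 0 < κ * s := mul_pos hκ0 hs
  have hex : ∃ j < 20 * J + 1, 20 * (P.filter (fun p => ∃ i < J,
      |‖b p - c i‖ - (s / 8 + 3 * (j : ℝ) * (κ * s))| ≤ κ * s)).card ≤ P.card := by
    refine pig P (20 * J + 1) J
      (fun j p => ∃ i < J, |‖b p - c i‖ - (s / 8 + 3 * (j : ℝ) * (κ * s))| ≤ κ * s) ?_ (by omega)
    · intro p hp B hBs hBB
      have hsub : B ⊆ (range J).biUnion (fun i => (range (20 * J + 1)).filter
            (fun j : ℕ => |‖b p - c i‖ - (s / 8 + 3 * (j : ℝ) * (κ * s))| ≤ κ * s)) := by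
        intro j hj
        obtain ⟨i, hi, hj2⟩ := hBB j hj
        rw [Finset.mem_biUnion]
        exact ⟨i, Finset.mem_range.2 hi, Finset.mem_filter.2 ⟨hBs hj, hj2⟩⟩
      refine (Finset.card_le_card hsub).trans ?_
      refine Finset.card_biUnion_le.trans ?_
      calc ∑ i ∈ range J, ((range (20 * J + 1)).filter
            (fun j : ℕ => |‖b p - c i‖ - (s / 8 + 3 * (j : ℝ) * (κ * s))| ≤ κ * s)).card
          ≤ ∑ _i ∈ range J, 1 := by
            apply Finset.sum_le_sum
            intro i _
            rw [Finset.card_le_one]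
            intro j hj j' hj'
            have key : ∀ j j' : ℕ, j < j' →
                |‖b p - c i‖ - (s / 8 + 3 * (j : ℝ) * (κ * s))| ≤ κ * s →
                |‖b p - c i‖ - (s / 8 + 3 * (j' : ℝ) * (κ * s))| ≤ κ * s → False := by
              intro j j' hlt h1 h2
              rw [abs_le] at h1 h2
              have h3 : (j : ℝ) + 1 ≤ (j' : ℝ) := by exact_mod_cast hlt
              have h4 : ((j : ℝ) + 1) * (κ * s) ≤ (j' : ℝ) * (κ * s) :=
                mul_le_mul_of_nonneg_right h3 hκs.le
              nlinarith [h1.1, h1.2, h2.1, h2.2]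
            rcases lt_trichotomy j j' with h | h | h
            · exact (key j j' h (Finset.mem_filter.1 hj).2 (Finset.mem_filter.1 hj').2).elim
            · exact h
            · exact (key j' j h (Finset.mem_filter.1 hj').2 (Finset.mem_filter.1 hj).2).elim
        _ = J := by simp
  obtain ⟨j, hj, hcard⟩ := hex
  refine ⟨s / 8 + 3 * (j : ℝ) * (κ * s), ?_, ?_, hcard⟩
  · have : (0 : ℝ) ≤ 3 * (j : ℝ) * (κ * s) := by positivity
    linarith
  · have h1 : (j : ℝ) ≤ 20 * (J : ℝ) := by
      have : j ≤ 20 * J := by omega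
      exact_mod_cast this
    have h2 : 3 * (j : ℝ) * (κ * s) ≤ 3 * (20 * (J : ℝ)) * (κ * s) := by
      apply mul_le_mul_of_nonneg_right _ hκs.le
      linarith
    have h3 : κ * (24 * (20 * (J : ℝ) + 1)) = 1 := by
      rw [hκ]
      field_simp
    have h4 : 3 * (20 * (J : ℝ)) * (κ * s) ≤ s / 8 := by
      have h5 : κ * (20 * (J : ℝ)) ≤ 1 / 24 := by nlinarith
      have h6 : κ * (20 * (J : ℝ)) * s ≤ 1 / 24 * s := mul_le_mul_of_nonneg_right h5 hs.le
      nlinarith
    linarith

theorem dich {φ : Type*} (Sp : Finset φ) (near far : φ → Prop) (pat : φ → ℕ) (J : ℕ) (ζ : ℝ)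
    (hJ : 1 ≤ J) (hζ : ζ = 1 / (25 * J)) (hnf : ∀ f, near f → ¬ far f)
    (hpat : ∀ f ∈ Sp, near f → pat f < J)
    (hring : 50 * (Sp.filter (fun f => ¬ near f ∧ ¬ far f)).card ≤ Sp.card) :
    (ζ * Sp.card ≤ ((Sp.filter (fun f => near f)).card : ℝ) ∧
      ζ * Sp.card ≤ ((Sp.filter (fun f => far f)).card : ℝ)) ∨
    9 * Sp.card ≤ 10 * (Sp.filter (fun f => far f)).card ∨
    9 * Sp.card ≤ 10 * (Sp.filter (fun f => near f ∧
      ζ * Sp.card ≤ ((Sp.filter (fun g => near g ∧ pat g = pat f)).card : ℝ))).card := by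
  set m : ℝ := (Sp.card : ℝ) with hm
  have hm0 : 0 ≤ m := Nat.cast_nonneg _
  have hJ1 : (1 : ℝ) ≤ (J : ℝ) := by exact_mod_cast hJ
  have hζJ : (J : ℝ) * ζ = 1 / 25 := by
    rw [hζ]
    field_simp
  have hζ0 : 0 < ζ := by rw [hζ]; positivity
  have hζ1 : ζ ≤ 1 / 25 := by nlinarith
  -- the partition
  have hsum : (Sp.filter (fun f => near f)).card + (Sp.filter (fun f => far f)).card
      + (Sp.filter (fun f => ¬ near f ∧ ¬ far f)).card = Sp.card := by
    have h1 : (Sp.filter (fun f => near f)).card + (Sp.filter (fun f => ¬ near f)).card = Sp.card :=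
      Finset.card_filter_add_card_filter_not (s := Sp) (fun f => near f)
    have h2 : ((Sp.filter (fun f => ¬ near f)).filter (fun f => far f)).card
        + ((Sp.filter (fun f => ¬ near f)).filter (fun f => ¬ far f)).card
        = (Sp.filter (fun f => ¬ near f)).card :=
      Finset.card_filter_add_card_filter_not (s := Sp.filter (fun f => ¬ near f)) (fun f => far f)
    have h3 : (Sp.filter (fun f => ¬ near f)).filter (fun f => far f) = Sp.filter (fun f => far f) := by
      ext f
      simp only [Finset.mem_filter]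
      constructor
      · rintro ⟨⟨h1, _⟩, h2⟩
        exact ⟨h1, h2⟩
      · rintro ⟨h1, h2⟩
        exact ⟨⟨h1, fun h => hnf f h h2⟩, h2⟩
    have h4 : (Sp.filter (fun f => ¬ near f)).filter (fun f => ¬ far f)
        = Sp.filter (fun f => ¬ near f ∧ ¬ far f) := by
      ext f
      simp only [Finset.mem_filter, and_assoc]
    rw [h3, h4] at h2
    omega
  have hsumR : ((Sp.filter (fun f => near f)).card : ℝ) + ((Sp.filter (fun f => far f)).card : ℝ)
      + ((Sp.filter (fun f => ¬ near f ∧ ¬ far f)).card : ℝ) = m := by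
    rw [hm]
    exact_mod_cast hsum
  have hringR : 50 * ((Sp.filter (fun f => ¬ near f ∧ ¬ far f)).card : ℝ) ≤ m := by
    rw [hm]
    exact_mod_cast hring
  by_cases hN : ζ * m ≤ ((Sp.filter (fun f => near f)).card : ℝ)
  · by_cases hF : ζ * m ≤ ((Sp.filter (fun f => far f)).card : ℝ)
    · exact Or.inl ⟨hN, hF⟩
    · right; right
      push Not at hF
      -- heavy
      have hsplit : (Sp.filter (fun f => near f ∧
            ζ * m ≤ ((Sp.filter (fun g => near g ∧ pat g = pat f)).card : ℝ))).card
          + (Sp.filter (fun f => near f ∧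
            ¬ ζ * m ≤ ((Sp.filter (fun g => near g ∧ pat g = pat f)).card : ℝ))).card
          = (Sp.filter (fun f => near f)).card := by
        have h2 := Finset.card_filter_add_card_filter_not (s := Sp.filter (fun f => near f))
          (fun f => ζ * m ≤ ((Sp.filter (fun g => near g ∧ pat g = pat f)).card : ℝ))
        rw [Finset.filter_filter, Finset.filter_filter] at h2
        exact h2
      have hlight : ((Sp.filter (fun f => near f ∧
            ¬ ζ * m ≤ ((Sp.filter (fun g => near g ∧ pat g = pat f)).card : ℝ))).card : ℝ)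
            ≤ m / 25 := by
        have hsub : Sp.filter (fun f => near f ∧
            ¬ ζ * m ≤ ((Sp.filter (fun g => near g ∧ pat g = pat f)).card : ℝ)) ⊆
            (range J).biUnion (fun i => Sp.filter (fun f => (near f ∧ pat f = i) ∧
              ¬ ζ * m ≤ ((Sp.filter (fun g => near g ∧ pat g = i)).card : ℝ))) := by
          intro f hf
          rw [Finset.mem_filter] at hf
          obtain ⟨hf1, hf2, hf3⟩ := hf
          rw [Finset.mem_biUnion]
          exact ⟨pat f, Finset.mem_range.2 (hpat f hf1 hf2), Finset.mem_filter.2 ⟨hf1, ⟨hf2, rfl⟩, hf3⟩⟩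
        have h1 : ((Sp.filter (fun f => near f ∧
            ¬ ζ * m ≤ ((Sp.filter (fun g => near g ∧ pat g = pat f)).card : ℝ))).card : ℝ)
            ≤ ∑ i ∈ range J, ((Sp.filter (fun f => (near f ∧ pat f = i) ∧
              ¬ ζ * m ≤ ((Sp.filter (fun g => near g ∧ pat g = i)).card : ℝ))).card : ℝ) := by
          have h2 := (Finset.card_le_card hsub).trans Finset.card_biUnion_le
          exact_mod_cast h2
        have h2 : ∀ i ∈ range J, ((Sp.filter (fun f => (near f ∧ pat f = i) ∧
              ¬ ζ * m ≤ ((Sp.filter (fun g => near g ∧ pat g = i)).card : ℝ))).card : ℝ) ≤ ζ * m := by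
          intro i _
          by_cases hc : ζ * m ≤ ((Sp.filter (fun g => near g ∧ pat g = i)).card : ℝ)
          · have : Sp.filter (fun f => (near f ∧ pat f = i) ∧
              ¬ ζ * m ≤ ((Sp.filter (fun g => near g ∧ pat g = i)).card : ℝ)) = ∅ := by
              apply Finset.filter_eq_empty_iff.2
              intro f _ hf
              exact hf.2 hc
            rw [this]
            simp only [Finset.card_empty, Nat.cast_zero]
            exact mul_nonneg hζ0.le hm0
          · have hle : ((Sp.filter (fun f => (near f ∧ pat f = i) ∧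
              ¬ ζ * m ≤ ((Sp.filter (fun g => near g ∧ pat g = i)).card : ℝ))).card : ℝ)
              ≤ ((Sp.filter (fun g => near g ∧ pat g = i)).card : ℝ) := by
              have : (Sp.filter (fun f => (near f ∧ pat f = i) ∧
                ¬ ζ * m ≤ ((Sp.filter (fun g => near g ∧ pat g = i)).card : ℝ))).card
                ≤ (Sp.filter (fun g => near g ∧ pat g = i)).card := by
                apply Finset.card_le_card
                intro f hf
                rw [Finset.mem_filter] at hf ⊢
                exact ⟨hf.1, hf.2.1⟩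
              exact_mod_cast this
            linarith
        calc ((Sp.filter (fun f => near f ∧
            ¬ ζ * m ≤ ((Sp.filter (fun g => near g ∧ pat g = pat f)).card : ℝ))).card : ℝ)
            ≤ _ := h1
          _ ≤ ∑ _i ∈ range J, ζ * m := Finset.sum_le_sum h2
          _ = (J : ℝ) * ζ * m := by
              rw [Finset.sum_const, Finset.card_range, nsmul_eq_mul]
              ring
          _ = m / 25 := by rw [hζJ]; ring
      have hsplitR : ((Sp.filter (fun f => near f ∧
            ζ * m ≤ ((Sp.filter (fun g => near g ∧ pat g = pat f)).card : ℝ))).card : ℝ)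
          + ((Sp.filter (fun f => near f ∧
            ¬ ζ * m ≤ ((Sp.filter (fun g => near g ∧ pat g = pat f)).card : ℝ))).card : ℝ)
          = ((Sp.filter (fun f => near f)).card : ℝ) := by exact_mod_cast hsplit
      have hζm : ζ * m ≤ 1 / 25 * m := mul_le_mul_of_nonneg_right hζ1 hm0
      have hfin : 9 * m ≤ 10 * ((Sp.filter (fun f => near f ∧
            ζ * m ≤ ((Sp.filter (fun g => near g ∧ pat g = pat f)).card : ℝ))).card : ℝ) := by
        linarith
      rw [hm] at hfin
      exact_mod_cast hfin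
  · right; left
    push Not at hN
    have hζm : ζ * m ≤ 1 / 25 * m := mul_le_mul_of_nonneg_right hζ1 hm0
    have hfin : 9 * m ≤ 10 * ((Sp.filter (fun f => far f)).card : ℝ) := by
      linarith
    rw [hm] at hfin
    exact_mod_cast hfin

end CFS
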