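import Mathlib

/-!
# Module CFS-IndB: the arithmetic of the induction, and the class sum

* `ind_arith`: `N/ρ ≤ 2 N²/ρ³` (from `ρ² < 2 N`, `ρ > 0`, `N > 0`).  Put `X = N²/ρ³`.  Then
  `N²/(ζρ)³ + N/(ζρ) ≤ (1/ζ³ + 2/ζ) X`, `(20/9) N/ρ ≤ (40/9) X ≤ 5 X`,
  `A N²/(2 (729/1000) ρ³) = (1000/1458) A X`.  So `(9/10) p ≤ (C3 + (1000/1458) A) X`,
  `p ≤ ((10/9) C3 + (10000/13122) A) X ≤ A X` because `(1 - 0.7621) A ≥ 0.2379 * 5 C3 ≥ (10/9) C3`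
  (`A = 2 ρ0 + 5 C3 ≥ 5 C3`), and `2 N/ρ ≥ 0`.
* `class_sum`: `Σ_{c ∈ F.image cls} |F c| = |F|` (`Finset.card_eq_sum_card_image`) and
  `2 |F c|² ≤ |F| |F c|`.
* `atom_arith`: `ρ ≥ 20`, `2 N' ≤ N`: `A N'²/(ρ-1)³ + 2N'/(ρ-1) ≤ A N²/ρ³ + 2 N/ρ`: use
  `ρ ≤ (20/19)(ρ - 1)`, so `1/(ρ-1)³ ≤ (20/19)³/ρ³ ≤ 4/ρ³` and `N'² ≤ N²/4`; `2N'/(ρ-1) ≤ N (20/19)/ρ`.
-/

namespace CFS

open Finset Classical

theorem ind_arith (A1 A2 ζ J A p N ρ C3 : ℝ) (hA1 : 0 ≤ A1) (hA2 : 0 ≤ A2) (hζ : 0 < ζ)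
    (hJ : 0 ≤ J) (hρ : 0 < ρ) (hN : ρ ^ 2 < 2 * N)
    (hC3 : C3 = (A1 + J ^ 2 * A2) * (1 / ζ ^ 3 + 2 / ζ) + 5) (hA : 5 * C3 ≤ A)
    (h : p ≤ p / 10 + A1 * (N ^ 2 / (ζ * ρ) ^ 3 + N / (ζ * ρ))
      + J ^ 2 * (A2 * (N ^ 2 / (ζ * ρ) ^ 3 + N / (ζ * ρ)))
      + (A * (N ^ 2 / 2 / (9 / 10 * ρ) ^ 3) + 2 * (N / (9 / 10 * ρ)))) :
    p ≤ A * (N ^ 2 / ρ ^ 3) + 2 * (N / ρ) := by
  have hN0 : 0 < N := by nlinarith [sq_nonneg ρ, pow_pos hρ 2]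
  have hρ3 : 0 < ρ ^ 3 := pow_pos hρ 3
  obtain ⟨X, hX⟩ : ∃ X, X = N ^ 2 / ρ ^ 3 := ⟨_, rfl⟩
  obtain ⟨Y, hY⟩ : ∃ Y, Y = N / ρ := ⟨_, rfl⟩
  have hX0 : 0 ≤ X := by rw [hX]; positivity
  have hY0 : 0 ≤ Y := by rw [hY]; positivity
  have hYX : Y ≤ 2 * X := by
    have e1 : 2 * X = (N / ρ) * (2 * N / ρ ^ 2) := by
      rw [hX]
      field_simp
    have e2 : 1 ≤ 2 * N / ρ ^ 2 := by
      rw [le_div_iff₀ (pow_pos hρ 2)]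
      linarith
    rw [e1, hY]
    calc N / ρ = N / ρ * 1 := (mul_one _).symm
      _ ≤ _ := mul_le_mul_of_nonneg_left e2 (by positivity)
  have e1 : N ^ 2 / (ζ * ρ) ^ 3 = (1 / ζ ^ 3) * X := by
    rw [hX]
    field_simp
  have e2 : N / (ζ * ρ) = (1 / ζ) * Y := by
    rw [hY]
    field_simp
  have e3 : N ^ 2 / 2 / (9 / 10 * ρ) ^ 3 = (1000 / 1458) * X := by
    rw [hX]
    field_simp
    norm_num
  have e4 : N / (9 / 10 * ρ) = (10 / 9) * Y := by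
    rw [hY]
    field_simp
  rw [e1, e2, e3, e4] at h
  rw [← hX, ← hY]
  obtain ⟨Q, hQ⟩ : ∃ Q, Q = A1 + J ^ 2 * A2 := ⟨_, rfl⟩
  have hQ0 : 0 ≤ Q := by rw [hQ]; positivity
  rw [← hQ] at hC3
  have e5 : A1 * (1 / ζ ^ 3 * X + 1 / ζ * Y) + J ^ 2 * (A2 * (1 / ζ ^ 3 * X + 1 / ζ * Y)) =
      Q * (1 / ζ ^ 3 * X + 1 / ζ * Y) := by
    rw [hQ]
    ring
  have e6 : 1 / ζ ^ 3 * X + 1 / ζ * Y ≤ (1 / ζ ^ 3 + 2 / ζ) * X := by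
    have e7 : 1 / ζ * Y ≤ 1 / ζ * (2 * X) := mul_le_mul_of_nonneg_left hYX (by positivity)
    have e8 : 1 / ζ * (2 * X) = 2 / ζ * X := by ring
    linarith
  have e7 : Q * (1 / ζ ^ 3 * X + 1 / ζ * Y) ≤ Q * ((1 / ζ ^ 3 + 2 / ζ) * X) :=
    mul_le_mul_of_nonneg_left e6 hQ0
  have e8 : Q * ((1 / ζ ^ 3 + 2 / ζ) * X) = (C3 - 5) * X := by
    rw [hC3]
    ring
  have hC30 : 0 ≤ C3 := by
    rw [hC3]
    positivity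
  have e9 : 5 * C3 * X ≤ A * X := mul_le_mul_of_nonneg_right hA hX0
  have e10 : 0 ≤ C3 * X := mul_nonneg hC30 hX0
  have e11 : (C3 - 5) * X = C3 * X - 5 * X := by ring
  have e12 : A * (1000 / 1458 * X) = 1000 / 1458 * (A * X) := by ring
  have e13 : 5 * C3 * X = 5 * (C3 * X) := by ring
  rw [e12] at h
  rw [e13] at e9
  rw [e8, e11] at e7
  linarith

theorem class_sum {φ : Type*} (F : Finset φ) (cls : φ → ℕ) (A ρ : ℝ) (hA : 0 ≤ A) (hρ : 0 < ρ)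
    (h : ∀ c : ℕ, 2 * (F.filter (fun f => cls f = c)).card ≤ F.card) :
    ∑ c ∈ F.image cls, (A * (((F.filter (fun f => cls f = c)).card : ℝ) ^ 2 / ρ ^ 3)
        + 2 * ((F.filter (fun f => cls f = c)).card / ρ)) ≤
      A * ((F.card : ℝ) ^ 2 / 2 / ρ ^ 3) + 2 * (F.card / ρ) := by
  have hρ3 : 0 < ρ ^ 3 := pow_pos hρ 3
  have h1 : (F.card : ℝ) = ∑ c ∈ F.image cls, ((F.filter (fun f => cls f = c)).card : ℝ) := by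
    have h2 := Finset.card_eq_sum_card_image cls F
    exact_mod_cast h2
  have h3 : ∀ c ∈ F.image cls, A * (((F.filter (fun f => cls f = c)).card : ℝ) ^ 2 / ρ ^ 3)
        + 2 * ((F.filter (fun f => cls f = c)).card / ρ) ≤
      (A * ((F.card : ℝ) / 2 / ρ ^ 3) + 2 * (1 / ρ)) * ((F.filter (fun f => cls f = c)).card : ℝ) := by
    intro c _
    have h4 : 2 * ((F.filter (fun f => cls f = c)).card : ℝ) ≤ F.card := by exact_mod_cast h c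
    obtain ⟨k, hk⟩ : ∃ k : ℝ, k = ((F.filter (fun f => cls f = c)).card : ℝ) := ⟨_, rfl⟩
    have hk0 : 0 ≤ k := by rw [hk]; positivity
    rw [← hk] at h4 ⊢
    have h5 : k ^ 2 / ρ ^ 3 ≤ ((F.card : ℝ) / 2 / ρ ^ 3) * k := by
      rw [div_mul_eq_mul_div]
      refine div_le_div_of_nonneg_right ?_ hρ3.le
      nlinarith
    have h6 := mul_le_mul_of_nonneg_left h5 hA
    have h7 : 2 * (k / ρ) = 2 * (1 / ρ) * k := by ring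
    rw [h7, add_mul]
    have h8 : A * ((F.card : ℝ) / 2 / ρ ^ 3) * k = A * (((F.card : ℝ) / 2 / ρ ^ 3) * k) := by ring
    rw [h8]
    linarith
  refine le_trans (Finset.sum_le_sum h3) ?_
  rw [← Finset.mul_sum, ← h1]
  refine le_of_eq ?_
  ring

theorem atom_arith (A N N' ρ : ℝ) (hA : 0 ≤ A) (hN' : 0 ≤ N') (h : 2 * N' ≤ N) (hρ : 20 ≤ ρ) :
    A * (N' ^ 2 / (ρ - 1) ^ 3) + 2 * (N' / (ρ - 1)) ≤ A * (N ^ 2 / ρ ^ 3) + 2 * (N / ρ) := by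
  have hr : 0 < ρ - 1 := by linarith
  have hρ0 : 0 < ρ := by linarith
  have hN0 : 0 ≤ N := by linarith
  have h1 : ρ ^ 3 ≤ 4 * (ρ - 1) ^ 3 := by
    have h2 : ρ ≤ (20 / 19) * (ρ - 1) := by linarith
    have h3 : ρ ^ 3 ≤ ((20 / 19) * (ρ - 1)) ^ 3 := pow_le_pow_left₀ hρ0.le h2 3
    have h4 : ((20 / 19) * (ρ - 1)) ^ 3 = (8000 / 6859) * (ρ - 1) ^ 3 := by ring
    have h5 : 0 < (ρ - 1) ^ 3 := pow_pos hr 3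
    rw [h4] at h3
    linarith
  have h2 : N' ^ 2 / (ρ - 1) ^ 3 ≤ N ^ 2 / ρ ^ 3 := by
    rw [div_le_div_iff₀ (pow_pos hr 3) (pow_pos hρ0 3)]
    have h3 : 4 * N' ^ 2 ≤ N ^ 2 := by nlinarith
    calc N' ^ 2 * ρ ^ 3 ≤ N' ^ 2 * (4 * (ρ - 1) ^ 3) := mul_le_mul_of_nonneg_left h1 (sq_nonneg _)
      _ = 4 * N' ^ 2 * (ρ - 1) ^ 3 := by ring
      _ ≤ N ^ 2 * (ρ - 1) ^ 3 := mul_le_mul_of_nonneg_right h3 (pow_pos hr 3).le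
  have h3 : N' / (ρ - 1) ≤ N / ρ := by
    rw [div_le_div_iff₀ hr hρ0]
    nlinarith
  exact add_le_add (mul_le_mul_of_nonneg_left h2 hA) (mul_le_mul_of_nonneg_left h3 (by norm_num))

end CFS
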