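import Mathlib

/-!
# Module CFS-Kst: the Kovari-Sos-Turan inequality (finite combinatorics)

Plan.  For `i ∈ I` let `x i = (G.filter (fun p => p ∈ H i)).card`.  The left side is
`Σ_{i ∈ I} x i` (double counting, `Finset.sum_comm` on indicator functions,
`Finset.sum_card_bipartiteAbove_eq_sum_card_bipartiteBelow`), only the `i` with `x i ≥ 1` contribute.
For each such `i`: `x i ≤ (k - 1) + Nat.choose (x i) k` (if `x i ≤ k - 1` clear; if `x i ≥ k ≥ 1` then
`choose (x i) k ≥ x i - k + 1`, by induction on `x i` with `Nat.choose_succ_right`-type identity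
`choose (x+1) k = choose x k + choose x (k-1) ≥ choose x k + 1`).
`Σ_i choose (x i) k` = number of pairs `(i, T)`, `T ∈ powersetCard k (G.filter (· ∈ H i))`, which is
`Σ_{T ∈ powersetCard k G} #{i ∈ I : ∀ p ∈ T, p ∈ H i} ≤ choose |G| k * C ≤ C |G|^k`
(`Nat.choose_le_pow`).
-/

namespace CFS

open Finset Classical

private theorem kst_choose (j x : ℕ) : x ≤ j + Nat.choose x (j + 1) := by
  induction x with
  | zero => exact Nat.zero_le _
  | succ x ih =>
    rw [Nat.choose_succ_succ']
    by_cases h : j ≤ x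
    · have h1 : 0 < Nat.choose x j := Nat.choose_pos h
      omega
    · omega

theorem kst {ι X : Type*} (I : Finset ι) (G : Finset X) (H : ι → Set X) (k C : ℕ) (hk : 1 ≤ k)
    (hfew : ∀ T : Finset X, T ⊆ G → T.card = k →
      (I.filter (fun i => ∀ p ∈ T, p ∈ H i)).card ≤ C) :
    ∑ p ∈ G, (I.filter (fun i => p ∈ H i)).card ≤
      (k - 1) * (I.filter (fun i => ∃ p ∈ G, p ∈ H i)).card + C * G.card ^ k := by
  have h1 : ∑ p ∈ G, (I.filter (fun i => p ∈ H i)).card =
      ∑ i ∈ I, (G.filter (fun p => p ∈ H i)).card :=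
    (Finset.sum_card_bipartiteAbove_eq_sum_card_bipartiteBelow (s := I) (t := G)
      (fun i p => p ∈ H i)).symm
  have h2 : ∑ i ∈ I, (G.filter (fun p => p ∈ H i)).card =
      ∑ i ∈ I.filter (fun i => ∃ p ∈ G, p ∈ H i), (G.filter (fun p => p ∈ H i)).card := by
    symm
    apply Finset.sum_filter_of_ne
    intro i _ hne
    obtain ⟨p, hp⟩ := Finset.card_ne_zero.1 hne
    rw [Finset.mem_filter] at hp
    exact ⟨p, hp.1, hp.2⟩
  have h3 : ∑ i ∈ I.filter (fun i => ∃ p ∈ G, p ∈ H i), (G.filter (fun p => p ∈ H i)).card ≤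
      ∑ i ∈ I.filter (fun i => ∃ p ∈ G, p ∈ H i),
        ((k - 1) + Nat.choose (G.filter (fun p => p ∈ H i)).card k) := by
    refine Finset.sum_le_sum (fun i _ => ?_)
    have h := kst_choose (k - 1) (G.filter (fun p => p ∈ H i)).card
    rwa [Nat.sub_add_cancel hk] at h
  have h4 : ∑ i ∈ I.filter (fun i => ∃ p ∈ G, p ∈ H i),
        ((k - 1) + Nat.choose (G.filter (fun p => p ∈ H i)).card k) =
      (k - 1) * (I.filter (fun i => ∃ p ∈ G, p ∈ H i)).card +
        ∑ i ∈ I.filter (fun i => ∃ p ∈ G, p ∈ H i),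
          Nat.choose (G.filter (fun p => p ∈ H i)).card k := by
    rw [Finset.sum_add_distrib, Finset.sum_const, smul_eq_mul, mul_comm]
  have h5 : ∑ i ∈ I.filter (fun i => ∃ p ∈ G, p ∈ H i),
          Nat.choose (G.filter (fun p => p ∈ H i)).card k ≤
      ∑ i ∈ I, Nat.choose (G.filter (fun p => p ∈ H i)).card k :=
    Finset.sum_le_sum_of_subset (Finset.filter_subset _ _)
  have h6 : ∑ i ∈ I, Nat.choose (G.filter (fun p => p ∈ H i)).card k =
      ∑ T ∈ Finset.powersetCard k G, (I.filter (fun i => ∀ p ∈ T, p ∈ H i)).card := by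
    have h7 := Finset.sum_card_bipartiteAbove_eq_sum_card_bipartiteBelow (s := I)
      (t := Finset.powersetCard k G) (fun i T => ∀ p ∈ T, p ∈ H i)
    refine Eq.trans ?_ h7
    refine Finset.sum_congr rfl (fun i _ => ?_)
    rw [← Finset.card_powersetCard]
    refine congrArg Finset.card ?_
    ext T
    simp only [Finset.mem_powersetCard, Finset.bipartiteAbove, Finset.mem_filter]
    constructor
    · rintro ⟨h8, h9⟩
      exact ⟨⟨fun p hp => (Finset.mem_filter.1 (h8 hp)).1, h9⟩,
        fun p hp => (Finset.mem_filter.1 (h8 hp)).2⟩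
    · rintro ⟨⟨h8, h9⟩, h10⟩
      exact ⟨fun p hp => Finset.mem_filter.2 ⟨h8 hp, h10 p hp⟩, h9⟩
  have h7 : ∑ T ∈ Finset.powersetCard k G, (I.filter (fun i => ∀ p ∈ T, p ∈ H i)).card ≤
      C * G.card ^ k := by
    have h8 : ∑ T ∈ Finset.powersetCard k G, (I.filter (fun i => ∀ p ∈ T, p ∈ H i)).card ≤
        ∑ _T ∈ Finset.powersetCard k G, C := by
      refine Finset.sum_le_sum (fun T hT => ?_)
      rw [Finset.mem_powersetCard] at hT
      exact hfew T hT.1 hT.2
    rw [Finset.sum_const, smul_eq_mul, Finset.card_powersetCard] at h8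
    refine h8.trans ?_
    rw [mul_comm]
    exact Nat.mul_le_mul_left C (Nat.choose_le_pow _ _)
  rw [h1, h2]
  refine h3.trans ?_
  rw [h4]
  exact Nat.add_le_add_left (h5.trans (h6.le.trans h7)) _

end CFS
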