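import Mathlib

/-!
# Module CFS-SumF: from rich points to incidences (real analysis, dyadic summation)

Plan.  Notation `β = (2k-1)/(k-1) = 2 + 1/(k-1) > 2`, `m = |P|`.  WLOG `A0 ≥ 1`, `t0 ≥ 1` (replace by
`max`); if `n = 0` or `m = 0` treat separately (`n = 0`: the second hypothesis for single points gives
`μ p ≤ A0 (0 + 1)`, so the sum is `≤ A0 m`; `m = 0`: the sum is 0).
(1) `dyadic`: if `B ≥ 0`, `t1 > 0` and `#{p ∈ P : t ≤ μ p} ≤ B / t^β` for all `t ≥ t1`, then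
`Σ_{p ∈ P} μ p ≤ t1 m + 4 B t1^(1-β)`.  Proof: for `p` with `μ p ≥ t1` there is a unique `j : ℕ` with
`2^j t1 ≤ μ p < 2^(j+1) t1`; so `μ p ≤ Σ_{j < J, 2^j t1 ≤ μ p} 2^(j+1) t1` for `J` large
(`μ` takes finitely many values) and
`Σ_{p : μ p ≥ t1} μ p ≤ Σ_{j<J} 2^(j+1) t1 #{p : 2^j t1 ≤ μ p} ≤ Σ_j 2^(j+1) t1 B / (2^j t1)^β
= 2 B t1^(1-β) Σ_j 2^(-j (β-1)) ≤ 4 B t1^(1-β)` because `β - 1 ≥ 1`.
(2) Let `t2 = n^((k-1)/k)`.  For `0 < t ≤ t2`: `n / t ≤ n² / t^β` because `t^(β-1) ≤ n`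
(`β - 1 = k/(k-1)`).  For the points with `μ p ≥ max t0 t2` : if `t2 ≥ t0`, their number is
`≤ 2 A0 n²/t2^β = 2 A0 n^(1/k)` (as `2 - β (k-1)/k = 1/k`), so by the second hypothesis
`Σ μ ≤ A0 (n + (2 A0)^k n) `.  If `t2 < t0`, then `n < t0^(k/(k-1)) ≤ t0^2`, the number of
points with `μ p ≥ t0` is `≤ A0 (n² + n) ≤ A0 (t0^4 + t0^2) =: N0`, so by the second hypothesis
`Σ μ ≤ A0 (n + N0^k) ≤ A0 (1 + N0^k) n` (`n ≥ 1`).
(3) For `P' = {p ∈ P : μ p < max t0 t2}` : `#{p ∈ P' : t ≤ μ p} ≤ 2 A0 n² / t^β` for all `t ≥ t0`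
(it is empty if `t ≥ max t0 t2`; otherwise `t0 ≤ t < t2` and (2)).  Let
`t1 = max t0 ((n²/m)^(1/β))`.  By (1) with `B = 2 A0 n²`:
`Σ_{P'} μ ≤ t1 m + 8 A0 n² t1^(1-β)`, `t1 m ≤ t0 m + (n²/m)^(1/β) m`, and
`n² t1^(1-β) ≤ n² (n²/m)^((1-β)/β) = (n²/m)^(1/β) m`; finally
`(n²/m)^(1/β) m = m^(1 - 1/β) n^(2/β) = m^(k/(2k-1)) n^((2k-2)/(2k-1))`.
Sum up.
-/

noncomputable section

namespace CFS

open Finset Classical

private lemma dyadic {X : Type} (P : Finset X) (f : X → ℝ) (B t1 β : ℝ) (hB : 0 ≤ B)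
    (ht1 : 0 < t1) (hβ : 2 ≤ β)
    (h : ∀ t, t1 ≤ t → ((P.filter (fun p => t ≤ f p)).card : ℝ) ≤ B / t ^ β) :
    ∑ p ∈ P, f p ≤ t1 * P.card + 4 * B * t1 ^ (1 - β) := by
  classical
  -- a bound J
  obtain ⟨J, hJ⟩ : ∃ J : ℕ, ∀ p ∈ P, f p < 2 ^ J * t1 := by
    obtain ⟨J, hJ⟩ := pow_unbounded_of_one_lt ((∑ p ∈ P, |f p|) / t1) (one_lt_two : (1:ℝ) < 2)
    refine ⟨J, fun p hp => ?_⟩
    rw [div_lt_iff₀ ht1] at hJ
    refine lt_of_le_of_lt ?_ hJ
    refine le_trans (le_abs_self _) ?_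
    exact Finset.single_le_sum (f := fun p => |f p|) (fun q _ => abs_nonneg _) hp
  have hpt : ∀ p ∈ P, f p ≤ t1 + ∑ j ∈ range J,
      if 2 ^ j * t1 ≤ f p then (2:ℝ) ^ (j + 1) * t1 else 0 := by
    intro p hp
    have hnn : ∀ j ∈ range J, (0:ℝ) ≤ if 2 ^ j * t1 ≤ f p then (2:ℝ) ^ (j + 1) * t1 else 0 := by
      intro j _
      split_ifs <;> positivity
    by_cases hlt : f p < t1
    · have := Finset.sum_nonneg hnn
      linarith
    · push Not at hlt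
      have h1 : (1:ℝ) ≤ f p / t1 := by rwa [le_div_iff₀ ht1, one_mul]
      obtain ⟨j, hj1, hj2⟩ := exists_nat_pow_near h1 (one_lt_two : (1:ℝ) < 2)
      rw [le_div_iff₀ ht1] at hj1
      rw [div_lt_iff₀ ht1] at hj2
      have hjJ : j < J := by
        by_contra hcon
        push Not at hcon
        have h3 : (2:ℝ) ^ J ≤ 2 ^ j := pow_le_pow_right₀ (by norm_num) hcon
        have := hJ p hp
        have h4 : (2:ℝ) ^ J * t1 ≤ 2 ^ j * t1 := mul_le_mul_of_nonneg_right h3 ht1.le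
        linarith
      have h5 := Finset.single_le_sum hnn (mem_range.2 hjJ)
      simp only [hj1, if_true] at h5
      linarith
  have hswap : ∑ p ∈ P, (∑ j ∈ range J, if 2 ^ j * t1 ≤ f p then (2:ℝ) ^ (j + 1) * t1 else 0)
      = ∑ j ∈ range J, (2:ℝ) ^ (j + 1) * t1 * ((P.filter (fun p => 2 ^ j * t1 ≤ f p)).card : ℝ) := by
    rw [Finset.sum_comm]
    refine Finset.sum_congr rfl fun j _ => ?_
    rw [← Finset.sum_filter, Finset.sum_const, nsmul_eq_mul, mul_comm]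
  have hterm : ∀ j ∈ range J, (2:ℝ) ^ (j + 1) * t1 *
      ((P.filter (fun p => 2 ^ j * t1 ≤ f p)).card : ℝ) ≤ 2 * B * t1 ^ (1 - β) * (1 / 2) ^ j := by
    intro j _
    have h2j : (1:ℝ) ≤ 2 ^ j := one_le_pow₀ (by norm_num)
    have h2j0 : (0:ℝ) < 2 ^ j := by positivity
    have hle : t1 ≤ 2 ^ j * t1 := by nlinarith
    have hc := h (2 ^ j * t1) hle
    have hpow : (2 ^ j * t1) ^ β = ((2:ℝ) ^ j) ^ β * t1 ^ β :=
      Real.mul_rpow h2j0.le ht1.le
    have hpow2 : ((2:ℝ) ^ j) ^ (2:ℕ) ≤ ((2:ℝ) ^ j) ^ β := by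
      rw [← Real.rpow_natCast ((2:ℝ) ^ j) 2]
      exact Real.rpow_le_rpow_of_exponent_le h2j (by exact_mod_cast hβ)
    have htβ : 0 < t1 ^ β := Real.rpow_pos_of_pos ht1 β
    have hc2 : B / (2 ^ j * t1) ^ β ≤ B / (((2:ℝ) ^ j) ^ 2 * t1 ^ β) := by
      rw [hpow]
      apply div_le_div_of_nonneg_left hB (by positivity)
      exact mul_le_mul_of_nonneg_right hpow2 htβ.le
    have hc3 := hc.trans hc2
    calc (2:ℝ) ^ (j + 1) * t1 * ((P.filter (fun p => 2 ^ j * t1 ≤ f p)).card : ℝ)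
        ≤ (2:ℝ) ^ (j + 1) * t1 * (B / (((2:ℝ) ^ j) ^ 2 * t1 ^ β)) :=
          mul_le_mul_of_nonneg_left hc3 (by positivity)
      _ = 2 * B * t1 ^ (1 - β) * (1 / 2) ^ j := by
          rw [Real.rpow_sub ht1, Real.rpow_one, one_div, inv_pow, pow_succ]
          field_simp
  have hgeo : ∑ j ∈ range J, ((1:ℝ) / 2) ^ j ≤ 2 := by
    have := geom_sum_eq (x := (1:ℝ)/2) (by norm_num) J
    rw [this]
    have h6 : (0:ℝ) ≤ (1 / 2) ^ J := by positivity
    have h7 : (((1:ℝ) / 2) ^ J - 1) / (1 / 2 - 1) = 2 * (1 - (1 / 2) ^ J) := by ring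
    rw [h7]
    linarith
  calc ∑ p ∈ P, f p ≤ ∑ p ∈ P, (t1 + ∑ j ∈ range J,
      if 2 ^ j * t1 ≤ f p then (2:ℝ) ^ (j + 1) * t1 else 0) := Finset.sum_le_sum hpt
    _ = t1 * P.card + ∑ j ∈ range J, (2:ℝ) ^ (j + 1) * t1 *
        ((P.filter (fun p => 2 ^ j * t1 ≤ f p)).card : ℝ) := by
        rw [Finset.sum_add_distrib, hswap, Finset.sum_const, nsmul_eq_mul, mul_comm]
    _ ≤ t1 * P.card + ∑ j ∈ range J, 2 * B * t1 ^ (1 - β) * (1 / 2) ^ j := by
        have := Finset.sum_le_sum hterm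
        linarith
    _ = t1 * P.card + 2 * B * t1 ^ (1 - β) * ∑ j ∈ range J, ((1:ℝ) / 2) ^ j := by
        rw [Finset.mul_sum]
    _ ≤ t1 * P.card + 4 * B * t1 ^ (1 - β) := by
        have h8 : 0 ≤ 2 * B * t1 ^ (1 - β) := by
          have := Real.rpow_pos_of_pos ht1 (1 - β)
          positivity
        nlinarith

/-- the main estimate, `n` and `m` positive, `A0, t0 ≥ 1` -/
private lemma mainc (k : ℕ) (hk : 2 ≤ k) (A0 t0 : ℝ) (hA0 : 1 ≤ A0) (ht0 : 1 ≤ t0)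
    {X : Type} (P : Finset X) (μ : X → ℕ) (n : ℕ) (hn : 1 ≤ n) (hP : P.Nonempty)
    (h1 : ∀ t : ℝ, t0 ≤ t → ((P.filter (fun p => t ≤ (μ p : ℝ))).card : ℝ) ≤
        A0 * ((n : ℝ) ^ 2 / t ^ ((2 * k - 1 : ℝ) / (k - 1)) + n / t))
    (h2 : ∀ P' : Finset X, P' ⊆ P → ((∑ p ∈ P', μ p : ℕ) : ℝ) ≤ A0 * (n + (P'.card : ℝ) ^ k)) :
    ((∑ p ∈ P, μ p : ℕ) : ℝ) ≤
      (1 + 8 * A0) * ((P.card : ℝ) ^ ((k : ℝ) / (2 * k - 1)) *
        (n : ℝ) ^ ((2 * k - 2 : ℝ) / (2 * k - 1))) + t0 * P.card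
          + A0 * (1 + (2 * A0) ^ k + (A0 * (t0 ^ 4 + t0 ^ 2)) ^ k) * n := by
  classical
  have hK : (2:ℝ) ≤ k := by exact_mod_cast hk
  have hK1 : (0:ℝ) < (k:ℝ) - 1 := by linarith
  have hK0 : (0:ℝ) < (k:ℝ) := by linarith
  have hK21 : (0:ℝ) < 2 * (k:ℝ) - 1 := by linarith
  set β : ℝ := (2 * k - 1 : ℝ) / (k - 1) with hβdef
  have hβ2 : 2 ≤ β := by
    rw [hβdef, le_div_iff₀ hK1]; linarith
  have hβ0 : 0 < β := by linarith
  have hβ1 : β - 1 = (k:ℝ) / (k - 1) := by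
    rw [hβdef]; field_simp; ring
  have hn1 : (1:ℝ) ≤ n := by exact_mod_cast hn
  have hn0 : (0:ℝ) < n := by linarith
  have hm1 : (1:ℝ) ≤ P.card := by exact_mod_cast hP.card_pos
  have hm0 : (0:ℝ) < P.card := by linarith
  have ht00 : 0 < t0 := by linarith
  have hA00 : 0 < A0 := by linarith
  set t2 : ℝ := (n:ℝ) ^ (((k:ℝ) - 1) / k) with ht2def
  have ht2pos : 0 < t2 := Real.rpow_pos_of_pos hn0 _
  have ht2one : 1 ≤ t2 := Real.one_le_rpow hn1 (by positivity)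
  have ht2β : t2 ^ (β - 1) = n := by
    rw [ht2def, ← Real.rpow_mul hn0.le, hβ1]
    have : ((k:ℝ) - 1) / k * (k / (k - 1)) = 1 := by field_simp
    rw [this, Real.rpow_one]
  -- the value of `n / t` and `n^2 / t^β`
  have hcmp : ∀ t : ℝ, 0 < t → t ≤ t2 → (n:ℝ) / t ≤ (n:ℝ) ^ 2 / t ^ β := by
    intro t ht htt2
    have h3 : t ^ (β - 1) ≤ n := by
      rw [← ht2β]
      exact Real.rpow_le_rpow ht.le htt2 (by linarith)
    have h4 : t ^ β = t ^ (β - 1) * t := by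
      rw [← Real.rpow_add_one ht.ne']; ring_nf
    rw [div_le_div_iff₀ ht (Real.rpow_pos_of_pos ht _), h4]
    have h5 : t ^ (β - 1) * t ≤ n * t := mul_le_mul_of_nonneg_right h3 ht.le
    nlinarith
  set M : ℝ := max t0 t2 with hM
  have hMt0 : t0 ≤ M := le_max_left _ _
  have hMt2 : t2 ≤ M := le_max_right _ _
  have hM0 : 0 < M := by linarith
  -- high part
  have hhigh : ((∑ p ∈ P.filter (fun p => M ≤ (μ p : ℝ)), μ p : ℕ) : ℝ) ≤
      A0 * (1 + (2 * A0) ^ k + (A0 * (t0 ^ 4 + t0 ^ 2)) ^ k) * n := by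
    have hs := h2 (P.filter (fun p => M ≤ (μ p : ℝ))) (Finset.filter_subset _ _)
    have hc := h1 M hMt0
    set c : ℝ := ((P.filter (fun p => M ≤ (μ p : ℝ))).card : ℝ) with hcdef
    have hc0 : 0 ≤ c := Nat.cast_nonneg _
    have hX1 : 0 ≤ (2 * A0) ^ k := by positivity
    have hX2 : 0 ≤ (A0 * (t0 ^ 4 + t0 ^ 2)) ^ k := by positivity
    rcases le_or_gt t0 t2 with hle | hlt
    · have hMe : M = t2 := max_eq_right hle
      rw [hMe] at hc
      have e1 : (n:ℝ) ^ 2 / t2 ^ β = n / t2 := by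
        have h4 : t2 ^ β = n * t2 := by
          have : t2 ^ β = t2 ^ (β - 1) * t2 := by
            rw [← Real.rpow_add_one ht2pos.ne']; ring_nf
          rw [this, ht2β]
        rw [h4]
        field_simp
      have e2 : ((n:ℝ) / t2) ^ k = n := by
        have h5 : (n:ℝ) / t2 = (n:ℝ) ^ ((1:ℝ) / k) := by
          rw [ht2def]
          nth_rewrite 1 [← Real.rpow_one (n:ℝ)]
          rw [← Real.rpow_sub hn0]
          congr 1
          field_simp
          ring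
        rw [h5, ← Real.rpow_natCast, ← Real.rpow_mul hn0.le]
        have : (1:ℝ) / k * k = 1 := by field_simp
        rw [this, Real.rpow_one]
      rw [e1] at hc
      have hc' : c ≤ 2 * A0 * (n / t2) := by linarith
      have hck : c ^ k ≤ (2 * A0) ^ k * n := by
        calc c ^ k ≤ (2 * A0 * (n / t2)) ^ k := pow_le_pow_left₀ hc0 hc' k
          _ = (2 * A0) ^ k * n := by rw [mul_pow, e2]
      have hX3 : 0 ≤ (A0 * (t0 ^ 4 + t0 ^ 2)) ^ k * n := by positivity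
      calc ((∑ p ∈ P.filter (fun p => M ≤ (μ p : ℝ)), μ p : ℕ) : ℝ) ≤ A0 * (n + c ^ k) := hs
        _ ≤ A0 * (n + (2 * A0) ^ k * n + (A0 * (t0 ^ 4 + t0 ^ 2)) ^ k * n) := by
            apply mul_le_mul_of_nonneg_left _ hA00.le
            linarith
        _ = _ := by ring
    · have hMe : M = t0 := max_eq_left hlt.le
      rw [hMe] at hc
      have hnt : (n:ℝ) ≤ t0 ^ 2 := by
        rw [← ht2β]
        calc t2 ^ (β - 1) ≤ t0 ^ (β - 1) := Real.rpow_le_rpow ht2pos.le hlt.le (by linarith)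
          _ ≤ t0 ^ ((2:ℕ):ℝ) := by
              apply Real.rpow_le_rpow_of_exponent_le ht0
              rw [hβ1, div_le_iff₀ hK1]
              push_cast
              linarith
          _ = t0 ^ 2 := Real.rpow_natCast t0 2
      have hc1 : (n:ℝ) ^ 2 / t0 ^ β ≤ t0 ^ 4 := by
        have h6 : (1:ℝ) ≤ t0 ^ β := Real.one_le_rpow ht0 hβ0.le
        calc (n:ℝ) ^ 2 / t0 ^ β ≤ (n:ℝ) ^ 2 := div_le_self (by positivity) h6
          _ ≤ (t0 ^ 2) ^ 2 := pow_le_pow_left₀ hn0.le hnt 2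
          _ = t0 ^ 4 := by ring
      have hc2 : (n:ℝ) / t0 ≤ t0 ^ 2 := (div_le_self hn0.le ht0).trans hnt
      have hc' : c ≤ A0 * (t0 ^ 4 + t0 ^ 2) := by
        refine hc.trans (mul_le_mul_of_nonneg_left ?_ hA00.le)
        linarith
      have hck : c ^ k ≤ (A0 * (t0 ^ 4 + t0 ^ 2)) ^ k := pow_le_pow_left₀ hc0 hc' k
      calc ((∑ p ∈ P.filter (fun p => M ≤ (μ p : ℝ)), μ p : ℕ) : ℝ) ≤ A0 * (n + c ^ k) := hs
        _ ≤ A0 * (n + (2 * A0) ^ k * n + (A0 * (t0 ^ 4 + t0 ^ 2)) ^ k * n) := by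
            apply mul_le_mul_of_nonneg_left _ hA00.le
            have h7 : (A0 * (t0 ^ 4 + t0 ^ 2)) ^ k * 1 ≤ (A0 * (t0 ^ 4 + t0 ^ 2)) ^ k * n :=
              mul_le_mul_of_nonneg_left hn1 hX2
            have h8 : 0 ≤ (2 * A0) ^ k * n := by positivity
            linarith
        _ = _ := by ring
  -- low part
  set Q : Finset X := P.filter (fun p => ¬ M ≤ (μ p : ℝ)) with hQdef
  have hlow : ∀ t : ℝ, t0 ≤ t → ((Q.filter (fun p => t ≤ (μ p : ℝ))).card : ℝ) ≤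
      (2 * A0 * (n:ℝ) ^ 2) / t ^ β := by
    intro t ht
    have htpos : 0 < t := by linarith
    rcases le_or_gt M t with hMt | htM
    · have he : Q.filter (fun p => t ≤ (μ p : ℝ)) = ∅ := by
        rw [Finset.filter_eq_empty_iff]
        intro p hp hcon
        rw [hQdef, Finset.mem_filter] at hp
        exact hp.2 (hMt.trans hcon)
      rw [he]
      simp only [Finset.card_empty, Nat.cast_zero]
      have := Real.rpow_pos_of_pos htpos β
      positivity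
    · have htt2 : t ≤ t2 := by
        rw [hM, lt_max_iff] at htM
        rcases htM with h | h
        · linarith
        · exact h.le
      have h9 : ((Q.filter (fun p => t ≤ (μ p : ℝ))).card : ℝ) ≤
          ((P.filter (fun p => t ≤ (μ p : ℝ))).card : ℝ) := by
        exact_mod_cast Finset.card_le_card (Finset.filter_subset_filter _ (Finset.filter_subset _ _))
      refine h9.trans ((h1 t ht).trans ?_)
      have h10 := hcmp t htpos htt2
      calc A0 * ((n : ℝ) ^ 2 / t ^ β + n / t) ≤ A0 * ((n : ℝ) ^ 2 / t ^ β + (n : ℝ) ^ 2 / t ^ β) := by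
            apply mul_le_mul_of_nonneg_left _ hA00.le
            linarith
        _ = (2 * A0 * (n:ℝ) ^ 2) / t ^ β := by ring
  set s : ℝ := ((n:ℝ) ^ 2 / P.card) ^ (1 / β) with hsdef
  have hbase : 0 < (n:ℝ) ^ 2 / P.card := by positivity
  have hs0 : 0 < s := Real.rpow_pos_of_pos hbase _
  have hsβ : s ^ β = (n:ℝ) ^ 2 / P.card := by
    rw [hsdef, ← Real.rpow_mul hbase.le]
    have : 1 / β * β = 1 := by field_simp
    rw [this, Real.rpow_one]
  have hsm : s * P.card = (P.card : ℝ) ^ ((k : ℝ) / (2 * k - 1)) *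
        (n : ℝ) ^ ((2 * k - 2 : ℝ) / (2 * k - 1)) := by
    rw [hsdef, Real.div_rpow (by positivity) hm0.le, ← Real.rpow_natCast (n:ℝ) 2,
      ← Real.rpow_mul hn0.le]
    have e3 : ((2:ℕ):ℝ) * (1 / β) = (2 * k - 2 : ℝ) / (2 * k - 1) := by
      rw [hβdef]
      push_cast
      field_simp
    rw [e3]
    have e4 : (P.card : ℝ) ^ ((k : ℝ) / (2 * k - 1)) = P.card / (P.card : ℝ) ^ (1 / β) := by
      nth_rewrite 2 [← Real.rpow_one (P.card : ℝ)]
      rw [← Real.rpow_sub hm0]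
      congr 1
      rw [hβdef, one_div_div, eq_sub_iff_add_eq, ← add_div, div_eq_one_iff_eq hK21.ne']
      ring
    rw [e4]
    ring
  set t1 : ℝ := max t0 s with ht1def
  have ht1t0 : t0 ≤ t1 := le_max_left _ _
  have ht1s : s ≤ t1 := le_max_right _ _
  have ht1pos : 0 < t1 := by linarith
  have hdy := dyadic Q (fun p => (μ p : ℝ)) (2 * A0 * (n:ℝ) ^ 2) t1 β (by positivity) ht1pos hβ2
    (fun t ht => hlow t (ht1t0.trans ht))
  have hQm : (Q.card : ℝ) ≤ P.card := by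
    exact_mod_cast Finset.card_le_card (Finset.filter_subset _ _)
  have ht1le : t1 ≤ t0 + s := max_le (by linarith) (by linarith)
  have hanti : t1 ^ (1 - β) ≤ s ^ (1 - β) :=
    Real.rpow_le_rpow_of_nonpos hs0 ht1s (by linarith)
  have hns : (n:ℝ) ^ 2 * s ^ (1 - β) = s * P.card := by
    have e5 : (n:ℝ) ^ 2 = P.card * s ^ β := by
      rw [hsβ]; field_simp
    rw [e5, mul_assoc, ← Real.rpow_add hs0]
    have : β + (1 - β) = 1 := by ring
    rw [this, Real.rpow_one, mul_comm]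
  have hlowsum : ∑ p ∈ Q, (μ p : ℝ) ≤ t0 * P.card + (1 + 8 * A0) * (s * P.card) := by
    calc ∑ p ∈ Q, (μ p : ℝ) ≤ t1 * Q.card + 4 * (2 * A0 * (n:ℝ) ^ 2) * t1 ^ (1 - β) := hdy
      _ ≤ (t0 + s) * P.card + 4 * (2 * A0 * (n:ℝ) ^ 2) * s ^ (1 - β) := by
          have a1 : t1 * Q.card ≤ (t0 + s) * P.card :=
            mul_le_mul ht1le hQm (Nat.cast_nonneg _) (by linarith)
          have a2 : 4 * (2 * A0 * (n:ℝ) ^ 2) * t1 ^ (1 - β) ≤
              4 * (2 * A0 * (n:ℝ) ^ 2) * s ^ (1 - β) :=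
            mul_le_mul_of_nonneg_left hanti (by positivity)
          linarith
      _ = t0 * P.card + s * P.card + 8 * A0 * ((n:ℝ) ^ 2 * s ^ (1 - β)) := by ring
      _ = t0 * P.card + (1 + 8 * A0) * (s * P.card) := by rw [hns]; ring
  have hsplit : ((∑ p ∈ P, μ p : ℕ) : ℝ) =
      ((∑ p ∈ P.filter (fun p => M ≤ (μ p : ℝ)), μ p : ℕ) : ℝ) + ∑ p ∈ Q, (μ p : ℝ) := by
    rw [← Finset.sum_filter_add_sum_filter_not P (fun p => M ≤ (μ p : ℝ))]
    push_cast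
    rfl
  rw [hsplit, ← hsm]
  linarith

theorem sum_final (k : ℕ) (hk : 2 ≤ k) (A0 t0 : ℝ) : ∃ A : ℝ, 0 ≤ A ∧
    ∀ {X : Type} (P : Finset X) (μ : X → ℕ) (n : ℕ),
      (∀ t : ℝ, t0 ≤ t → 0 < t → ((P.filter (fun p => t ≤ (μ p : ℝ))).card : ℝ) ≤
        A0 * ((n : ℝ) ^ 2 / t ^ ((2 * k - 1 : ℝ) / (k - 1)) + n / t)) →
      (∀ P' : Finset X, P' ⊆ P → ((∑ p ∈ P', μ p : ℕ) : ℝ) ≤ A0 * (n + (P'.card : ℝ) ^ k)) →
      ((∑ p ∈ P, μ p : ℕ) : ℝ) ≤
        A * ((P.card : ℝ) ^ ((k : ℝ) / (2 * k - 1)) * (n : ℝ) ^ ((2 * k - 2 : ℝ) / (2 * k - 1))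
          + P.card + n) := by
  set A1 : ℝ := max A0 1 with hA1
  set t1 : ℝ := max t0 1 with ht1
  have hA11 : 1 ≤ A1 := le_max_right _ _
  have hA1A : A0 ≤ A1 := le_max_left _ _
  have ht11 : 1 ≤ t1 := le_max_right _ _
  have ht1t : t0 ≤ t1 := le_max_left _ _
  have hA10 : 0 < A1 := by linarith
  have ht10 : 0 < t1 := by linarith
  set C1 : ℝ := A1 * (1 + (2 * A1) ^ k + (A1 * (t1 ^ 4 + t1 ^ 2)) ^ k) with hC1
  have hC10 : 0 ≤ C1 := by positivity
  refine ⟨(1 + 8 * A1) + t1 + C1, by positivity, ?_⟩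
  intro X P μ n h1 h2
  set Z : ℝ := (P.card : ℝ) ^ ((k : ℝ) / (2 * k - 1)) * (n : ℝ) ^ ((2 * k - 2 : ℝ) / (2 * k - 1))
    with hZ
  have hZ0 : 0 ≤ Z := by positivity
  have hm0 : (0:ℝ) ≤ P.card := Nat.cast_nonneg _
  have hn0 : (0:ℝ) ≤ n := Nat.cast_nonneg _
  rcases P.eq_empty_or_nonempty with hPe | hPne
  · subst hPe
    simp only [Finset.sum_empty, Nat.cast_zero]
    positivity
  rcases Nat.eq_zero_or_pos n with hn | hn
  · -- `n = 0`
    have hpt : ∀ p ∈ P, (μ p : ℝ) ≤ A1 := by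
      intro p hp
      have h3 := h2 {p} (by simpa using hp)
      simp only [Finset.sum_singleton, Finset.card_singleton, hn, Nat.cast_zero, Nat.cast_one,
        one_pow, zero_add, mul_one] at h3
      linarith
    have h4 : ((∑ p ∈ P, μ p : ℕ) : ℝ) ≤ A1 * P.card := by
      push_cast
      calc ∑ p ∈ P, (μ p : ℝ) ≤ ∑ p ∈ P, A1 := Finset.sum_le_sum hpt
        _ = A1 * P.card := by rw [Finset.sum_const, nsmul_eq_mul, mul_comm]
    refine h4.trans ?_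
    calc A1 * P.card ≤ ((1 + 8 * A1) + t1 + C1) * P.card := by
          apply mul_le_mul_of_nonneg_right _ hm0
          linarith
      _ ≤ ((1 + 8 * A1) + t1 + C1) * (Z + P.card + n) := by
          apply mul_le_mul_of_nonneg_left _ (by positivity)
          linarith
  · have hmain := mainc k hk A1 t1 hA11 ht11 P μ n hn hPne
      (fun t ht => by
        have htp : 0 < t := by linarith
        refine (h1 t (ht1t.trans ht) htp).trans ?_
        apply mul_le_mul_of_nonneg_right hA1A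
        have := Real.rpow_pos_of_pos htp ((2 * k - 1 : ℝ) / (k - 1))
        positivity)
      (fun P' hP' => by
        refine (h2 P' hP').trans ?_
        apply mul_le_mul_of_nonneg_right hA1A
        positivity)
    refine hmain.trans ?_
    rw [← hZ, ← hC1]
    have b1 : 0 ≤ (1 + 8 * A1) * (P.card + n : ℝ) := by positivity
    have b2 : 0 ≤ t1 * (Z + n) := by positivity
    have b3 : 0 ≤ C1 * (Z + P.card) := by positivity
    nlinarith

end CFS
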