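import Pool.Agent.CFS.Defs

/-!
# Module CFS-ConfL: linear algebra of `K`-conformal maps

Norm inequality, inverse of a nonzero `K`-conformal map, uniqueness of the flat through two points.
-/

noncomputable section

namespace CFS

theorem kconf_norm {l : ℕ} {K : ℝ} (hK : 0 ≤ K) {D : E l →L[ℝ] E l} (h : KConf K D) (w : E l) :
    ‖D‖ * ‖w‖ ≤ K * ‖D w‖ := by
  by_cases hw : w = 0
  · rw [hw, norm_zero, mul_zero]
    positivity
  · have hw0 : 0 < ‖w‖ := norm_pos_iff.2 hw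
    have h1 : ‖D‖ ≤ K * ‖D w‖ / ‖w‖ := by
      refine ContinuousLinearMap.opNorm_le_bound _ (by positivity) fun u => ?_
      rw [div_mul_eq_mul_div, le_div_iff₀ hw0]
      have := h u w
      linarith
    rwa [le_div_iff₀ hw0] at h1

private theorem cfl_inj {l : ℕ} {K : ℝ} (hK : 0 ≤ K) {D : E l →L[ℝ] E l} (h : KConf K D)
    (h0 : D ≠ 0) {w : E l} (hw : D w = 0) : w = 0 := by
  have h1 := kconf_norm hK h w
  rw [hw, norm_zero, mul_zero] at h1
  have h2 : 0 < ‖D‖ := norm_pos_iff.2 h0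
  have h3 : ‖w‖ ≤ 0 := by
    by_contra hc
    push Not at hc
    have := mul_pos h2 hc
    linarith
  exact norm_le_zero_iff.1 h3

theorem kconf_inv {l : ℕ} {K : ℝ} (hK : 0 ≤ K) {D : E l →L[ℝ] E l} (h : KConf K D) (h0 : D ≠ 0) :
    ∃ Di : E l →L[ℝ] E l, (∀ v, D (Di v) = v) ∧ (∀ w, Di (D w) = w) ∧
      ∀ v, ‖D‖ * ‖Di v‖ ≤ K * ‖v‖ := by
  have hinj : Function.Injective (D : E l →ₗ[ℝ] E l) := by
    rw [injective_iff_map_eq_zero]
    intro w hw
    exact cfl_inj hK h h0 hw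
  set e := LinearEquiv.ofInjectiveEndo (D : E l →ₗ[ℝ] E l) hinj with he
  have h1 : ∀ v, D (LinearMap.toContinuousLinearMap e.symm.toLinearMap v) = v := by
    intro v
    have h2 : e (e.symm v) = v := e.apply_symm_apply v
    exact h2
  have h2 : ∀ w, LinearMap.toContinuousLinearMap e.symm.toLinearMap (D w) = w := by
    intro w
    have h3 : e.symm (e w) = w := e.symm_apply_apply w
    exact h3
  refine ⟨LinearMap.toContinuousLinearMap e.symm.toLinearMap, h1, h2, fun v => ?_⟩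
  have h3 := kconf_norm hK h (LinearMap.toContinuousLinearMap e.symm.toLinearMap v)
  rwa [h1] at h3

theorem inc_unique {l : ℕ} {K : ℝ} (hK : 0 ≤ K) {P : Finset (W l)} {F : Finset (Fl l)}
    (hc : ConfFam K P F) {p q : W l} (hp : p ∈ P) (hq : q ∈ P) (hpq : p ≠ q) {f g : Fl l}
    (hf : f ∈ F) (hg : g ∈ F) (h1 : Inc p f) (h2 : Inc q f) (h3 : Inc p g) (h4 : Inc q g) :
    f = g := by
  by_contra hfg
  unfold Inc at h1 h2 h3 h4
  have hconf := hc p hp f hf g hg hfg h1 h3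
  have h0 : f.1 - g.1 ≠ 0 := by
    intro h0
    have h5 : f.1 = g.1 := sub_eq_zero.1 h0
    apply hfg
    refine Prod.ext h5 ?_
    rw [h5, h3] at h1
    exact (add_left_cancel h1).symm
  have e1 : (f.1 - g.1) (p.1 - q.1) = 0 := by
    have a1 : f.1 p.1 + f.2 = g.1 p.1 + g.2 := h1.symm.trans h3
    have a2 : f.1 q.1 + f.2 = g.1 q.1 + g.2 := h2.symm.trans h4
    rw [sub_apply, map_sub, map_sub]
    have a3 : f.1 p.1 - f.1 q.1 = (f.1 p.1 + f.2) - (f.1 q.1 + f.2) := by abel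
    have a4 : g.1 p.1 - g.1 q.1 = (g.1 p.1 + g.2) - (g.1 q.1 + g.2) := by abel
    rw [a3, a4, a1, a2, sub_self]
  have e2 := cfl_inj hK hconf h0 e1
  have e3 : p.1 = q.1 := sub_eq_zero.1 e2
  apply hpq
  refine Prod.ext e3 ?_
  rw [h1, h2, e3]

end CFS
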