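import Mathlib

/-!
# Module CFS-Chunk: cutting a finite set with levels into chunks (finite combinatorics)

`X` finite set, `j : α → ℤ` levels, each level has at most `B` elements (`1 ≤ B`).
`cnt X j t = #{q ∈ X : j q < t}`, `chunk q = cnt X j (j q) / B` (natural division).

Plan.
* `cnt_mono`: clear.  `cnt_succ`: `cnt (t+1) ≤ cnt t + B` (`{j q < t+1} = {j q < t} ∪ {j q = t}`).
* `chunk_size`: let `Y ⊆ X` be a set of elements of chunk `k`.  If `Y` is nonempty let `a, b ∈ Y` have
  the minimal and the maximal level.  `Y ⊆ {q ∈ X : j q < j b + 1} \ {q ∈ X : j q < j a}` so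
  `|Y| ≤ cnt (j b + 1) - cnt (j a) ≤ cnt (j b) + B - cnt (j a)` and `cnt (j b) < (k+1) B`,
  `cnt (j a) ≥ k B`.
* `chunk_range`: `cnt X j t ≤ |X|`, so the chunk numbers are `≤ |X| / B`: at most `|X| / B + 1` values.
* `chunk_two`: if `a b ∈ X` have the same chunk `k`, `j a ≤ t + 1`, `t ≤ j b`, then
  `k = cnt (j a) / B ≤ cnt (t+1) / B ≤ (cnt t + B)/B = cnt t / B + 1` and
  `k = cnt (j b)/B ≥ cnt t / B`.
-/

namespace CFS

open Finset Classical

/-- number of elements of level `< t` -/
noncomputable def cnt {α : Type*} (X : Finset α) (j : α → ℤ) (t : ℤ) : ℕ :=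
  (X.filter (fun q => j q < t)).card

theorem cnt_mono {α : Type*} (X : Finset α) (j : α → ℤ) {s t : ℤ} (h : s ≤ t) :
    cnt X j s ≤ cnt X j t := by
  unfold cnt
  refine Finset.card_le_card ?_
  intro q hq
  rw [Finset.mem_filter] at hq ⊢
  exact ⟨hq.1, lt_of_lt_of_le hq.2 h⟩

private theorem cnt_succ {α : Type*} (X : Finset α) (j : α → ℤ) (B : ℕ)
    (hlev : ∀ t : ℤ, (X.filter (fun q => j q = t)).card ≤ B) (t : ℤ) :
    cnt X j (t + 1) ≤ cnt X j t + B := by
  have hsub : X.filter (fun q => j q < t + 1) ⊆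
      X.filter (fun q => j q < t) ∪ X.filter (fun q => j q = t) := by
    intro q hq
    rw [Finset.mem_filter] at hq
    rw [Finset.mem_union, Finset.mem_filter, Finset.mem_filter]
    rcases lt_or_eq_of_le (Int.lt_add_one_iff.mp hq.2) with h | h
    · exact Or.inl ⟨hq.1, h⟩
    · exact Or.inr ⟨hq.1, h⟩
  have h1 := Finset.card_le_card hsub
  have h2 := Finset.card_union_le (X.filter (fun q => j q < t)) (X.filter (fun q => j q = t))
  have h3 := hlev t
  unfold cnt
  omega

theorem chunk_size {α : Type*} (X : Finset α) (j : α → ℤ) (B : ℕ) (hB : 1 ≤ B)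
    (hlev : ∀ t : ℤ, (X.filter (fun q => j q = t)).card ≤ B) (k : ℕ) :
    (X.filter (fun q => cnt X j (j q) / B = k)).card ≤ 2 * B := by
  set Y := X.filter (fun q => cnt X j (j q) / B = k) with hY
  rcases Y.eq_empty_or_nonempty with h0 | hne
  · rw [h0]
    simp
  · obtain ⟨a, haY, hamin⟩ := Finset.exists_min_image Y j hne
    obtain ⟨b, hbY, hbmax⟩ := Finset.exists_max_image Y j hne
    have ha2 : cnt X j (j a) / B = k := (Finset.mem_filter.mp haY).2
    have hb2 : cnt X j (j b) / B = k := (Finset.mem_filter.mp hbY).2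
    have hdisj : Disjoint Y (X.filter (fun q => j q < j a)) := by
      rw [Finset.disjoint_left]
      intro q hq hq2
      have h1 := hamin q hq
      have h2 := (Finset.mem_filter.mp hq2).2
      omega
    have hsub : Y ∪ X.filter (fun q => j q < j a) ⊆ X.filter (fun q => j q < j b + 1) := by
      intro q hq
      rw [Finset.mem_union] at hq
      rw [Finset.mem_filter]
      rcases hq with hq | hq
      · have h1 := hbmax q hq
        exact ⟨(Finset.mem_filter.mp hq).1, by omega⟩
      · have h1 := hbmax a haY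
        have h2 := (Finset.mem_filter.mp hq).2
        exact ⟨(Finset.mem_filter.mp hq).1, by omega⟩
    have hc := Finset.card_le_card hsub
    rw [Finset.card_union_of_disjoint hdisj] at hc
    have hs := cnt_succ X j B hlev (j b)
    unfold cnt at hs ha2 hb2
    have ha3 : k * B ≤ (X.filter (fun q => j q < j a)).card := by
      rw [← ha2]
      exact Nat.div_mul_le_self _ _
    have hb3 : (X.filter (fun q => j q < j b)).card < (k + 1) * B := by
      have hB0 : 0 < B := hB
      have h5 := Nat.div_add_mod (X.filter (fun q => j q < j b)).card B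
      have h6 := Nat.mod_lt (X.filter (fun q => j q < j b)).card hB0
      rw [hb2] at h5
      have h7 : (k + 1) * B = B * k + B := by ring
      omega
    have hk : (k + 1) * B = k * B + B := by ring
    omega

theorem chunk_range {α : Type*} (X : Finset α) (j : α → ℤ) (B : ℕ) (hB : 1 ≤ B) :
    (X.image (fun q => cnt X j (j q) / B)).card ≤ X.card / B + 1 := by
  have hsub : X.image (fun q => cnt X j (j q) / B) ⊆ Finset.range (X.card / B + 1) := by
    intro m hm
    obtain ⟨q, _, rfl⟩ := Finset.mem_image.mp hm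
    rw [Finset.mem_range, Nat.lt_succ_iff]
    exact Nat.div_le_div_right (Finset.card_filter_le _ _)
  have h := Finset.card_le_card hsub
  rwa [Finset.card_range] at h

theorem chunk_two {α : Type*} (X : Finset α) (j : α → ℤ) (B : ℕ) (hB : 1 ≤ B)
    (hlev : ∀ t : ℤ, (X.filter (fun q => j q = t)).card ≤ B) (t : ℤ) (k : ℕ) (a b : α)
    (ha : cnt X j (j a) / B = k) (hb : cnt X j (j b) / B = k)
    (h1 : j a ≤ t + 1) (h2 : t ≤ j b) :
    k = cnt X j t / B ∨ k = cnt X j t / B + 1 := by
  have hs := cnt_succ X j B hlev t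
  have h3 : k ≤ cnt X j t / B + 1 := by
    rw [← ha]
    calc cnt X j (j a) / B ≤ (cnt X j t + B) / B :=
          Nat.div_le_div_right ((cnt_mono X j h1).trans hs)
      _ = cnt X j t / B + 1 := Nat.add_div_right _ hB
  have h4 : cnt X j t / B ≤ k := by
    rw [← hb]
    exact Nat.div_le_div_right (cnt_mono X j h2)
  omega

end CFS
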