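import Mathlib

/-!
# Module CFS-Fiber: the groups given by a key function (finite combinatorics)

Plan.  `G0 = (Q.image key).image (fun κ => Q.filter (fun p => key p = κ))`.
* members are subsets of `Q`: clear; a member is `Q.filter (key · = κ)` with `κ ∈ Q.image key`.
* `G0.card ≤ (Q.image key).card` (`Finset.card_image_le`).
* the map `κ ↦ fiber` is injective on `Q.image key` (fibers are nonempty and determine `κ`), so
  `Σ_{G ∈ G0} G.card = Σ_{κ ∈ Q.image key} (fiber κ).card = Q.card`
  (`Finset.card_eq_sum_card_image`, `Finset.sum_image`).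
* last item: if `R : Finset α → Prop` is any property then
  `(G0.filter R).card ≤ ((Q.image key).filter (fun κ => R (fiber κ))).card` : `G0.filter R` is the
  image of the right hand side.
-/

namespace CFS

open Finset Classical

theorem fiber_groups {α β : Type*} (Q : Finset α) (key : α → β) :
    ∃ G0 : Finset (Finset α),
      (∀ G ∈ G0, ∃ κ ∈ Q.image key, G = Q.filter (fun p => key p = κ)) ∧
      G0.card ≤ (Q.image key).card ∧
      Q.card = ∑ G ∈ G0, G.card ∧
      ∀ R : Finset α → Prop, (G0.filter R).card ≤
        ((Q.image key).filter (fun κ => R (Q.filter (fun p => key p = κ)))).card := by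
  refine ⟨(Q.image key).image (fun κ => Q.filter (fun p => key p = κ)), ?_, card_image_le, ?_, ?_⟩
  · intro G hG
    obtain ⟨κ, hκ, rfl⟩ := mem_image.1 hG
    exact ⟨κ, hκ, rfl⟩
  · have hinj : Set.InjOn (fun κ => Q.filter (fun p => key p = κ)) (Q.image key : Set β) := by
      intro a ha b _ hab
      obtain ⟨p, hp, hpa⟩ := mem_image.1 (mem_coe.1 ha)
      have h1 : p ∈ Q.filter (fun p => key p = a) := mem_filter.2 ⟨hp, hpa⟩
      have hab' : Q.filter (fun p => key p = a) = Q.filter (fun p => key p = b) := hab
      rw [hab'] at h1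
      exact hpa.symm.trans (mem_filter.1 h1).2
    rw [sum_image hinj]
    exact card_eq_sum_card_image key Q
  · intro R
    refine le_trans (card_le_card ?_) (card_image_le (f := fun κ => Q.filter (fun p => key p = κ)))
    intro G hG
    obtain ⟨hG1, hG2⟩ := mem_filter.1 hG
    obtain ⟨κ, hκ, rfl⟩ := mem_image.1 hG1
    exact mem_image.2 ⟨κ, mem_filter.2 ⟨hκ, hG2⟩, rfl⟩

end CFS
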