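import Pool.Agent.CFS.Defs

/-!
# Module CFS-Cross: elementary facts on crossings (sup norms, real arithmetic)
-/

noncomputable section

namespace CFS

private theorem fst_le {l : ℕ} (p q : W l) : dist p.1 q.1 ≤ dist p q := by
  rw [Prod.dist_eq]
  exact le_max_left _ _

private theorem snd_le {l : ℕ} (p q : W l) : dist p.2 q.2 ≤ dist p q := by
  rw [Prod.dist_eq]
  exact le_max_right _ _

private theorem cr_ab {l : ℕ} {p q z : W l} (h : Cr p q z) :
    dist z.1 p.1 ≤ 51 / 50 * dist p q ∧ dist z.2 q.2 ≤ 51 / 50 * dist p q := by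
  obtain ⟨hp, hq⟩ := h
  have h1 : dist z.1 p.1 ≤ dist z.1 q.1 + dist p.1 q.1 := dist_triangle_right _ _ _
  have h2 : dist z.2 q.2 ≤ dist z.2 p.2 + dist p.2 q.2 := dist_triangle _ _ _
  have h3 := fst_le p q
  have h4 := snd_le p q
  have h5 : 0 ≤ dist p q := dist_nonneg
  constructor <;> linarith

theorem cr_near' {l : ℕ} {p q z : W l} (h : Cr p q z) :
    dist z p ≤ 51 / 50 * dist p q ∧ dist z q ≤ 51 / 50 * dist p q := by
  obtain ⟨ha, hb⟩ := cr_ab h
  obtain ⟨hp, hq⟩ := h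
  have h1 : 0 ≤ dist z.1 p.1 := dist_nonneg
  have h2 : 0 ≤ dist z.2 q.2 := dist_nonneg
  rw [Prod.dist_eq (x := z) (y := p), Prod.dist_eq (x := z) (y := q)]
  exact ⟨max_le ha (by linarith), max_le (by linarith) hb⟩

theorem cr_near {l : ℕ} {p q z : W l} (h : Cr p q z) :
    dist z p ≤ 2 * dist p q ∧ dist z q ≤ 2 * dist p q := by
  obtain ⟨h1, h2⟩ := cr_near' h
  have h5 : 0 ≤ dist p q := dist_nonneg
  exact ⟨by linarith, by linarith⟩

theorem cr_up {l : ℕ} {p q z c : W l} (h : Cr p q z) :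
    dist z c ≤ 41 / 40 * max (dist p c) (dist q c) := by
  obtain ⟨ha, hb⟩ := cr_ab h
  obtain ⟨hp, hq⟩ := h
  have hM1 : dist p c ≤ max (dist p c) (dist q c) := le_max_left _ _
  have hM2 : dist q c ≤ max (dist p c) (dist q c) := le_max_right _ _
  generalize max (dist p c) (dist q c) = M at hM1 hM2 ⊢
  have hD : dist p q ≤ dist p c + dist q c := dist_triangle_right _ _ _
  have h1 : dist z.1 c.1 ≤ dist z.1 q.1 + dist q.1 c.1 := dist_triangle _ _ _
  have h2 : dist z.2 c.2 ≤ dist z.2 p.2 + dist p.2 c.2 := dist_triangle _ _ _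
  have h3 := fst_le q c
  have h4 := snd_le p c
  have h5 : 0 ≤ dist p c := dist_nonneg
  rw [Prod.dist_eq (x := z) (y := c)]
  exact max_le (by linarith) (by linarith)

theorem cr_lowH {l : ℕ} {p q z c : W l} (h : Cr p q z) (hc : dist q.2 c.2 ≤ dist q.1 c.1) :
    49 / 50 * dist q c ≤ dist z c := by
  obtain ⟨hp, hq⟩ := h
  have hQ : dist q c = dist q.1 c.1 := by
    rw [Prod.dist_eq]
    exact max_eq_left hc
  have h1 : dist q.1 c.1 ≤ dist z.1 q.1 + dist z.1 c.1 := dist_triangle_left _ _ _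
  have h2 : dist z.2 q.2 ≤ dist z.2 c.2 + dist q.2 c.2 := dist_triangle_right _ _ _
  have h3 := fst_le z c
  have h4 := snd_le z c
  have h5 : 0 ≤ dist q.1 c.1 := dist_nonneg
  rw [hQ]
  by_cases hb : dist z.2 q.2 ≤ 2 * dist q.1 c.1
  · linarith
  · push Not at hb
    linarith

theorem cr_lowV {l : ℕ} {p q z c : W l} (h : Cr p q z) (hc : dist p.1 c.1 ≤ dist p.2 c.2) :
    49 / 50 * dist p c ≤ dist z c := by
  obtain ⟨hp, hq⟩ := h
  have hQ : dist p c = dist p.2 c.2 := by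
    rw [Prod.dist_eq]
    exact max_eq_right hc
  have h1 : dist p.2 c.2 ≤ dist z.2 p.2 + dist z.2 c.2 := dist_triangle_left _ _ _
  have h2 : dist z.1 p.1 ≤ dist z.1 c.1 + dist p.1 c.1 := dist_triangle_right _ _ _
  have h3 := fst_le z c
  have h4 := snd_le z c
  have h5 : 0 ≤ dist p.2 c.2 := dist_nonneg
  rw [hQ]
  by_cases hb : dist z.1 p.1 ≤ 2 * dist p.2 c.2
  · linarith
  · push Not at hb
    linarith

end CFS
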