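import Pool.Agent.CFS.Idx
import Pool.Agent.CFS.Cross

/-!
# Module CFS-Lev: points of one level; small cubes are sparse; crossing points of small cubes

Notation: `s = l + 12`; `2^(j p - s) = 2^(j p) / 2^(l+12) < 2^(l+8) d p / 2^(l+12) = d p / 16`
(`zpow_sub₀`, `D.jhi`) and `2^(j p - s) ≥ 2^(l+7) d p / 2^(l+12) = d p / 32` (`D.jlo`).

* `lev_near`: `p q ∈ P`, `j p = j q`, same index at level `j p - s` : by `idx_dist`
  `dist q p ≤ 2^(j p - s) ≤ d p / 16`.
* `lev_sparse`: the points `q ∈ P` with `j q = j p` and the same index as `p` at level `j p - s`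
  are in the ball of radius `d p / 16` around `p` : fewer than `τ` (`D.sparse`).
* `lev_count`: the points `q` of `X ⊆ P` of level `j` (all `q ∈ X` have `D.j q = j`) in one cube of
  level `j` (all have the same index at level `j`): by `idx_sub` at most `(2^s)^(2l)` indices at
  level `j - s`, each with `≤ τ` points of `X` (`lev_sparse`), so
  `X.card ≤ (2^(l+12))^(2l) * τ` (`Finset.card_le_mul_card_image`).
* `lev_cross`: `p q` as in `lev_near`, `Cr p q z` : `dist z p ≤ 2 dist p q ≤ d p / 8` (`cr_near`),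
  and `|d z - d p| ≤ dist z p` (from `D.dle`, `D.dex`), so `(7/8) d p ≤ d z ≤ (9/8) d p`; and
  `dist z p ≤ d p / 8 ≤ 4 * 2^(j p - s)`.
-/

noncomputable section

namespace CFS

open Finset Classical

private theorem lev_pow {l : ℕ} (D : Data l) {p : W l} (hp : p ∈ D.P) :
    (2 : ℝ) ^ (D.j p - (l + 12 : ℕ)) ≤ D.d p / 16 ∧
      D.d p / 32 ≤ (2 : ℝ) ^ (D.j p - (l + 12 : ℕ)) := by
  have h1 := D.jlo p hp
  have h2 := D.jhi p hp
  rw [zpow_sub₀ two_ne_zero, zpow_natCast]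
  have h3 : (0 : ℝ) < 2 ^ (l + 7) := by positivity
  have e1 : (2 : ℝ) ^ (l + 8) = 2 ^ (l + 7) * 2 := by rw [← pow_succ]
  have e2 : (2 : ℝ) ^ (l + 12) = 2 ^ (l + 7) * 32 := by
    have : (32 : ℝ) = 2 ^ 5 := by norm_num
    rw [this, ← pow_add]
  rw [e1] at h2
  rw [e2]
  constructor
  · rw [div_le_iff₀ (by positivity)]
    linarith
  · rw [le_div_iff₀ (by positivity)]
    linarith

theorem lev_near {l : ℕ} (D : Data l) {p q : W l} (hp : p ∈ D.P) (hq : q ∈ D.P)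
    (hj : D.j q = D.j p)
    (hi : idx D.u (D.j p - (l + 12 : ℕ)) q = idx D.u (D.j p - (l + 12 : ℕ)) p) :
    dist q p ≤ D.d p / 16 := by
  have _ := hq
  have _ := hj
  exact (idx_dist hi).trans (lev_pow D hp).1

theorem lev_sparse {l : ℕ} (D : Data l) {p : W l} (hp : p ∈ D.P) :
    (D.P.filter (fun q => D.j q = D.j p ∧
      idx D.u (D.j p - (l + 12 : ℕ)) q = idx D.u (D.j p - (l + 12 : ℕ)) p)).card ≤ D.τ := by
  refine le_trans (card_le_card ?_) (D.sparse p hp).le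
  intro q hq
  rw [mem_filter] at hq ⊢
  exact ⟨hq.1, lev_near D hp hq.1 hq.2.1 hq.2.2⟩

theorem lev_count {l : ℕ} (D : Data l) (X : Finset (W l)) (hX : X ⊆ D.P) (j : ℤ)
    (h1 : ∀ p ∈ X, D.j p = j) (h2 : ∀ p ∈ X, ∀ q ∈ X, idx D.u j p = idx D.u j q) :
    X.card ≤ (2 ^ (l + 12)) ^ (2 * l) * D.τ := by
  rcases X.eq_empty_or_nonempty with h0 | ⟨x0, hx0⟩
  · rw [h0, card_empty]
    exact Nat.zero_le _
  have h3 := idx_sub D.u j (l + 12) x0 X (fun w hw => h2 w hw x0 hx0)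
  have h4 : X.card ≤ D.τ * (X.image (idx D.u (j - (l + 12 : ℕ)))).card := by
    refine card_le_mul_card_image X D.τ ?_
    intro a ha
    obtain ⟨x, hx, rfl⟩ := mem_image.1 ha
    refine le_trans (card_le_card ?_) (lev_sparse D (hX hx))
    intro q hq
    rw [mem_filter] at hq ⊢
    rw [h1 x hx]
    exact ⟨hX hq.1, h1 q hq.1, hq.2⟩
  calc X.card ≤ D.τ * (X.image (idx D.u (j - (l + 12 : ℕ)))).card := h4
    _ ≤ D.τ * (2 ^ (l + 12)) ^ (2 * l) := Nat.mul_le_mul_left _ h3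
    _ = (2 ^ (l + 12)) ^ (2 * l) * D.τ := Nat.mul_comm _ _

theorem lev_cross {l : ℕ} (D : Data l) {p q z : W l} (hp : p ∈ D.P) (hq : q ∈ D.P)
    (hj : D.j q = D.j p)
    (hi : idx D.u (D.j p - (l + 12 : ℕ)) q = idx D.u (D.j p - (l + 12 : ℕ)) p)
    (hz : Cr p q z) :
    7 / 8 * D.d p ≤ D.d z ∧ D.d z ≤ 9 / 8 * D.d p ∧
      dist z p ≤ 4 * (2 : ℝ) ^ (D.j p - (l + 12 : ℕ)) := by
  have h1 := lev_near D hp hq hj hi
  have h2 := (cr_near hz).1
  rw [dist_comm p q] at h2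
  have h3 := (lev_pow D hp).2
  obtain ⟨c, hc, hcd⟩ := D.dex p
  obtain ⟨c', hc', hcd'⟩ := D.dex z
  have h4 := D.dle z c hc
  have h5 := D.dle p c' hc'
  have h6 : dist z c ≤ dist z p + dist p c := dist_triangle _ _ _
  have h7 : dist p c' ≤ dist z p + dist z c' := dist_triangle_left _ _ _
  refine ⟨by linarith, by linarith, by linarith⟩

end CFS
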