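import Pool.Agent.CFS.ConcA
import Pool.Agent.CFS.Chunk
import Pool.Agent.CFS.Lev
import Pool.Agent.CFS.Fiber

/-!
# Module CFS-ConcG: the groups of concentrated points

Plan.  `B = (2 ^ (l + 12)) ^ (2 * l) * D.τ` (`≥ τ ≥ 1`).  For a finite set `S` of sites put
`X S = Q.filter (fun q => cl D q = S)`, and choose `rep S ∈ S` if `S` is nonempty.
`key q = (cl D q, cnt (X (cl D q)) D.j (D.j q) / B, decide (dist q.2 c.2 ≤ dist q.1 c.1))` with
`c = rep (cl D q)` (third component in `Bool` or `Prop`); groups by `fiber_groups Q key`.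
* level counts: the elements of `X S` of level `t` have all the same index at level `t` (the one of
  any element of the nonempty `S = cl D q`, `cl_mem`), so `≤ B` by `lev_count`.
* size: `≤ 2 B` by `chunk_size` for `X S` : `C ≥ 2 (2^(l+12))^(2l)`.
* number of keys: `≤ Σ_{S ∈ Q.image (cl D)} 2 * (|X S| / B + 1)` (`chunk_range`), so
  `#keys * B ≤ 2 |Q| + 2 * (Q.image (cl D)).card * B ≤ 2 |Q| + 4 * D.S.card * B`
  (`cl_laminar_card`); as `B = C2 τ` with `C2 = (2^(l+12))^(2l) ≥ 1`:
  `#keys * τ ≤ 2 |Q| + 4 |S| τ` (divide by `C2`; `2|Q|/C2 ≤ 2|Q|`).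
* overlap: fix `z`.  If a key `κ` has `p q ∈ Q`, `key p = κ = key q`, `Cr p q z`, then
  `CrossOK D p q (rep κ.1) z` (`Conc` by hypothesis on `Q`; the third component gives `SameType`).
  By `ok_unique` all such `κ` have the same first component `S0`; put `c = rep S0`, `Δ = dist z c > 0`
  (`ok_levels`), and let `t` be the least integer with `2^(l+7) (32/41) Δ ≤ 2^t`
  (`t = Int.clog 2 _`, `Int.self_le_zpow_clog`, `Int.zpow_pred_clog_lt_self`, or
  `exists_mem_Ioc_zpow`).  By `ok_levels` the outer point has `t ≤ j o` and the inner point has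
  `2^(j i) < 2 (50/49)(41/32) 2^t < 4 * 2^t`, so `j i ≤ t + 1`.  By `chunk_two` (for `X S0`) the second
  component takes at most 2 values; the third at most 2.  So at most 4 keys.
-/

noncomputable section

namespace CFS

open Finset Classical

/-- a chosen element -/
private def cgRep {l : ℕ} (S : Finset (W l)) : W l := if h : S.Nonempty then h.choose else 0

private theorem cgRep_mem {l : ℕ} {S : Finset (W l)} (h : S.Nonempty) : cgRep S ∈ S := by
  unfold cgRep
  rw [dif_pos h]
  exact h.choose_spec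

/-- the points of `Q` with the cluster `S` -/
private def cgX {l : ℕ} (D : Data l) (Q : Finset (W l)) (S : Finset (W l)) : Finset (W l) :=
  Q.filter (fun q => cl D q = S)

/-- keys -/
private structure CgK (l : ℕ) where
  S : Finset (W l)
  k : ℕ
  b : Bool

private def cgKey {l : ℕ} (D : Data l) (Q : Finset (W l)) (B : ℕ) (q : W l) : CgK l :=
  ⟨cl D q, cnt (cgX D Q (cl D q)) D.j (D.j q) / B,
    decide (dist q.2 (cgRep (cl D q)).2 ≤ dist q.1 (cgRep (cl D q)).1)⟩

private theorem cg_lev {l : ℕ} (D : Data l) (Q : Finset (W l)) (hQ : Q ⊆ D.P)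
    (S : Finset (W l)) (t : ℤ) :
    ((cgX D Q S).filter (fun q => D.j q = t)).card ≤ (2 ^ (l + 12)) ^ (2 * l) * D.τ := by
  apply lev_count D _ _ t
  · intro p hp
    exact (mem_filter.1 hp).2
  · intro p hp q hq
    rw [mem_filter, cgX, mem_filter] at hp hq
    obtain ⟨⟨hpQ, hpS⟩, hpt⟩ := hp
    obtain ⟨⟨hqQ, hqS⟩, hqt⟩ := hq
    obtain ⟨c, hc, _⟩ := cl_mem D (hQ hpQ)
    have hc' : c ∈ cl D q := by
      rw [hqS, ← hpS]
      exact hc
    unfold cl at hc hc'
    rw [mem_filter] at hc hc'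
    have h1 := hc.2
    have h2 := hc'.2
    rw [hpt] at h1
    rw [hqt] at h2
    rw [← h1, ← h2]
  · intro p hp
    exact hQ (mem_filter.1 (mem_filter.1 hp).1).1

private theorem cg_mem_filter {α : Type*} {P : α → Prop} (inst : DecidablePred P) (s : Finset α)
    {a : α} (h : a ∈ @Finset.filter α P inst s) : a ∈ s ∧ P a := Finset.mem_filter.1 h

/-- the crossing pairs of a group -/
private theorem cg_ok {l : ℕ} (D : Data l) (Q : Finset (W l)) (hQ : Q ⊆ D.P)
    (hC : ∀ p ∈ Q, Conc D p) (B : ℕ) {p q z : W l} (hp : p ∈ Q) (hq : q ∈ Q)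
    (hk : cgKey D Q B p = cgKey D Q B q) (hz : Cr p q z) :
    CrossOK D p q (cgRep (cl D p)) z := by
  unfold cgKey at hk
  rw [CgK.mk.injEq] at hk
  obtain ⟨h1, _, h3⟩ := hk
  obtain ⟨c, hc, _⟩ := cl_mem D (hQ hp)
  refine ⟨hQ hp, hQ hq, hC p hp, hC q hq, h1, cgRep_mem ⟨c, hc⟩, ?_, hz⟩
  rw [← h1] at h3
  by_cases hd : dist p.2 (cgRep (cl D p)).2 ≤ dist p.1 (cgRep (cl D p)).1
  · left
    refine ⟨hd, ?_⟩
    rw [decide_eq_true hd] at h3
    exact of_decide_eq_true h3.symm
  · right
    refine ⟨not_le.1 hd, ?_⟩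
    rw [decide_eq_false hd] at h3
    exact not_le.1 (of_decide_eq_false h3.symm)

theorem conc_groups (l : ℕ) : ∃ C : ℕ, ∀ (D : Data l) (Q : Finset (W l)), Q ⊆ D.P →
    (∀ p ∈ Q, Conc D p) →
    ∃ G0 : Finset (Finset (W l)),
      (∀ G ∈ G0, G ⊆ Q) ∧ (∀ G ∈ G0, G.card ≤ C * D.τ) ∧
      G0.card * D.τ ≤ C * (Q.card + D.S.card * D.τ) ∧
      Q.card = ∑ G ∈ G0, G.card ∧
      ∀ z : W l, (G0.filter (fun G => ∃ p ∈ G, ∃ q ∈ G, Cr p q z)).card ≤ C := by
  obtain ⟨C2, hC2⟩ : ∃ C2 : ℕ, C2 = (2 ^ (l + 12)) ^ (2 * l) := ⟨_, rfl⟩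
  have hC21 : 1 ≤ C2 := by
    rw [hC2]
    exact Nat.one_le_pow _ _ (by positivity)
  refine ⟨4 * C2, ?_⟩
  intro D Q hQ hC
  obtain ⟨B, hB⟩ : ∃ B : ℕ, B = C2 * D.τ := ⟨_, rfl⟩
  have hτ := D.hτ
  have hB1 : 1 ≤ B := by
    rw [hB]
    exact Nat.one_le_iff_ne_zero.2 (Nat.mul_ne_zero (by omega) (by omega))
  have hτB : D.τ ≤ B := by
    rw [hB]
    exact Nat.le_mul_of_pos_left _ (by omega)
  have hlev : ∀ S t, ((cgX D Q S).filter (fun q => D.j q = t)).card ≤ B := by
    intro S t
    rw [hB, hC2]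
    exact cg_lev D Q hQ S t
  obtain ⟨G0, hG1, hG2, hG3, hG4⟩ := fiber_groups Q (cgKey D Q B)
  refine ⟨G0, ?_, ?_, ?_, hG3, ?_⟩
  · intro G hG
    obtain ⟨κ, _, rfl⟩ := hG1 G hG
    exact filter_subset _ _
  · intro G hG
    obtain ⟨κ, _, rfl⟩ := hG1 G hG
    obtain ⟨S, k, b⟩ := κ
    have h1 : Q.filter (fun p => cgKey D Q B p = ⟨S, k, b⟩) ⊆
        (cgX D Q S).filter (fun q => cnt (cgX D Q S) D.j (D.j q) / B = k) := by
      intro p hp
      rw [mem_filter] at hp
      obtain ⟨hpQ, hk⟩ := hp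
      unfold cgKey at hk
      rw [CgK.mk.injEq] at hk
      obtain ⟨h1, h2, _⟩ := hk
      rw [mem_filter, cgX, mem_filter]
      rw [h1] at h2
      exact ⟨⟨hpQ, h1⟩, h2⟩
    refine (card_le_card h1).trans ((chunk_size _ D.j B hB1 (hlev S) k).trans ?_)
    rw [hB]
    nlinarith
  · have hkeys : (Q.image (cgKey D Q B)).card ≤
        ∑ S ∈ Q.image (cl D), 2 * ((cgX D Q S).card / B + 1) := by
      have h1 : Q.image (cgKey D Q B) ⊆ (Q.image (cl D)).biUnion (fun S =>
            (((cgX D Q S).image (fun q => cnt (cgX D Q S) D.j (D.j q) / B)) ×ˢ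
              (univ : Finset Bool)).image (fun x => (⟨S, x.1, x.2⟩ : CgK l))) := by
        intro κ hκ
        rw [mem_image] at hκ
        obtain ⟨q, hq, rfl⟩ := hκ
        rw [mem_biUnion]
        refine ⟨cl D q, mem_image_of_mem _ hq, ?_⟩
        unfold cgKey
        rw [mem_image]
        refine ⟨(_, _), ?_, rfl⟩
        rw [mem_product]
        refine ⟨?_, mem_univ _⟩
        rw [mem_image]
        refine ⟨q, ?_, rfl⟩
        rw [cgX, mem_filter]
        exact ⟨hq, rfl⟩
      refine (card_le_card h1).trans (card_biUnion_le.trans ?_)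
      apply sum_le_sum
      intro S _
      refine card_image_le.trans ?_
      rw [card_product, card_univ, Fintype.card_bool, mul_comm]
      exact Nat.mul_le_mul_left 2 (chunk_range _ D.j B hB1)
    have hsum : ∑ S ∈ Q.image (cl D), (cgX D Q S).card = Q.card :=
      (card_eq_sum_card_image (cl D) Q).symm
    have himg : (Q.image (cl D)).card ≤ 2 * D.S.card :=
      (card_le_card (image_subset_image hQ)).trans (cl_laminar_card D)
    have hkB : (Q.image (cgKey D Q B)).card * B ≤ 2 * Q.card + 4 * D.S.card * B := by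
      calc (Q.image (cgKey D Q B)).card * B
          ≤ (∑ S ∈ Q.image (cl D), 2 * ((cgX D Q S).card / B + 1)) * B :=
            Nat.mul_le_mul_right B hkeys
        _ = ∑ S ∈ Q.image (cl D), 2 * (((cgX D Q S).card / B) * B + B) := by
            rw [sum_mul]
            apply sum_congr rfl
            intro S _
            ring
        _ ≤ ∑ S ∈ Q.image (cl D), 2 * ((cgX D Q S).card + B) := by
            apply sum_le_sum
            intro S _
            have := Nat.div_mul_le_self (cgX D Q S).card B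
            omega
        _ = 2 * Q.card + 2 * ((Q.image (cl D)).card * B) := by
            rw [← mul_sum, sum_add_distrib, hsum, sum_const, smul_eq_mul]
            ring
        _ ≤ 2 * Q.card + 4 * D.S.card * B := by
            have := Nat.mul_le_mul_right B himg
            nlinarith
    calc G0.card * D.τ ≤ (Q.image (cgKey D Q B)).card * D.τ := Nat.mul_le_mul_right _ hG2
      _ ≤ (Q.image (cgKey D Q B)).card * B := Nat.mul_le_mul_left _ hτB
      _ ≤ 2 * Q.card + 4 * D.S.card * B := hkB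
      _ ≤ 4 * C2 * (Q.card + D.S.card * D.τ) := by
          rw [hB]
          have h1 : 2 * Q.card ≤ 4 * C2 * Q.card := by
            apply Nat.mul_le_mul_right
            omega
          nlinarith
  · intro z
    refine le_trans (le_of_eq (congrArg Finset.card ?_))
      ((hG4 (fun G => ∃ p ∈ G, ∃ q ∈ G, Cr p q z)).trans ?_)
    · ext G
      simp only [mem_filter]
    have claim : ∀ K : Finset (CgK l), (∀ κ ∈ K, ∃ p, ∃ q, (p ∈ Q ∧ cgKey D Q B p = κ) ∧
        (q ∈ Q ∧ cgKey D Q B q = κ) ∧ Cr p q z) → K.card ≤ 4 * C2 := by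
      intro K hK
      rcases K.eq_empty_or_nonempty with rfl | ⟨κ0, hκ0⟩
      · rw [card_empty]
        exact Nat.zero_le _
      obtain ⟨p0, q0, hp0, hq0, hz0⟩ := hK κ0 hκ0
      have hok0 := cg_ok D Q hQ hC B hp0.1 hq0.1 (hp0.2.trans hq0.2.symm) hz0
      obtain ⟨_, _, hΔ⟩ := ok_levels D hok0
      set S0 := cl D p0 with hS0
      set Δ : ℝ := dist z (cgRep S0) with hΔdef
      obtain ⟨n, hn1, hn2⟩ := exists_mem_Ioc_zpow
        (show (0 : ℝ) < (2 : ℝ) ^ (l + 7) * (32 / 41 * Δ) by positivity) (one_lt_two (α := ℝ))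
      set k0 := cnt (cgX D Q S0) D.j (n + 1) / B with hk0
      have hsub : K ⊆ (({k0, k0 + 1} : Finset ℕ) ×ˢ (univ : Finset Bool)).image
            (fun x => (⟨S0, x.1, x.2⟩ : CgK l)) := by
        intro κ hκ
        obtain ⟨p, q, hp, hq, hz⟩ := hK κ hκ
        have hok := cg_ok D Q hQ hC B hp.1 hq.1 (hp.2.trans hq.2.symm) hz
        have hS : cl D p = S0 := ok_unique D hok hok0
        have hSq : cl D q = S0 := hok.hcl.symm.trans hS
        obtain ⟨⟨i, hi, hi2⟩, ⟨o, ho, ho2⟩, _⟩ := ok_levels D hok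
        rw [hS] at hi2 ho2
        have hchunk : ∀ r, (r = p ∨ r = q) → cnt (cgX D Q S0) D.j (D.j r) / B = κ.k := by
          intro r hr
          rcases hr with rfl | rfl
          · rw [← hp.2]
            unfold cgKey
            simp only
            rw [hS]
          · rw [← hq.2]
            unfold cgKey
            simp only
            rw [hSq]
        have hji : D.j i ≤ (n + 1) + 1 := by
          have h1 : (2 : ℝ) ^ (D.j i) < (2 : ℝ) ^ (n + 3) := by
            calc (2 : ℝ) ^ (D.j i) < (2 : ℝ) ^ (l + 8) * (50 / 49 * Δ) := hi2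
              _ ≤ 4 * ((2 : ℝ) ^ (l + 7) * (32 / 41 * Δ)) := by
                  have h2 : (2 : ℝ) ^ (l + 8) = 2 * (2 : ℝ) ^ (l + 7) := by
                    rw [show l + 8 = (l + 7) + 1 by ring, pow_succ]
                    ring
                  rw [h2]
                  have h3 : 0 < (2 : ℝ) ^ (l + 7) * Δ := by positivity
                  nlinarith
              _ ≤ 4 * (2 : ℝ) ^ (n + 1) := by linarith
              _ = (2 : ℝ) ^ (n + 3) := by
                  have h4 : (2 : ℝ) ^ (2 : ℤ) = 4 := by norm_num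
                  rw [show n + 3 = (n + 1) + 2 by ring, zpow_add₀ (by norm_num : (2 : ℝ) ≠ 0) (n + 1),
                    h4, mul_comm]
          have h2 := (zpow_lt_zpow_iff_right₀ (one_lt_two (α := ℝ))).1 h1
          omega
        have hjo : n + 1 ≤ D.j o := by
          have h1 : (2 : ℝ) ^ n < (2 : ℝ) ^ (D.j o) := lt_of_lt_of_le hn1 ho2
          have h2 := (zpow_lt_zpow_iff_right₀ (one_lt_two (α := ℝ))).1 h1
          omega
        have hk := chunk_two (cgX D Q S0) D.j B hB1 (hlev S0) (n + 1) κ.k i o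
          (hchunk i hi) (hchunk o ho) hji hjo
        have hκ1 : κ.S = S0 := by
          rw [← hp.2]
          exact hS
        rw [mem_image]
        refine ⟨(κ.k, κ.b), ?_, by rw [← hκ1]⟩
        rw [mem_product, mem_insert, mem_singleton]
        exact ⟨hk, mem_univ _⟩
      refine (card_le_card hsub).trans (card_image_le.trans ?_)
      rw [card_product, card_univ, Fintype.card_bool]
      have h1 : ({k0, k0 + 1} : Finset ℕ).card ≤ 2 := card_le_two
      omega
    refine claim _ ?_
    intro κ hκ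
    obtain ⟨_, p, hp, q, hq, hz⟩ := cg_mem_filter _ _ hκ
    exact ⟨p, q, cg_mem_filter _ _ hp, cg_mem_filter _ _ hq, hz⟩

end CFS
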