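import Pool.Agent.CFS.Defs

/-!
# Module CFS-Shift: one of the `M = 16 (l+1) + 1` shifts is good for at least half of the points

For every point at most `8 l` of the `M` shifts `a * 2^J0 / M` are bad (at most four for each
coordinate); then double counting.
-/

noncomputable section

namespace CFS

open Finset Classical

/-- the shift `a` is bad for the coordinate `x` -/
private def BadX (l : ℕ) (x : ℝ) (e : ℕ) (a : ℕ) : Prop :=
  ∃ y : ℝ, |y - x| ≤ 1 / (16 * ((l : ℝ) + 1)) ∧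
    ⌊y - (a : ℝ) * 2 ^ e / (16 * ((l : ℝ) + 1) + 1)⌋ ≠
      ⌊x - (a : ℝ) * 2 ^ e / (16 * ((l : ℝ) + 1) + 1)⌋

private theorem bad_int {x y δ : ℝ} (h : |y - x| ≤ δ) (hne : ⌊y⌋ ≠ ⌊x⌋) :
    ∃ N : ℤ, |x - N| ≤ δ := by
  rcases lt_or_gt_of_ne hne with h1 | h1
  · refine ⟨⌊x⌋, ?_⟩
    have h2 : y < (⌊x⌋ : ℝ) := Int.floor_lt.1 h1
    have h3 := Int.floor_le x
    have h4 := (abs_le.1 h).1
    rw [abs_le]
    constructor <;> linarith
  · refine ⟨⌊y⌋, ?_⟩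
    have h2 : x < (⌊y⌋ : ℝ) := Int.floor_lt.1 h1
    have h3 := Int.floor_le y
    have h4 := (abs_le.1 h).2
    rw [abs_le]
    constructor <;> linarith

private theorem bad_card (l : ℕ) (x : ℝ) (e : ℕ) :
    ((range (16 * (l + 1) + 1)).filter (BadX l x e)).card ≤ 4 := by
  have hl : (0 : ℝ) < (l : ℝ) + 1 := by positivity
  have hM : (0 : ℝ) < 16 * ((l : ℝ) + 1) + 1 := by positivity
  have hex : ∀ a : ℕ, BadX l x e a → ∃ N : ℤ,
      |x - (a : ℝ) * 2 ^ e / (16 * ((l : ℝ) + 1) + 1) - N| ≤ 1 / (16 * ((l : ℝ) + 1)) := by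
    rintro a ⟨y, hy, hne⟩
    exact bad_int (by rwa [sub_sub_sub_cancel_right]) hne
  choose! N hN using hex
  have hI : (Finset.Icc (⌊(16 * ((l : ℝ) + 1) + 1) * x⌋ - 1)
      (⌊(16 * ((l : ℝ) + 1) + 1) * x⌋ + 2)).card = 4 := by
    rw [Int.card_Icc]
    have : ⌊(16 * ((l : ℝ) + 1) + 1) * x⌋ + 2 + 1 - (⌊(16 * ((l : ℝ) + 1) + 1) * x⌋ - 1) = 4 := by
      ring
    rw [this]
    rfl
  rw [← hI]
  refine Finset.card_le_card_of_injOn
    (fun a : ℕ => (a : ℤ) * 2 ^ e + N a * ((16 * (l + 1) + 1 : ℕ) : ℤ)) ?_ ?_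
  · intro a ha
    have ha' := (mem_filter.1 (Finset.mem_coe.1 ha)).2
    have h1 := hN a ha'
    set v : ℤ := (a : ℤ) * 2 ^ e + N a * ((16 * (l + 1) + 1 : ℕ) : ℤ) with hv
    have hvr : (v : ℝ) = (a : ℝ) * 2 ^ e + (N a : ℝ) * (16 * ((l : ℝ) + 1) + 1) := by
      rw [hv]
      push_cast
      ring
    have h2 : (16 * ((l : ℝ) + 1) + 1) * x - v = (16 * ((l : ℝ) + 1) + 1) *
        (x - (a : ℝ) * 2 ^ e / (16 * ((l : ℝ) + 1) + 1) - N a) := by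
      rw [hvr]
      field_simp
      ring
    have h3 : |(16 * ((l : ℝ) + 1) + 1) * x - v| ≤ 17 / 16 := by
      rw [h2, abs_mul, abs_of_pos hM]
      calc (16 * ((l : ℝ) + 1) + 1) * |x - (a : ℝ) * 2 ^ e / (16 * ((l : ℝ) + 1) + 1) - N a|
          ≤ (16 * ((l : ℝ) + 1) + 1) * (1 / (16 * ((l : ℝ) + 1))) :=
            mul_le_mul_of_nonneg_left h1 hM.le
        _ ≤ 17 / 16 := by
            rw [mul_one_div, div_le_iff₀ (by positivity)]
            have : (0 : ℝ) ≤ (l : ℝ) := Nat.cast_nonneg l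
            nlinarith
    obtain ⟨h4, h5⟩ := abs_le.1 h3
    have h6 := Int.floor_le ((16 * ((l : ℝ) + 1) + 1) * x)
    have h7 := Int.lt_floor_add_one ((16 * ((l : ℝ) + 1) + 1) * x)
    rw [Finset.mem_coe, Finset.mem_Icc]
    constructor
    · have h8 : ((⌊(16 * ((l : ℝ) + 1) + 1) * x⌋ : ℤ) : ℝ) - 2 < (v : ℝ) := by linarith
      have h9 : ⌊(16 * ((l : ℝ) + 1) + 1) * x⌋ - 2 < v := by exact_mod_cast h8
      show ⌊(16 * ((l : ℝ) + 1) + 1) * x⌋ - 1 ≤ v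
      omega
    · have h8 : (v : ℝ) < ((⌊(16 * ((l : ℝ) + 1) + 1) * x⌋ : ℤ) : ℝ) + 3 := by linarith
      have h9 : v < ⌊(16 * ((l : ℝ) + 1) + 1) * x⌋ + 3 := by exact_mod_cast h8
      show v ≤ ⌊(16 * ((l : ℝ) + 1) + 1) * x⌋ + 2
      omega
  · intro a ha a' ha' heq
    have hr := mem_range.1 (mem_filter.1 (Finset.mem_coe.1 ha)).1
    have hr' := mem_range.1 (mem_filter.1 (Finset.mem_coe.1 ha')).1
    have heq' : (a : ℤ) * 2 ^ e + N a * ((16 * (l + 1) + 1 : ℕ) : ℤ) =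
      (a' : ℤ) * 2 ^ e + N a' * ((16 * (l + 1) + 1 : ℕ) : ℤ) := heq
    have hd : ((16 * (l + 1) + 1 : ℕ) : ℤ) ∣ ((a : ℤ) - a') * 2 ^ e :=
      ⟨N a' - N a, by linear_combination heq'⟩
    have hco : IsCoprime ((16 * (l + 1) + 1 : ℕ) : ℤ) ((2 : ℤ) ^ e) := by
      refine IsCoprime.pow_right ⟨1, -(8 * ((l : ℤ) + 1)), ?_⟩
      push_cast
      ring
    have hd2 := hco.dvd_of_dvd_mul_right hd
    have habs : |(a : ℤ) - a'| < ((16 * (l + 1) + 1 : ℕ) : ℤ) := by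
      rw [abs_lt]
      constructor <;> omega
    have h0 := Int.eq_zero_of_abs_lt_dvd hd2 habs
    omega

/-- the shift `u` is good for the point `p` -/
private def GoodS {l : ℕ} (j : W l → ℤ) (u : ℝ) (p : W l) : Prop :=
  ∀ z : W l, dist z p ≤ (2 : ℝ) ^ (j p) / (16 * (l + 1)) → idx u (j p) z = idx u (j p) p

private theorem bad_of_not_good {l : ℕ} (j : W l → ℤ) (J0 : ℤ) (p : W l) (e : ℕ)
    (he : J0 = j p + e) (a : ℕ)
    (h : ¬ GoodS j ((a : ℝ) * (2 : ℝ) ^ J0 / (16 * ((l : ℝ) + 1) + 1)) p) :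
    ∃ i : Fin l, BadX l (p.1 i / (2 : ℝ) ^ (j p)) e a ∨ BadX l (p.2 i / (2 : ℝ) ^ (j p)) e a := by
  have h2 : (0 : ℝ) < (2 : ℝ) ^ (j p) := by positivity
  have hl : (0 : ℝ) < 16 * ((l : ℝ) + 1) := by positivity
  have hJ : (2 : ℝ) ^ J0 = (2 : ℝ) ^ (j p) * 2 ^ e := by
    rw [he, zpow_add₀ two_ne_zero, zpow_natCast]
  have hsh : ∀ t : ℝ, (t - (a : ℝ) * (2 : ℝ) ^ J0 / (16 * ((l : ℝ) + 1) + 1)) / (2 : ℝ) ^ (j p) =
      t / (2 : ℝ) ^ (j p) - (a : ℝ) * 2 ^ e / (16 * ((l : ℝ) + 1) + 1) := by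
    intro t
    rw [hJ]
    field_simp
  have hds : ∀ s t : ℝ, dist s t ≤ (2 : ℝ) ^ (j p) / (16 * (l + 1)) →
      |s / (2 : ℝ) ^ (j p) - t / (2 : ℝ) ^ (j p)| ≤ 1 / (16 * ((l : ℝ) + 1)) := by
    intro s t hst
    rw [Real.dist_eq] at hst
    rw [← sub_div, abs_div, abs_of_pos h2, div_le_iff₀ h2]
    calc |s - t| ≤ (2 : ℝ) ^ (j p) / (16 * (l + 1)) := hst
      _ = 1 / (16 * ((l : ℝ) + 1)) * (2 : ℝ) ^ (j p) := by ring
  unfold GoodS at h
  push Not at h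
  obtain ⟨z, hz, hne⟩ := h
  by_contra hcon
  push Not at hcon
  apply hne
  have hz1 : dist z.1 p.1 ≤ (2 : ℝ) ^ (j p) / (16 * (l + 1)) := (le_max_left _ _).trans hz
  have hz2 : dist z.2 p.2 ≤ (2 : ℝ) ^ (j p) / (16 * (l + 1)) := (le_max_right _ _).trans hz
  apply Prod.ext
  · funext i
    show ⌊_⌋ = ⌊_⌋
    rw [hsh, hsh]
    by_contra hf
    exact (hcon i).1 ⟨z.1 i / (2 : ℝ) ^ (j p), hds _ _ ((dist_le_pi_dist _ _ i).trans hz1), hf⟩
  · funext i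
    show ⌊_⌋ = ⌊_⌋
    rw [hsh, hsh]
    by_contra hf
    exact (hcon i).2 ⟨z.2 i / (2 : ℝ) ^ (j p), hds _ _ ((dist_le_pi_dist _ _ i).trans hz2), hf⟩

private theorem good_card {l : ℕ} (j : W l → ℤ) (J0 : ℤ) (p : W l) (hJ : j p ≤ J0) :
    8 * l + 17 ≤ ((range (16 * (l + 1) + 1)).filter (fun a : ℕ =>
      GoodS j ((a : ℝ) * (2 : ℝ) ^ J0 / (16 * ((l : ℝ) + 1) + 1)) p)).card := by
  obtain ⟨e, he⟩ : ∃ e : ℕ, J0 = j p + e := ⟨(J0 - j p).toNat, by omega⟩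
  have hbad : ((range (16 * (l + 1) + 1)).filter (fun a : ℕ =>
      ¬ GoodS j ((a : ℝ) * (2 : ℝ) ^ J0 / (16 * ((l : ℝ) + 1) + 1)) p)).card ≤ 8 * l := by
    have hsub : (range (16 * (l + 1) + 1)).filter (fun a : ℕ =>
        ¬ GoodS j ((a : ℝ) * (2 : ℝ) ^ J0 / (16 * ((l : ℝ) + 1) + 1)) p) ⊆
        (Finset.univ : Finset (Fin l)).biUnion fun i =>
          ((range (16 * (l + 1) + 1)).filter (BadX l (p.1 i / (2 : ℝ) ^ (j p)) e)) ∪
          ((range (16 * (l + 1) + 1)).filter (BadX l (p.2 i / (2 : ℝ) ^ (j p)) e)) := by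
      intro a ha
      obtain ⟨ha1, ha2⟩ := mem_filter.1 ha
      obtain ⟨i, hi⟩ := bad_of_not_good j J0 p e he a ha2
      refine mem_biUnion.2 ⟨i, mem_univ i, ?_⟩
      rcases hi with hi | hi
      · exact mem_union_left _ (mem_filter.2 ⟨ha1, hi⟩)
      · exact mem_union_right _ (mem_filter.2 ⟨ha1, hi⟩)
    refine (card_le_card hsub).trans ?_
    have h8 : ∀ i ∈ (Finset.univ : Finset (Fin l)),
        (((range (16 * (l + 1) + 1)).filter (BadX l (p.1 i / (2 : ℝ) ^ (j p)) e)) ∪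
          ((range (16 * (l + 1) + 1)).filter (BadX l (p.2 i / (2 : ℝ) ^ (j p)) e))).card ≤ 8 := by
      intro i _
      refine (card_union_le _ _).trans ?_
      have h1 := bad_card l (p.1 i / (2 : ℝ) ^ (j p)) e
      have h2 := bad_card l (p.2 i / (2 : ℝ) ^ (j p)) e
      omega
    refine (card_biUnion_le_card_mul _ _ 8 h8).trans ?_
    rw [card_univ, Fintype.card_fin]
    omega
  have hsum := card_filter_add_card_filter_not (s := range (16 * (l + 1) + 1)) (fun a : ℕ =>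
      GoodS j ((a : ℝ) * (2 : ℝ) ^ J0 / (16 * ((l : ℝ) + 1) + 1)) p)
  rw [card_range] at hsum
  omega

theorem shift_exists {l : ℕ} (P : Finset (W l)) (j : W l → ℤ) :
    ∃ u : ℝ, P.card ≤ 2 * (P.filter (fun p => ∀ z : W l,
      dist z p ≤ (2 : ℝ) ^ (j p) / (16 * (l + 1)) → idx u (j p) z = idx u (j p) p)).card := by
  obtain ⟨J0, hJ0⟩ := (P.image j).exists_le
  have hJ : ∀ p ∈ P, j p ≤ J0 := fun p hp => hJ0 _ (mem_image_of_mem j hp)
  have hswap : ∑ a ∈ range (16 * (l + 1) + 1),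
      (P.filter (GoodS j ((a : ℝ) * (2 : ℝ) ^ J0 / (16 * ((l : ℝ) + 1) + 1)))).card =
      ∑ p ∈ P, ((range (16 * (l + 1) + 1)).filter (fun a : ℕ =>
        GoodS j ((a : ℝ) * (2 : ℝ) ^ J0 / (16 * ((l : ℝ) + 1) + 1)) p)).card := by
    simp only [card_filter]
    exact sum_comm
  have hlow : P.card * (8 * l + 17) ≤ ∑ a ∈ range (16 * (l + 1) + 1),
      (P.filter (GoodS j ((a : ℝ) * (2 : ℝ) ^ J0 / (16 * ((l : ℝ) + 1) + 1)))).card := by
    rw [hswap, ← smul_eq_mul]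
    exact card_nsmul_le_sum _ _ _ fun p hp => good_card j J0 p (hJ p hp)
  have hex : ∃ a ∈ range (16 * (l + 1) + 1), P.card ≤
      2 * (P.filter (GoodS j ((a : ℝ) * (2 : ℝ) ^ J0 / (16 * ((l : ℝ) + 1) + 1)))).card := by
    refine exists_le_of_sum_le ⟨0, mem_range.2 (by omega)⟩ ?_
    rw [← mul_sum, sum_const, card_range, smul_eq_mul]
    nlinarith
  obtain ⟨a, _, ha⟩ := hex
  exact ⟨_, ha⟩

end CFS
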