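import Pool.Agent.CFS.Defs

/-!
# Module CFS-Sites: choice of the sites (finite metric space, greedy smallest balls)

For `p ∈ P` let `R p` be the least real `r` among the numbers `dist q p` (`q ∈ P`) such that
`τ ≤ (P.filter (fun q => dist q p ≤ r)).card` (the set of such `r` is a finite set, nonempty since
the largest distance works because `τ ≤ P.card`).  Then for every real `r < R p` the ball has
`< τ` points: otherwise the largest `dist q p ≤ r` (`q ∈ P`) would be a smaller admissible radius
(if no `dist q p ≤ r` the ball is empty and `τ ≥ 1`).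
Put `B p = P.filter (fun q => dist q p ≤ R p)`, `τ ≤ (B p).card`.
Greedy lemma, by strong induction on `T.card`, for `T ⊆ P`: there is `S ⊆ T` such that the sets
`B c`, `c ∈ S`, are pairwise disjoint and for all `p ∈ T` there is `c ∈ S` with `R c ≤ R p` and
`¬ Disjoint (B p) (B c)` : take `p0 ∈ T` with minimal `R p0`, apply the induction hypothesis to
`T.filter (fun p => Disjoint (B p) (B p0))` (smaller: it does not contain `p0` as `B p0` is
nonempty) and add `p0`.
Apply it with `T = P`.  `S` is nonempty as `P` is (`1 ≤ τ ≤ P.card`); the `B c` are disjoint subsets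
of `P` with `≥ τ` elements so `S.card * τ ≤ P.card` (`Finset.card_biUnion`).  Given `p ∈ P` and `r`
with `2 r < dist p c` for all `c ∈ S`: take `c` with `R c ≤ R p` and `q ∈ B p ∩ B c`:
`dist p c ≤ dist q p + dist q c ≤ R p + R c ≤ 2 R p`, so `r < R p` and the ball of radius `r` has
`< τ` points.
-/

noncomputable section

namespace CFS

open Finset Classical

private theorem rad {X : Type*} [PseudoMetricSpace X] (P : Finset X) (τ : ℕ) (h1 : 1 ≤ τ)
    (h2 : τ ≤ P.card) (p : X) :
    ∃ R : ℝ, τ ≤ (P.filter (fun q => dist q p ≤ R)).card ∧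
      ∀ r : ℝ, r < R → (P.filter (fun q => dist q p ≤ r)).card < τ := by
  have hP : P.Nonempty := Finset.card_pos.1 (by omega)
  obtain ⟨m, hm, hmax⟩ := Finset.exists_max_image P (fun q => dist q p) hP
  have hne : (P.filter (fun q => τ ≤ (P.filter (fun q' => dist q' p ≤ dist q p)).card)).Nonempty := by
    refine ⟨m, Finset.mem_filter.2 ⟨hm, ?_⟩⟩
    rw [Finset.filter_true_of_mem hmax]
    exact h2
  obtain ⟨q0, hq0, hmin⟩ := Finset.exists_min_image _ (fun q => dist q p) hne
  refine ⟨dist q0 p, (Finset.mem_filter.1 hq0).2, ?_⟩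
  intro r hr
  by_contra hcon
  push Not at hcon
  have hbn : (P.filter (fun q => dist q p ≤ r)).Nonempty := Finset.card_pos.1 (by omega)
  obtain ⟨q1, hq1, hq1max⟩ := Finset.exists_max_image _ (fun q => dist q p) hbn
  obtain ⟨hq1P, hq1r⟩ := Finset.mem_filter.1 hq1
  have hsub : P.filter (fun q => dist q p ≤ r) ⊆ P.filter (fun q => dist q p ≤ dist q1 p) := by
    intro q hq
    exact Finset.mem_filter.2 ⟨(Finset.mem_filter.1 hq).1, hq1max q hq⟩
  have h3 := hmin q1 (Finset.mem_filter.2 ⟨hq1P, le_trans hcon (Finset.card_le_card hsub)⟩)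
  exact absurd (lt_of_le_of_lt hq1r hr) (not_lt.2 h3)

private theorem greedy {X : Type*} (R : X → ℝ) (B : X → Finset X) (T : Finset X)
    (hB : ∀ p ∈ T, (B p).Nonempty) :
    ∃ S : Finset X, S ⊆ T ∧ (∀ c ∈ S, ∀ c' ∈ S, c ≠ c' → Disjoint (B c) (B c')) ∧
      ∀ p ∈ T, ∃ c ∈ S, R c ≤ R p ∧ ¬ Disjoint (B p) (B c) := by
  induction T using Finset.strongInduction with
  | H T ih =>
    by_cases hT : T.Nonempty
    · obtain ⟨p0, hp0, hmin⟩ := Finset.exists_min_image T R hT
      have hss : T.filter (fun p => Disjoint (B p) (B p0)) ⊂ T := by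
        refine Finset.filter_ssubset.2 ⟨p0, hp0, ?_⟩
        intro h
        have h4 := Finset.disjoint_self_iff_empty (B p0) |>.1 h
        exact (hB p0 hp0).ne_empty h4
      obtain ⟨S, hST, hS1, hS2⟩ := ih _ hss (fun p hp => hB p (Finset.mem_filter.1 hp).1)
      refine ⟨insert p0 S, ?_, ?_, ?_⟩
      · intro c hc
        rcases Finset.mem_insert.1 hc with rfl | hc
        · exact hp0
        · exact (Finset.mem_filter.1 (hST hc)).1
      · intro c hc c' hc' hne
        rcases Finset.mem_insert.1 hc with e1 | e1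
        · rcases Finset.mem_insert.1 hc' with e2 | e2
          · exact absurd (e1.trans e2.symm) hne
          · rw [e1]
            exact (Finset.mem_filter.1 (hST e2)).2.symm
        · rcases Finset.mem_insert.1 hc' with e2 | e2
          · rw [e2]
            exact (Finset.mem_filter.1 (hST e1)).2
          · exact hS1 c e1 c' e2 hne
      · intro p hp
        by_cases hd : Disjoint (B p) (B p0)
        · obtain ⟨c, hc, h3, h4⟩ := hS2 p (Finset.mem_filter.2 ⟨hp, hd⟩)
          exact ⟨c, Finset.mem_insert_of_mem hc, h3, h4⟩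
        · exact ⟨p0, Finset.mem_insert_self _ _, hmin p hp, hd⟩
    · rw [Finset.not_nonempty_iff_eq_empty] at hT
      subst hT
      exact ⟨∅, Finset.Subset.refl _, by simp, by simp⟩

theorem sites {X : Type*} [PseudoMetricSpace X] (P : Finset X) (τ : ℕ) (h1 : 1 ≤ τ)
    (h2 : τ ≤ P.card) :
    ∃ S : Finset X, S ⊆ P ∧ S.Nonempty ∧ S.card * τ ≤ P.card ∧
      ∀ p ∈ P, ∀ r : ℝ, (∀ c ∈ S, 2 * r < dist p c) →
        (P.filter (fun q => dist q p ≤ r)).card < τ := by
  have hP : P.Nonempty := Finset.card_pos.1 (by omega)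
  choose R hR1 hR2 using fun p => rad P τ h1 h2 p
  have hBne : ∀ p ∈ P, (P.filter (fun q => dist q p ≤ R p)).Nonempty := by
    intro p _
    exact Finset.card_pos.1 (lt_of_lt_of_le h1 (hR1 p))
  obtain ⟨S, hSP, hS1, hS2⟩ := greedy R (fun p => P.filter (fun q => dist q p ≤ R p)) P hBne
  refine ⟨S, hSP, ?_, ?_, ?_⟩
  · obtain ⟨p, hp⟩ := hP
    obtain ⟨c, hc, -⟩ := hS2 p hp
    exact ⟨c, hc⟩
  · have h3 : (S.biUnion (fun p => P.filter (fun q => dist q p ≤ R p))).card =
        ∑ p ∈ S, (P.filter (fun q => dist q p ≤ R p)).card :=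
      Finset.card_biUnion fun c hc c' hc' hne => hS1 c hc c' hc' hne
    have h4 : S.biUnion (fun p => P.filter (fun q => dist q p ≤ R p)) ⊆ P :=
      Finset.biUnion_subset.2 fun p _ => Finset.filter_subset _ _
    have h5 := Finset.card_le_card h4
    have h6 : ∑ _p ∈ S, τ ≤ ∑ p ∈ S, (P.filter (fun q => dist q p ≤ R p)).card :=
      Finset.sum_le_sum fun p _ => hR1 p
    rw [Finset.sum_const, smul_eq_mul] at h6
    omega
  · intro p hp r hr
    obtain ⟨c, hc, hRc, hnd⟩ := hS2 p hp
    rw [Finset.not_disjoint_iff] at hnd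
    obtain ⟨q, hq1, hq2⟩ := hnd
    have hq1' : dist q p ≤ R p := (Finset.mem_filter.1 hq1).2
    have hq2' : dist q c ≤ R c := (Finset.mem_filter.1 hq2).2
    refine hR2 p r ?_
    have h7 : dist p c ≤ dist q p + dist q c := by
      rw [dist_comm q p]
      exact dist_triangle _ _ _
    have h8 := hr c hc
    linarith

end CFS
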