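import Pool.Agent.CFS.Nc
import Pool.Agent.CFS.ConcG
import Pool.Agent.CFS.Sites
import Pool.Agent.CFS.Shift

/-!
# Module CFS-Cells: the cell theorem
-/

noncomputable section

namespace CFS

open Finset Classical

/-- the data of the cell construction -/
private theorem exists_data {l : ℕ} (P : Finset (W l)) (τ : ℕ) (h2 : 2 ≤ τ) (hτP : τ ≤ P.card) :
    ∃ D : Data l, D.τ = τ ∧ D.P ⊆ P ∧ P.card ≤ 4 * D.P.card ∧ D.S.card * τ ≤ P.card := by
  obtain ⟨S, hSP, hSn, hSτ, hsp⟩ := sites P τ (by omega) hτP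
  have hd : ∃ d : W l → ℝ, (∀ z, ∀ c ∈ S, d z ≤ dist z c) ∧ ∀ z, ∃ c ∈ S, dist z c = d z := by
    refine ⟨fun z => S.inf' hSn (fun c => dist z c), fun z c hc => Finset.inf'_le _ hc,
      fun z => ?_⟩
    obtain ⟨c, hc, he⟩ := Finset.exists_mem_eq_inf' hSn (fun c => dist z c)
    exact ⟨c, hc, he.symm⟩
  obtain ⟨d, dle, dex⟩ := hd
  have dpos : ∀ p ∈ P \ S, 0 < d p := by
    intro p hp
    obtain ⟨c, hc, he⟩ := dex p
    rw [← he]
    refine dist_pos.2 ?_
    rintro rfl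
    exact (Finset.mem_sdiff.1 hp).2 hc
  have hj : ∃ j : W l → ℤ, ∀ p ∈ P \ S, (2 : ℝ) ^ (l + 7) * d p ≤ (2 : ℝ) ^ (j p) ∧
      (2 : ℝ) ^ (j p) < (2 : ℝ) ^ (l + 8) * d p := by
    refine ⟨fun p => Int.clog 2 ((2 : ℝ) ^ (l + 7) * d p), fun p hp => ?_⟩
    have h0 : 0 < (2 : ℝ) ^ (l + 7) * d p := mul_pos (by positivity) (dpos p hp)
    have h1 := Int.self_le_zpow_clog (b := 2) (by norm_num) ((2 : ℝ) ^ (l + 7) * d p)
    have h3 := Int.zpow_pred_clog_lt_self (b := 2) (by norm_num) h0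
    push_cast at h1 h3
    refine ⟨h1, ?_⟩
    rw [zpow_sub_one₀ (by norm_num)] at h3
    have h4 : (2 : ℝ) ^ (l + 8) = 2 * 2 ^ (l + 7) := by
      rw [show l + 8 = (l + 7) + 1 by omega, pow_succ]
      ring
    rw [h4]
    linarith
  obtain ⟨j, hj⟩ := hj
  obtain ⟨u, hu⟩ := shift_exists (P \ S) j
  have hcard1 : P.card ≤ 2 * (P \ S).card := by
    have h3 := Finset.card_sdiff_add_card_eq_card hSP
    have h4 : S.card * 2 ≤ S.card * τ := Nat.mul_le_mul_left _ h2
    omega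
  refine ⟨{ P := (P \ S).filter (fun p => ∀ z : W l,
              dist z p ≤ (2 : ℝ) ^ (j p) / (16 * (l + 1)) → idx u (j p) z = idx u (j p) p)
            S := S, u := u, τ := τ, j := j, d := d, hS := hSn, hτ := by omega
            dpos := fun p hp => dpos p (Finset.mem_filter.1 hp).1
            dle := dle
            dex := dex
            jlo := fun p hp => (hj p (Finset.mem_filter.1 hp).1).1
            jhi := fun p hp => (hj p (Finset.mem_filter.1 hp).1).2
            good := ?_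
            sparse := ?_ }, rfl, ?_, ?_, hSτ⟩
  · intro p hp z hz
    obtain ⟨hp1, hp2⟩ := Finset.mem_filter.1 hp
    refine hp2 z (hz.trans ?_)
    have h3 := (hj p hp1).1
    have h4 := dpos p hp1
    have h5 : ((l : ℝ) + 1) ≤ 2 ^ l := by
      have h6 : l + 1 ≤ 2 ^ l := Nat.lt_two_pow_self
      exact_mod_cast h6
    rw [le_div_iff₀ (by positivity)]
    calc 8 * d p * (16 * ((l : ℝ) + 1)) = (2 ^ 7 * d p) * ((l : ℝ) + 1) := by ring
      _ ≤ (2 ^ 7 * d p) * 2 ^ l := mul_le_mul_of_nonneg_left h5 (by positivity)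
      _ = 2 ^ (l + 7) * d p := by rw [pow_add]; ring
      _ ≤ (2 : ℝ) ^ (j p) := h3
  · intro p hp
    have hp1 := (Finset.mem_filter.1 hp).1
    have h4 := dpos p hp1
    have h5 := hsp p (Finset.mem_sdiff.1 hp1).1 (d p / 16) (fun c hc => by
      have := dle p c hc
      linarith)
    refine lt_of_le_of_lt (Finset.card_le_card ?_) h5
    intro q hq
    rw [Finset.mem_filter] at hq ⊢
    exact ⟨(Finset.mem_sdiff.1 (Finset.mem_filter.1 hq.1).1).1, hq.2⟩
  · intro p hp
    exact (Finset.mem_sdiff.1 (Finset.mem_filter.1 hp).1).1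
  · dsimp only
    omega

theorem cells (l : ℕ) : ∃ C : ℕ, 1 ≤ C ∧ ∀ (P : Finset (W l)) (τ : ℕ), 2 ≤ τ → τ ≤ P.card →
    ∃ G0 : Finset (Finset (W l)),
      (∀ G ∈ G0, G ⊆ P) ∧ (∀ G ∈ G0, G.card ≤ C * τ) ∧ G0.card * τ ≤ C * P.card ∧
      P.card ≤ C * ∑ G ∈ G0, G.card ∧
      ∀ z : W l, (G0.filter (fun G => ∃ p ∈ G, ∃ q ∈ G, Cr p q z)).card ≤ C := by
  obtain ⟨C1, hC1⟩ := nc_groups l
  obtain ⟨C2, hC2⟩ := conc_groups l
  refine ⟨C1 + 2 * C2 + 4, by omega, fun P τ h2 hτP => ?_⟩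
  obtain ⟨D, rfl, hDP, hcard, hSτ⟩ := exists_data P τ h2 hτP
  obtain ⟨A, hA1, hA2, hA3, hA4, hA5⟩ := hC1 D (D.P.filter (fun p => ¬ Conc D p))
    (Finset.filter_subset _ _) (fun p hp => (Finset.mem_filter.1 hp).2)
  obtain ⟨B, hB1, hB2, hB3, hB4, hB5⟩ := hC2 D (D.P.filter (fun p => Conc D p))
    (Finset.filter_subset _ _) (fun p hp => (Finset.mem_filter.1 hp).2)
  have hPD : D.P.card ≤ P.card := Finset.card_le_card hDP
  refine ⟨A ∪ B, ?_, ?_, ?_, ?_, ?_⟩
  · intro G hG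
    rcases Finset.mem_union.1 hG with h | h
    · exact ((hA1 G h).trans (Finset.filter_subset _ _)).trans hDP
    · exact ((hB1 G h).trans (Finset.filter_subset _ _)).trans hDP
  · intro G hG
    rcases Finset.mem_union.1 hG with h | h
    · exact (hA2 G h).trans (Nat.mul_le_mul_right _ (by omega))
    · exact (hB2 G h).trans (Nat.mul_le_mul_right _ (by omega))
  · have hQ : (D.P.filter (fun p => Conc D p)).card ≤ P.card :=
      (Finset.card_filter_le _ _).trans hPD
    calc (A ∪ B).card * D.τ ≤ (A.card + B.card) * D.τ :=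
          Nat.mul_le_mul_right _ (Finset.card_union_le _ _)
      _ = A.card * D.τ + B.card * D.τ := by ring
      _ ≤ (C1 * D.S.card) * D.τ +
          C2 * ((D.P.filter (fun p => Conc D p)).card + D.S.card * D.τ) :=
          add_le_add (Nat.mul_le_mul_right _ hA3) hB3
      _ = C1 * (D.S.card * D.τ) +
          C2 * ((D.P.filter (fun p => Conc D p)).card + D.S.card * D.τ) := by ring
      _ ≤ C1 * P.card + C2 * (P.card + P.card) :=
          add_le_add (Nat.mul_le_mul_left _ hSτ) (Nat.mul_le_mul_left _ (add_le_add hQ hSτ))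
      _ = (C1 + 2 * C2) * P.card := by ring
      _ ≤ (C1 + 2 * C2 + 4) * P.card := Nat.mul_le_mul_right _ (by omega)
  · have hsplit : D.P.card = (D.P.filter (fun p => Conc D p)).card +
        (D.P.filter (fun p => ¬ Conc D p)).card :=
      (Finset.card_filter_add_card_filter_not (s := D.P) (fun p => Conc D p)).symm
    have hint : ∑ G ∈ A ∩ B, G.card = 0 := by
      apply Finset.sum_eq_zero
      intro G hG
      obtain ⟨hGA, hGB⟩ := Finset.mem_inter.1 hG
      rw [Finset.card_eq_zero, Finset.eq_empty_iff_forall_notMem]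
      intro p hp
      exact (Finset.mem_filter.1 (hA1 G hGA hp)).2 (Finset.mem_filter.1 (hB1 G hGB hp)).2
    have hsum := Finset.sum_union_inter (s₁ := A) (s₂ := B) (f := fun G => G.card)
    rw [hint, add_zero, ← hA4, ← hB4] at hsum
    calc P.card ≤ 4 * D.P.card := hcard
      _ = 4 * ∑ G ∈ A ∪ B, G.card := by rw [hsum, hsplit, add_comm]
      _ ≤ (C1 + 2 * C2 + 4) * ∑ G ∈ A ∪ B, G.card := Nat.mul_le_mul_right _ (by omega)
  · intro z
    rw [Finset.filter_union]
    calc _ ≤ _ := Finset.card_union_le _ _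
      _ ≤ C1 + C2 := add_le_add (hA5 z) (hB5 z)
      _ ≤ C1 + 2 * C2 + 4 := by omega

end CFS
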