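import Mathlib

/-!
# Module CFS-Lam: a laminar family of nonempty subsets of `X` has at most `2 |X|` members

Induction on `X`: removing a point `x` from all members other than `{x}` creates at most one collision.
-/

namespace CFS

open Finset Classical

/-- two members without `x` whose extensions by `x` are members are equal -/
private theorem lam_unique {α : Type*} {L : Finset (Finset α)} {x : α}
    (hne : ∀ S ∈ L, S.Nonempty)
    (hlam : ∀ S ∈ L, ∀ T ∈ L, S ⊆ T ∨ T ⊆ S ∨ Disjoint S T) {T1 T2 : Finset α}
    (h1 : T1 ∈ L) (h2 : T2 ∈ L) (hx2 : x ∉ T2)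
    (h1' : insert x T1 ∈ L) (hsub : T1 ⊆ T2) : T1 = T2 := by
  apply Subset.antisymm hsub
  rcases hlam _ h1' _ h2 with h | h | h
  · exact absurd (h (mem_insert_self x T1)) hx2
  · intro y hy
    rcases mem_insert.1 (h hy) with rfl | h3
    · exact absurd hy hx2
    · exact h3
  · obtain ⟨y, hy⟩ := hne _ h1
    exact absurd (hsub hy) (Finset.disjoint_left.1 h (mem_insert_of_mem hy))

theorem laminar_card {α : Type*} (X : Finset α) (L : Finset (Finset α))
    (hsub : ∀ S ∈ L, S ⊆ X) (hne : ∀ S ∈ L, S.Nonempty)
    (hlam : ∀ S ∈ L, ∀ T ∈ L, S ⊆ T ∨ T ⊆ S ∨ Disjoint S T) :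
    L.card ≤ 2 * X.card := by
  revert L
  induction X using Finset.induction_on with
  | empty =>
    intro L hsub hne _
    have h : L = ∅ := by
      apply Finset.eq_empty_of_forall_notMem
      intro S hS
      obtain ⟨y, hy⟩ := hne S hS
      exact absurd (hsub S hS hy) (Finset.notMem_empty y)
    rw [h]
    simp
  | insert x Y hxY ih =>
    intro L hsub hne hlam
    obtain ⟨M, hM⟩ : ∃ M, M = L.erase {x} := ⟨_, rfl⟩
    obtain ⟨D, hD⟩ : ∃ D, D = M.filter (fun T => x ∉ T ∧ insert x T ∈ L) := ⟨_, rfl⟩
    have hML : ∀ T ∈ M, T ∈ L := by
      intro T hT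
      rw [hM] at hT
      exact mem_of_mem_erase hT
    have hM1 : ∀ T ∈ M, T ≠ {x} := by
      intro T hT
      rw [hM] at hT
      exact ne_of_mem_erase hT
    have hDc : D.card ≤ 1 := by
      rw [Finset.card_le_one]
      intro T1 hT1 T2 hT2
      rw [hD, mem_filter] at hT1 hT2
      obtain ⟨a1, a2, a3⟩ := hT1
      obtain ⟨b1, b2, b3⟩ := hT2
      have key : T1 ⊆ T2 ∨ T2 ⊆ T1 := by
        rcases hlam _ a3 _ b3 with h | h | h
        · left
          intro y hy
          rcases mem_insert.1 (h (mem_insert_of_mem hy)) with rfl | h3
          · exact absurd hy a2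
          · exact h3
        · right
          intro y hy
          rcases mem_insert.1 (h (mem_insert_of_mem hy)) with rfl | h3
          · exact absurd hy b2
          · exact h3
        · exact absurd (mem_insert_self x T2) (Finset.disjoint_left.1 h (mem_insert_self x T1))
      rcases key with h | h
      · exact lam_unique hne hlam (hML _ a1) (hML _ b1) b2 a3 h
      · exact (lam_unique hne hlam (hML _ b1) (hML _ a1) a2 b3 h).symm
    obtain ⟨L', hL'⟩ : ∃ L', L' = M.image (fun T => T.erase x) := ⟨_, rfl⟩
    have hL'c : L'.card ≤ 2 * Y.card := by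
      apply ih
      · intro S hS
        rw [hL', mem_image] at hS
        obtain ⟨T, hT, rfl⟩ := hS
        intro y hy
        rw [mem_erase] at hy
        rcases mem_insert.1 (hsub T (hML T hT) hy.2) with h | h
        · exact absurd h hy.1
        · exact h
      · intro S hS
        rw [hL', mem_image] at hS
        obtain ⟨T, hT, rfl⟩ := hS
        rw [Finset.nonempty_iff_ne_empty]
        intro h
        rw [Finset.erase_eq_empty_iff] at h
        rcases h with h | h
        · exact absurd h (hne T (hML T hT)).ne_empty
        · exact hM1 T hT h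
      · intro S hS T hT
        rw [hL', mem_image] at hS hT
        obtain ⟨S', hS', rfl⟩ := hS
        obtain ⟨T', hT', rfl⟩ := hT
        rcases hlam _ (hML _ hS') _ (hML _ hT') with h | h | h
        · exact Or.inl (Finset.erase_subset_erase x h)
        · exact Or.inr (Or.inl (Finset.erase_subset_erase x h))
        · exact Or.inr (Or.inr (Finset.disjoint_of_subset_left (Finset.erase_subset x S')
            (Finset.disjoint_of_subset_right (Finset.erase_subset x T') h)))
    have hinj : (M \ D).card ≤ L'.card := by
      apply Finset.card_le_card_of_injOn (fun T => T.erase x)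
      · intro T hT
        have hT' : T ∈ M := (Finset.mem_sdiff.1 (Finset.mem_coe.1 hT)).1
        rw [hL']
        exact Finset.mem_coe.2 (mem_image_of_mem _ hT')
      · intro T hT T' hT' h
        have hT1 := Finset.mem_sdiff.1 (Finset.mem_coe.1 hT)
        have hT2 := Finset.mem_sdiff.1 (Finset.mem_coe.1 hT')
        have h' : T.erase x = T'.erase x := h
        by_cases hx1 : x ∈ T
        · by_cases hx2 : x ∈ T'
          · rw [← Finset.insert_erase hx1, ← Finset.insert_erase hx2, h']
          · exfalso
            apply hT2.2
            rw [hD, mem_filter]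
            refine ⟨hT2.1, hx2, ?_⟩
            rw [Finset.erase_eq_of_notMem hx2] at h'
            rw [← h', Finset.insert_erase hx1]
            exact hML _ hT1.1
        · by_cases hx2 : x ∈ T'
          · exfalso
            apply hT1.2
            rw [hD, mem_filter]
            refine ⟨hT1.1, hx1, ?_⟩
            rw [Finset.erase_eq_of_notMem hx1] at h'
            rw [h', Finset.insert_erase hx2]
            exact hML _ hT2.1
          · rw [Finset.erase_eq_of_notMem hx1, Finset.erase_eq_of_notMem hx2] at h'
            exact h'
    have hDM : D ⊆ M := by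
      rw [hD]
      exact filter_subset _ _
    have h1 : (M \ D).card + D.card = M.card := Finset.card_sdiff_add_card_eq_card hDM
    have h2 : L.card - 1 ≤ M.card := by
      rw [hM]
      exact Finset.pred_card_le_card_erase
    rw [Finset.card_insert_of_notMem hxY]
    omega

end CFS
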