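import Pool.Agent.CFS.Idx
import Pool.Agent.CFS.Lam

/-!
# Module CFS-Cls: the clusters `cl D p`

Plan.
* `cl_mem`: the nearest site `c` of `p` (`D.dex p`: `dist p c = d p`) satisfies
  `dist c p = d p ≤ 8 d p`, so `D.good` gives `idx u (j p) c = idx u (j p) p`.
* `cl_laminar_card`: the family `L = P.image (cl D)` is laminar: for `p, q ∈ P`, say `j p ≤ j q`.
  If `cl D p` and `cl D q` have a common site `c` then
  `idx (j q) p = idx (j q) c = idx (j q) q` (`idx_mono` on `idx (j p) c = idx (j p) p`), so every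
  `c' ∈ cl D p` has `idx (j q) c' = idx (j q) p = idx (j q) q`, i.e. `cl D p ⊆ cl D q`.
  Members are nonempty (`cl_mem`) subsets of `D.S`.  Apply `laminar_card`.
* `cl_sub`: the same computation (from one common point `z` of the two cubes, not necessarily a
  site).
-/

noncomputable section

namespace CFS

open Finset Classical

theorem cl_mem {l : ℕ} (D : Data l) {p : W l} (hp : p ∈ D.P) :
    ∃ c ∈ cl D p, dist p c = D.d p := by
  obtain ⟨c, hc, hd⟩ := D.dex p
  refine ⟨c, ?_, hd⟩
  unfold cl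
  rw [Finset.mem_filter]
  refine ⟨hc, D.good p hp c ?_⟩
  have h1 := D.dpos p hp
  rw [dist_comm, hd]
  linarith

theorem cl_sub {l : ℕ} (D : Data l) {p q z : W l} (hj : D.j p ≤ D.j q)
    (hz : idx D.u (D.j p) z = idx D.u (D.j p) p) (hz' : idx D.u (D.j q) z = idx D.u (D.j q) q) :
    cl D p ⊆ cl D q := by
  intro c hc
  unfold cl at hc ⊢
  rw [Finset.mem_filter] at hc ⊢
  exact ⟨hc.1, (idx_mono hj (hc.2.trans hz.symm)).trans hz'⟩

private theorem cl_lam {l : ℕ} (D : Data l) {p q : W l} (hj : D.j p ≤ D.j q) :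
    cl D p ⊆ cl D q ∨ Disjoint (cl D p) (cl D q) := by
  by_cases h : Disjoint (cl D p) (cl D q)
  · exact Or.inr h
  · left
    rw [Finset.not_disjoint_iff] at h
    obtain ⟨c, hc, hc'⟩ := h
    unfold cl at hc hc'
    rw [Finset.mem_filter] at hc hc'
    exact cl_sub D hj hc.2 hc'.2

theorem cl_laminar_card {l : ℕ} (D : Data l) :
    (D.P.image (cl D)).card ≤ 2 * D.S.card := by
  refine laminar_card D.S _ ?_ ?_ ?_
  · intro T hT
    obtain ⟨p, _, rfl⟩ := Finset.mem_image.1 hT
    exact Finset.filter_subset _ _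
  · intro T hT
    obtain ⟨p, hp, rfl⟩ := Finset.mem_image.1 hT
    obtain ⟨c, hc, _⟩ := cl_mem D hp
    exact ⟨c, hc⟩
  · intro T hT T' hT'
    obtain ⟨p, _, rfl⟩ := Finset.mem_image.1 hT
    obtain ⟨q, _, rfl⟩ := Finset.mem_image.1 hT'
    rcases le_total (D.j p) (D.j q) with h | h
    · rcases cl_lam D h with h1 | h1
      · exact Or.inl h1
      · exact Or.inr (Or.inr h1)
    · rcases cl_lam D h with h1 | h1
      · exact Or.inr (Or.inl h1)
      · exact Or.inr (Or.inr h1.symm)

end CFS
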