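import Pool.Agent.CFS.Cls
import Pool.Agent.CFS.Cross

/-!
# Module CFS-ConcA: concentrated points and crossings; the cluster is determined by the crossing

`CrossOK D p q c z`: `p q` are concentrated points of `P` with the same cluster, `c` is a site of
this cluster, `p q` are of the same type with respect to `c` (both horizontal:
`dist p.2 c.2 ≤ dist p.1 c.1`, or both vertical) and `Cr p q z`.

Plan.
* `conc_dist`: `d p ≤ dist p c` is `D.dle`; with `c0 ∈ cl D p`, `dist p c0 = d p` (`cl_mem`),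
  `dist p c ≤ d p + dist c0 c ≤ (5/4) d p`.
* `ok_outer`: let `o` be the one of `p, q` with the larger `dist · c`; `dist z c ≤ (41/40) dist o c`
  by `cr_up`; `dist z o ≤ dist z c + dist o c ≤ (81/40) dist o c ≤ (81/40)(5/4) d o ≤ 8 d o` so
  `D.good` gives the index statement.
* `ok_inner`: type horizontal: `i = q`, `cr_lowH`; type vertical: `i = p`, `cr_lowV`
  (if not (dist ≤) use the type given in `CrossOK`).
* `ok_unique`: let `o, o'` be the outer points for the two configurations.  By symmetry assume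
  `j o ≤ j o'` (prove a one-sided lemma first: under `j o ≤ j o'`, `cl D p = cl D p'`).  By `cl_sub`
  `cl D o ⊆ cl D o'`.  Suppose they are different, `c'' ∈ cl D o' \ cl D o`.  Then the index of `c''` at
  level `j o` is not that of `o` (`c''` is a site), so by `D.good` `dist c'' o > 8 d o`.  As
  `dist o c ≤ (5/4) d o`, `dist c c'' ≥ (27/4) d o`.  Let `i'` be the inner point of the second
  configuration (`ok_inner`).  `c, c'', c'` are in `cl D o' = cl D i'` and `i'` is concentrated, so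
  `dist c c'' ≤ d i' / 4` and `dist c c' ≤ d i' / 4`: `27 d o ≤ d i'`.  Then
  `(49/50) d i' ≤ (49/50) dist i' c' ≤ dist z c' ≤ dist z c + dist c c' ≤ (41/40)(5/4) d o + d i'/4
  ≤ (41/32) d i' / 27 + d i' / 4 < (1/2) d i'`, a contradiction as `d i' > 0`.
* `ok_levels`: `D.jhi`, `D.jlo` with `Δ = dist z c`: inner point:
  `2^(j i) < 2^(l+8) d i ≤ 2^(l+8) dist i c ≤ 2^(l+8) (50/49) Δ`; outer point:
  `2^(j o) ≥ 2^(l+7) d o ≥ 2^(l+7) (4/5) dist o c ≥ 2^(l+7) (4/5)(40/41) Δ = 2^(l+7) (32/41) Δ`.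
-/

noncomputable section

namespace CFS

open Finset Classical

/-- same type with respect to `c`: both horizontal or both vertical -/
def SameType {l : ℕ} (p q c : W l) : Prop :=
  (dist p.2 c.2 ≤ dist p.1 c.1 ∧ dist q.2 c.2 ≤ dist q.1 c.1) ∨
  (dist p.1 c.1 < dist p.2 c.2 ∧ dist q.1 c.1 < dist q.2 c.2)

structure CrossOK {l : ℕ} (D : Data l) (p q c z : W l) : Prop where
  hp : p ∈ D.P
  hq : q ∈ D.P
  cp : Conc D p
  cq : Conc D q
  hcl : cl D p = cl D q
  hc : c ∈ cl D p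
  ht : SameType p q c
  hz : Cr p q z

theorem conc_dist {l : ℕ} (D : Data l) {p c : W l} (hp : p ∈ D.P) (h : Conc D p)
    (hc : c ∈ cl D p) : D.d p ≤ dist p c ∧ dist p c ≤ 5 / 4 * D.d p := by
  have hcS : c ∈ D.S := (Finset.mem_filter.1 hc).1
  obtain ⟨c0, hc0, h0⟩ := cl_mem D hp
  have h1 := h c0 hc0 c hc
  have h2 := dist_triangle p c0 c
  refine ⟨D.dle p c hcS, ?_⟩
  linarith

private theorem pt_facts {l : ℕ} (D : Data l) {p q c z : W l} (h : CrossOK D p q c z) {o : W l}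
    (ho : o = p ∨ o = q) : o ∈ D.P ∧ Conc D o ∧ cl D o = cl D p := by
  rcases ho with rfl | rfl
  · exact ⟨h.hp, h.cp, rfl⟩
  · exact ⟨h.hq, h.cq, h.hcl.symm⟩

theorem ok_outer {l : ℕ} (D : Data l) {p q c z : W l} (h : CrossOK D p q c z) :
    ∃ o, (o = p ∨ o = q) ∧ dist z c ≤ 41 / 40 * dist o c ∧
      idx D.u (D.j o) z = idx D.u (D.j o) o := by
  have key : ∀ o, (o = p ∨ o = q) → dist z c ≤ 41 / 40 * dist o c →
      ∃ o, (o = p ∨ o = q) ∧ dist z c ≤ 41 / 40 * dist o c ∧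
      idx D.u (D.j o) z = idx D.u (D.j o) o := by
    intro o ho h1
    obtain ⟨h2, h3, h4⟩ := pt_facts D h ho
    have hc : c ∈ cl D o := by
      rw [h4]
      exact h.hc
    obtain ⟨h5, h6⟩ := conc_dist D h2 h3 hc
    refine ⟨o, ho, h1, D.good o h2 z ?_⟩
    have h7 := dist_triangle z c o
    rw [dist_comm c o] at h7
    have h8 := D.dpos o h2
    linarith
  have h1 := cr_up (c := c) h.hz
  rcases le_total (dist p c) (dist q c) with h2 | h2
  · rw [max_eq_right h2] at h1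
    exact key q (Or.inr rfl) h1
  · rw [max_eq_left h2] at h1
    exact key p (Or.inl rfl) h1

theorem ok_inner {l : ℕ} (D : Data l) {p q c z : W l} (h : CrossOK D p q c z) :
    ∃ i, (i = p ∨ i = q) ∧ 49 / 50 * dist i c ≤ dist z c := by
  rcases h.ht with ht | ht
  · exact ⟨q, Or.inr rfl, cr_lowH h.hz ht.2⟩
  · exact ⟨p, Or.inl rfl, cr_lowV h.hz ht.1.le⟩

private theorem one_sided {l : ℕ} (D : Data l) {p q c p' q' c' z o o' : W l}
    (h : CrossOK D p q c z) (h' : CrossOK D p' q' c' z) (ho : o = p ∨ o = q)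
    (hoz : dist z c ≤ 41 / 40 * dist o c) (hoi : idx D.u (D.j o) z = idx D.u (D.j o) o)
    (ho' : o' = p' ∨ o' = q') (hoi' : idx D.u (D.j o') z = idx D.u (D.j o') o')
    (hj : D.j o ≤ D.j o') : cl D p = cl D p' := by
  obtain ⟨hoP, hoC, hocl⟩ := pt_facts D h ho
  obtain ⟨-, -, hocl'⟩ := pt_facts D h' ho'
  have hsub : cl D o ⊆ cl D o' := cl_sub D hj hoi hoi'
  rw [← hocl, ← hocl']
  refine Finset.Subset.antisymm hsub ?_
  intro c'' hc''
  by_contra hcon
  have hcS : c'' ∈ D.S := (Finset.mem_filter.1 hc'').1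
  have hc : c ∈ cl D o := by
    rw [hocl]
    exact h.hc
  have h1 : ¬ dist c'' o ≤ 8 * D.d o := fun h2 =>
    hcon (Finset.mem_filter.2 ⟨hcS, D.good o hoP c'' h2⟩)
  push Not at h1
  obtain ⟨h2, h3⟩ := conc_dist D hoP hoC hc
  obtain ⟨i', hi', hin⟩ := ok_inner D h'
  obtain ⟨hiP, hiC, hicl⟩ := pt_facts D h' hi'
  have e1 : cl D i' = cl D o' := by rw [hicl, hocl']
  have m1 : c ∈ cl D i' := by
    rw [e1]
    exact hsub hc
  have m2 : c'' ∈ cl D i' := by
    rw [e1]
    exact hc''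
  have m3 : c' ∈ cl D i' := by
    rw [hicl]
    exact h'.hc
  have h4 := hiC c m1 c'' m2
  have h5 := hiC c m1 c' m3
  obtain ⟨h6, h7⟩ := conc_dist D hiP hiC m3
  have h8 := dist_triangle z c c'
  have h9 := dist_triangle c'' c o
  rw [dist_comm c'' c, dist_comm c o] at h9
  have h10 := D.dpos i' hiP
  linarith

theorem ok_unique {l : ℕ} (D : Data l) {p q c p' q' c' z : W l} (h : CrossOK D p q c z)
    (h' : CrossOK D p' q' c' z) : cl D p = cl D p' := by
  obtain ⟨o, ho, hoz, hoi⟩ := ok_outer D h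
  obtain ⟨o', ho', hoz', hoi'⟩ := ok_outer D h'
  rcases le_total (D.j o) (D.j o') with hj | hj
  · exact one_sided D h h' ho hoz hoi ho' hoi' hj
  · exact (one_sided D h' h ho' hoz' hoi' ho hoi hj).symm

theorem ok_levels {l : ℕ} (D : Data l) {p q c z : W l} (h : CrossOK D p q c z) :
    (∃ i, (i = p ∨ i = q) ∧ (2 : ℝ) ^ (D.j i) < (2 : ℝ) ^ (l + 8) * (50 / 49 * dist z c)) ∧
    (∃ o, (o = p ∨ o = q) ∧ (2 : ℝ) ^ (l + 7) * (32 / 41 * dist z c) ≤ (2 : ℝ) ^ (D.j o)) ∧
    0 < dist z c := by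
  obtain ⟨i, hi, hin⟩ := ok_inner D h
  obtain ⟨o, ho, hoz, -⟩ := ok_outer D h
  obtain ⟨hiP, hiC, hicl⟩ := pt_facts D h hi
  obtain ⟨hoP, hoC, hocl⟩ := pt_facts D h ho
  have m1 : c ∈ cl D i := by
    rw [hicl]
    exact h.hc
  have m2 : c ∈ cl D o := by
    rw [hocl]
    exact h.hc
  obtain ⟨h1, h2⟩ := conc_dist D hiP hiC m1
  obtain ⟨h3, h4⟩ := conc_dist D hoP hoC m2
  have h5 := D.dpos i hiP
  refine ⟨⟨i, hi, ?_⟩, ⟨o, ho, ?_⟩, by linarith⟩
  · refine (D.jhi i hiP).trans_le ?_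
    exact mul_le_mul_of_nonneg_left (by linarith) (by positivity)
  · refine le_trans ?_ (D.jlo o hoP)
    exact mul_le_mul_of_nonneg_left (by linarith) (by positivity)

end CFS
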