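import Pool.Agent.CFS.Defs

/-!
# Module CFS-CrossEx: a horizontal set and a vertical set have a common crossing point

Plan.  `A` is the graph of a `1/100`-Lipschitz map over `A' = Prod.fst '' A` : by `hA` two points of
`A` with the same first coordinate have the same second coordinate; choose
`f : E l → E l` with `f p.1 = p.2` for `p ∈ A` (classical choice), it is
`LipschitzOnWith (1/100) f A'`; by `LipschitzOnWith.extend_pi` (Mathlib:
`theorem LipschitzOnWith.extend_pi [PseudoEMetricSpace α] [Fintype ι] {f : α → ι → ℝ} {s : Set α}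
{K : ℝ≥0} (hf : LipschitzOnWith K f s) : ∃ g : α → ι → ℝ, LipschitzWith K g ∧ EqOn f g s`)
there is `F : E l → E l`, `LipschitzWith (1/100) F`, `F p.1 = p.2` for all `p ∈ A`.
In the same way `G`, `LipschitzWith (1/100) G`, `G q.2 = q.1` for all `q ∈ B`.
`G ∘ F` is `LipschitzWith (1/100*1/100)`, a contraction (`ContractingWith`) of the complete space
`E l`, so it has a fixed point `x = G (F x)` (`ContractingWith.fixedPoint`,
`ContractingWith.fixedPoint_isFixedPt`).  Take `z = (x, F x)`: for `p ∈ A`,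
`dist z.2 p.2 = dist (F x) (F p.1) ≤ dist x p.1 / 100`; for `q ∈ B`,
`dist z.1 q.1 = dist (G (F x)) (G q.2) ≤ dist (F x) q.2 / 100 = dist z.2 q.2 / 100`.
(The sets may be empty; no case distinction is needed.)
-/

noncomputable section

namespace CFS

open Classical in
private theorem ext_graph {l : ℕ} (A : Set (W l)) (hA : ∀ p ∈ A, ∀ q ∈ A, Hor p q) :
    ∃ F : E l → E l, LipschitzWith (1 / 100) F ∧ ∀ p ∈ A, F p.1 = p.2 := by
  let f : E l → E l := fun x => if h : ∃ p ∈ A, p.1 = x then (Classical.choose h).2 else 0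
  have hf : ∀ p ∈ A, f p.1 = p.2 := by
    intro p hp
    have h : ∃ q ∈ A, q.1 = p.1 := ⟨p, hp, rfl⟩
    have h1 : f p.1 = (Classical.choose h).2 := dif_pos h
    obtain ⟨h2, h3⟩ := Classical.choose_spec h
    have h4 := hA _ h2 p hp
    unfold Hor at h4
    rw [h3, dist_self, zero_div] at h4
    rw [h1]
    exact dist_le_zero.1 h4
  have hL : LipschitzOnWith (1 / 100) f (Prod.fst '' A) := by
    refine LipschitzOnWith.of_dist_le_mul ?_
    rintro _ ⟨p, hp, rfl⟩ _ ⟨q, hq, rfl⟩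
    rw [hf p hp, hf q hq]
    have h := hA p hp q hq
    unfold Hor at h
    have h1 : ((1 / 100 : NNReal) : ℝ) = 1 / 100 := by norm_num
    rw [h1]
    linarith
  obtain ⟨F, hF, hFe⟩ := hL.extend_pi
  exact ⟨F, hF, fun p hp => by rw [← hFe ⟨p, hp, rfl⟩, hf p hp]⟩

theorem cross_exists {l : ℕ} (A B : Set (W l))
    (hA : ∀ p ∈ A, ∀ q ∈ A, Hor p q) (hB : ∀ p ∈ B, ∀ q ∈ B, Ver p q) :
    ∃ z : W l, ∀ p ∈ A, ∀ q ∈ B, Cr p q z := by
  obtain ⟨F, hF, hFA⟩ := ext_graph A hA
  obtain ⟨G, hG, hGB⟩ := ext_graph (Prod.swap '' B) (by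
    rintro _ ⟨p, hp, rfl⟩ _ ⟨q, hq, rfl⟩
    exact hB p hp q hq)
  have hGB' : ∀ q ∈ B, G q.2 = q.1 := fun q hq => hGB (Prod.swap q) ⟨q, hq, rfl⟩
  have hc : ContractingWith (1 / 100 * (1 / 100)) (G ∘ F) := by
    refine ⟨?_, hG.comp hF⟩
    rw [← NNReal.coe_lt_coe]
    norm_num
  have hx := hc.fixedPoint_isFixedPt
  set x := hc.fixedPoint (G ∘ F) with hxdef
  have hx' : G (F x) = x := hx
  have h100 : ((1 / 100 : NNReal) : ℝ) = 1 / 100 := by norm_num
  refine ⟨(x, F x), fun p hp q hq => ⟨?_, ?_⟩⟩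
  · have h := hF.dist_le_mul x p.1
    rw [h100, hFA p hp] at h
    change dist (F x) p.2 ≤ dist x p.1 / 100
    linarith
  · have h := hG.dist_le_mul (F x) q.2
    rw [h100, hGB' q hq, hx'] at h
    change dist x q.1 ≤ dist (F x) q.2 / 100
    linarith

end CFS
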