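import Pool.Agent.CFS.Cells
import Pool.Agent.CFS.CrossEx
import Pool.Agent.CFS.Kst

/-!
# Module CFS-CoreTau: the core inequality `|P| τ ρ² ≤ A n²`

`System l k C I P H V`: the surfaces.  `H i`, `V i` are sets of points (only their points in `P`
matter): horizontal / vertical chords; any `k` points of `P` lie in at most `C` of the `H i` and of the
`V i`.

Plan.  `C0 ≥ 1` from `cells l`.  Let `G0` be the groups for `(P, τ)`.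
For `G ∈ G0` let `h G = #{i ∈ I : ∃ p ∈ G, p ∈ H i}`, `v G` similarly.
(1) If `2 * C * (C0 τ)^(k-1) ≤ ρ` (this is implied by `A * τ^(k-1) ≤ ρ` for `A ≥ 2 C C0^(k-1)`), then by
`kst` and richness `ρ |G| ≤ Σ_{p ∈ G} #{i : p ∈ H i} ≤ (k-1) h G + C |G|^k ≤ (k-1) h G + (ρ/2) |G|`
(`|G|^(k-1) ≤ (C0 τ)^(k-1)`), so `ρ |G| ≤ 2 (k-1) h G`, and the same for `v G`.
(2) `Σ_{G ∈ G0} h G * v G ≤ C0 n²` (`n = I.card`): `h G * v G` = number of pairs `(i, i') ∈ I × I` with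
`H i ∩ G ≠ ∅`, `V i' ∩ G ≠ ∅`.  For each pair `(i, i')` take the crossing point `z` of
`cross_exists (H i ∩ P) (V i' ∩ P)`; every `G` counted for `(i,i')` contains `p ∈ H i`, `q ∈ V i'`
(`p q ∈ P`), so `Cr p q z`; there are at most `C0` such `G` (`cells`).
(3) Large groups: `G1 = {G ∈ G0 : τ ≤ 2 C0² |G|}`.  The small ones contribute
`Σ_{G small} |G| ≤ |G0| τ / (2 C0²) ≤ |P| / (2 C0)`, so `Σ_{G ∈ G1} |G| ≥ |P|/C0 - |P|/(2 C0) = |P|/(2 C0)`.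
(4) `C0 n² ≥ Σ_{G1} h G v G ≥ Σ_{G1} (ρ|G|/(2(k-1)))² ≥ (ρ/(2(k-1)))² (τ/(2 C0²)) Σ_{G1} |G|
≥ (ρ/(2(k-1)))² (τ/(2C0²)) |P|/(2C0)`.
So `|P| τ ρ² ≤ 16 (k-1)² C0^4 n²`.  (Everything in `ℝ`.)  If `ρ ≤ 0`: then with `A > 0`
the hypothesis `A τ^(k-1) ≤ ρ` is impossible, so `ρ > 0`.
-/

noncomputable section

namespace CFS

open Finset Classical

private theorem sep_aux : True := trivial

structure System (l k C : ℕ) {ι : Type*} (I : Finset ι) (P : Finset (W l))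
    (H V : ι → Set (W l)) : Prop where
  hor : ∀ i ∈ I, ∀ p ∈ P, ∀ q ∈ P, p ∈ H i → q ∈ H i → Hor p q
  ver : ∀ i ∈ I, ∀ p ∈ P, ∀ q ∈ P, p ∈ V i → q ∈ V i → Ver p q
  fewH : ∀ T : Finset (W l), T ⊆ P → T.card = k →
    (I.filter (fun i => ∀ p ∈ T, p ∈ H i)).card ≤ C
  fewV : ∀ T : Finset (W l), T ⊆ P → T.card = k →
    (I.filter (fun i => ∀ p ∈ T, p ∈ V i)).card ≤ C

theorem rich_group {ι : Type} {l k C C0 τ : ℕ} (hk : 2 ≤ k) (I : Finset ι) (G : Finset (W l))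
    (H : ι → Set (W l)) (ρ : ℝ)
    (hfew : ∀ T : Finset (W l), T ⊆ G → T.card = k →
      (I.filter (fun i => ∀ p ∈ T, p ∈ H i)).card ≤ C)
    (hG : G.card ≤ C0 * τ) (hρ : 2 * (C : ℝ) * ((C0 : ℝ) * τ) ^ (k - 1) ≤ ρ)
    (hrich : ∀ p ∈ G, ρ ≤ ((I.filter (fun i => p ∈ H i)).card : ℝ)) :
    ρ * (G.card : ℝ) ≤
      2 * ((k : ℝ) - 1) * ((I.filter (fun i => ∃ p ∈ G, p ∈ H i)).card : ℝ) := by
  have h1 := kst I G H k C (by omega) hfew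
  have h2 : ρ * (G.card : ℝ) ≤ ∑ p ∈ G, ((I.filter (fun i => p ∈ H i)).card : ℝ) := by
    calc ρ * (G.card : ℝ) = ∑ p ∈ G, ρ := by rw [Finset.sum_const, nsmul_eq_mul, mul_comm]
      _ ≤ _ := Finset.sum_le_sum hrich
  have h3 : (∑ p ∈ G, ((I.filter (fun i => p ∈ H i)).card : ℝ)) ≤
      ((k : ℝ) - 1) * ((I.filter (fun i => ∃ p ∈ G, p ∈ H i)).card : ℝ)
        + C * (G.card : ℝ) ^ k := by
    have := (Nat.cast_le (α := ℝ)).mpr h1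
    push_cast [Nat.cast_sub (show 1 ≤ k by omega)] at this
    exact this
  have h4 : (C : ℝ) * (G.card : ℝ) ^ k ≤ ρ / 2 * (G.card : ℝ) := by
    have e : (G.card : ℝ) ^ k = (G.card : ℝ) ^ (k - 1) * G.card := by
      rw [← pow_succ]
      congr 1
      omega
    rw [e, ← mul_assoc]
    apply mul_le_mul_of_nonneg_right _ (by positivity)
    have h5 : (G.card : ℝ) ^ (k - 1) ≤ ((C0 : ℝ) * τ) ^ (k - 1) := by
      apply pow_le_pow_left₀ (by positivity)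
      exact_mod_cast hG
    have h6 : (C : ℝ) * (G.card : ℝ) ^ (k - 1) ≤ (C : ℝ) * ((C0 : ℝ) * τ) ^ (k - 1) :=
      mul_le_mul_of_nonneg_left h5 (by positivity)
    linarith
  linarith

theorem double_groups {ι : Type} {l : ℕ} (I : Finset ι) (P : Finset (W l))
    (H V : ι → Set (W l)) (C0 : ℕ) (G0 : Finset (Finset (W l)))
    (hsub : ∀ G ∈ G0, G ⊆ P)
    (hhor : ∀ i ∈ I, ∀ p ∈ P, ∀ q ∈ P, p ∈ H i → q ∈ H i → Hor p q)
    (hver : ∀ i ∈ I, ∀ p ∈ P, ∀ q ∈ P, p ∈ V i → q ∈ V i → Ver p q)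
    (hcr : ∀ z : W l, (G0.filter (fun G => ∃ p ∈ G, ∃ q ∈ G, Cr p q z)).card ≤ C0) :
    ∑ G ∈ G0, (I.filter (fun i => ∃ p ∈ G, p ∈ H i)).card *
      (I.filter (fun i => ∃ p ∈ G, p ∈ V i)).card ≤ C0 * I.card ^ 2 := by
  have h1 : ∀ G ∈ G0, (I.filter (fun i => ∃ p ∈ G, p ∈ H i)).card *
      (I.filter (fun i => ∃ p ∈ G, p ∈ V i)).card =
      ((I ×ˢ I).filter (fun x => (∃ p ∈ G, p ∈ H x.1) ∧ (∃ p ∈ G, p ∈ V x.2))).card := by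
    intro G _
    rw [← Finset.card_product, ← Finset.filter_product]
  rw [Finset.sum_congr rfl h1]
  calc ∑ G ∈ G0, ((I ×ˢ I).filter
        (fun x => (∃ p ∈ G, p ∈ H x.1) ∧ (∃ p ∈ G, p ∈ V x.2))).card
      = ∑ x ∈ I ×ˢ I, (G0.filter
        (fun G => (∃ p ∈ G, p ∈ H x.1) ∧ (∃ p ∈ G, p ∈ V x.2))).card := by
        simp_rw [Finset.card_filter]
        exact Finset.sum_comm
    _ ≤ ∑ x ∈ I ×ˢ I, C0 := by
        apply Finset.sum_le_sum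
        rintro ⟨i, j⟩ hx
        obtain ⟨hi, hj⟩ := Finset.mem_product.mp hx
        obtain ⟨z, hz⟩ := cross_exists {p | p ∈ P ∧ p ∈ H i} {q | q ∈ P ∧ q ∈ V j}
          (fun p hp q hq => hhor i hi p hp.1 q hq.1 hp.2 hq.2)
          (fun p hp q hq => hver j hj p hp.1 q hq.1 hp.2 hq.2)
        refine le_trans (Finset.card_le_card ?_) (hcr z)
        intro G hG
        rw [Finset.mem_filter] at hG ⊢
        obtain ⟨hG, ⟨p, hp, hpH⟩, ⟨q, hq, hqV⟩⟩ := hG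
        exact ⟨hG, p, hp, q, hq, hz p ⟨hsub G hG hp, hpH⟩ q ⟨hsub G hG hq, hqV⟩⟩
    _ = C0 * I.card ^ 2 := by
        rw [Finset.sum_const, Finset.card_product, smul_eq_mul]
        ring

theorem core_tau (l k C : ℕ) (hk : 2 ≤ k) : ∃ A : ℝ, 1 ≤ A ∧ 2 * (C : ℝ) ≤ A ∧
    ∀ {ι : Type} (I : Finset ι) (P : Finset (W l)) (H V : ι → Set (W l)) (τ : ℕ) (ρ : ℝ),
      System l k C I P H V → 2 ≤ τ → τ ≤ P.card → A * (τ : ℝ) ^ (k - 1) ≤ ρ →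
      (∀ p ∈ P, ρ ≤ ((I.filter (fun i => p ∈ H i)).card : ℝ)) →
      (∀ p ∈ P, ρ ≤ ((I.filter (fun i => p ∈ V i)).card : ℝ)) →
      (P.card : ℝ) * τ * ρ ^ 2 ≤ A * (I.card : ℝ) ^ 2 := by
  obtain ⟨C0, hC0, hcells⟩ := cells l
  have hC0' : (1 : ℝ) ≤ (C0 : ℝ) := by exact_mod_cast hC0
  have hk1 : (1 : ℝ) ≤ (k : ℝ) - 1 := by
    have : (2 : ℝ) ≤ (k : ℝ) := by exact_mod_cast hk
    linarith
  have hp1 : (1 : ℝ) ≤ (C0 : ℝ) ^ (k - 1) := one_le_pow₀ hC0'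
  have hCn : (0 : ℝ) ≤ (C : ℝ) := Nat.cast_nonneg C
  refine ⟨2 * C * (C0 : ℝ) ^ (k - 1) + 16 * ((k : ℝ) - 1) ^ 2 * (C0 : ℝ) ^ 4 + 1, ?_, ?_, ?_⟩
  · have : (0 : ℝ) ≤ 2 * C * (C0 : ℝ) ^ (k - 1) + 16 * ((k : ℝ) - 1) ^ 2 * (C0 : ℝ) ^ 4 := by
      positivity
    linarith
  · have h1 : 2 * (C : ℝ) ≤ 2 * C * (C0 : ℝ) ^ (k - 1) := le_mul_of_one_le_right (by positivity) hp1
    have : (0 : ℝ) ≤ 16 * ((k : ℝ) - 1) ^ 2 * (C0 : ℝ) ^ 4 := by positivity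
    linarith
  intro ι I P H V τ ρ hS hτ hτP hA hH hV
  obtain ⟨G0, hsub, hcard, hnum, hbig, hcr⟩ := hcells P τ hτ hτP
  have hτ0 : (0 : ℝ) ≤ (τ : ℝ) := Nat.cast_nonneg τ
  have hρ1 : 2 * (C : ℝ) * ((C0 : ℝ) * τ) ^ (k - 1) ≤ ρ := by
    refine le_trans ?_ hA
    rw [mul_pow]
    have h0 : (0 : ℝ) ≤ (τ : ℝ) ^ (k - 1) := by positivity
    have h1 : (0 : ℝ) ≤ 16 * ((k : ℝ) - 1) ^ 2 * (C0 : ℝ) ^ 4 + 1 := by positivity
    nlinarith [mul_nonneg h1 h0]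
  have hρ0 : 0 ≤ ρ := le_trans (by positivity) hρ1
  have hh : ∀ G ∈ G0, ρ * (G.card : ℝ) ≤
      2 * ((k : ℝ) - 1) * ((I.filter (fun i => ∃ p ∈ G, p ∈ H i)).card : ℝ) := fun G hG =>
    rich_group hk I G H ρ (fun T hT hTk => hS.fewH T (hT.trans (hsub G hG)) hTk) (hcard G hG) hρ1
      (fun p hp => hH p (hsub G hG hp))
  have hv : ∀ G ∈ G0, ρ * (G.card : ℝ) ≤
      2 * ((k : ℝ) - 1) * ((I.filter (fun i => ∃ p ∈ G, p ∈ V i)).card : ℝ) := fun G hG =>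
    rich_group hk I G V ρ (fun T hT hTk => hS.fewV T (hT.trans (hsub G hG)) hTk) (hcard G hG) hρ1
      (fun p hp => hV p (hsub G hG hp))
  have hdbl : ∑ G ∈ G0, ((I.filter (fun i => ∃ p ∈ G, p ∈ H i)).card : ℝ) *
      ((I.filter (fun i => ∃ p ∈ G, p ∈ V i)).card : ℝ) ≤ C0 * (I.card : ℝ) ^ 2 := by
    have := double_groups I P H V C0 G0 hsub hS.hor hS.ver hcr
    exact_mod_cast this
  set G1 := G0.filter (fun G => τ ≤ 2 * C0 ^ 2 * G.card) with hG1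
  set G2 := G0.filter (fun G => ¬ (τ ≤ 2 * C0 ^ 2 * G.card)) with hG2
  have hsplit : ∑ G ∈ G1, (G.card : ℝ) + ∑ G ∈ G2, (G.card : ℝ) = ∑ G ∈ G0, (G.card : ℝ) :=
    Finset.sum_filter_add_sum_filter_not _ _ _
  have hsmall : 2 * (C0 : ℝ) ^ 2 * ∑ G ∈ G2, (G.card : ℝ) ≤ C0 * (P.card : ℝ) := by
    rw [Finset.mul_sum]
    calc ∑ G ∈ G2, 2 * (C0 : ℝ) ^ 2 * (G.card : ℝ) ≤ ∑ G ∈ G2, (τ : ℝ) := by
          apply Finset.sum_le_sum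
          intro G hG
          rw [hG2, Finset.mem_filter] at hG
          have := le_of_lt (not_le.mp hG.2)
          exact_mod_cast this
      _ = (G2.card : ℝ) * τ := by rw [Finset.sum_const, nsmul_eq_mul]
      _ ≤ (G0.card : ℝ) * τ := by
          apply mul_le_mul_of_nonneg_right _ hτ0
          exact_mod_cast Finset.card_le_card (Finset.filter_subset _ _)
      _ ≤ C0 * (P.card : ℝ) := by exact_mod_cast hnum
  have hbig' : (P.card : ℝ) ≤ C0 * ∑ G ∈ G0, (G.card : ℝ) := by exact_mod_cast hbig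
  have hlarge : (P.card : ℝ) ≤ 2 * C0 * ∑ G ∈ G1, (G.card : ℝ) := by
    have hc : (0 : ℝ) < (C0 : ℝ) := by linarith
    have h1 : (C0 : ℝ) * (P.card : ℝ) ≤ C0 * (2 * C0 * ∑ G ∈ G1, (G.card : ℝ)) := by
      have h2 : 2 * (C0 : ℝ) * (P.card : ℝ) ≤ 2 * C0 * (C0 * ∑ G ∈ G0, (G.card : ℝ)) :=
        mul_le_mul_of_nonneg_left hbig' (by positivity)
      rw [← hsplit] at h2
      nlinarith [h2, hsmall]
    exact le_of_mul_le_mul_left h1 hc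
  have hterm : ∀ G ∈ G1, ρ ^ 2 * τ * (G.card : ℝ) ≤
      8 * (C0 : ℝ) ^ 2 * ((k : ℝ) - 1) ^ 2 *
        (((I.filter (fun i => ∃ p ∈ G, p ∈ H i)).card : ℝ) *
          ((I.filter (fun i => ∃ p ∈ G, p ∈ V i)).card : ℝ)) := by
    intro G hG
    rw [hG1, Finset.mem_filter] at hG
    have h1 := hh G hG.1
    have h2 := hv G hG.1
    have h3 : (τ : ℝ) ≤ 2 * (C0 : ℝ) ^ 2 * (G.card : ℝ) := by exact_mod_cast hG.2
    have hg : (0 : ℝ) ≤ ρ * (G.card : ℝ) := by positivity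
    have h4 : (ρ * (G.card : ℝ)) * (ρ * (G.card : ℝ)) ≤
        (2 * ((k : ℝ) - 1) * ((I.filter (fun i => ∃ p ∈ G, p ∈ H i)).card : ℝ)) *
        (2 * ((k : ℝ) - 1) * ((I.filter (fun i => ∃ p ∈ G, p ∈ V i)).card : ℝ)) :=
      mul_le_mul h1 h2 hg (le_trans hg h1)
    have h5 : ρ ^ 2 * τ * (G.card : ℝ) ≤ ρ ^ 2 * (2 * (C0 : ℝ) ^ 2 * (G.card : ℝ)) * (G.card : ℝ) := by
      apply mul_le_mul_of_nonneg_right _ (by positivity)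
      exact mul_le_mul_of_nonneg_left h3 (by positivity)
    have h6 : 2 * (C0 : ℝ) ^ 2 * ((ρ * (G.card : ℝ)) * (ρ * (G.card : ℝ))) ≤
        2 * (C0 : ℝ) ^ 2 *
        ((2 * ((k : ℝ) - 1) * ((I.filter (fun i => ∃ p ∈ G, p ∈ H i)).card : ℝ)) *
        (2 * ((k : ℝ) - 1) * ((I.filter (fun i => ∃ p ∈ G, p ∈ V i)).card : ℝ))) :=
      mul_le_mul_of_nonneg_left h4 (by positivity)
    calc _ ≤ _ := h5
      _ = 2 * (C0 : ℝ) ^ 2 * ((ρ * (G.card : ℝ)) * (ρ * (G.card : ℝ))) := by ring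
      _ ≤ _ := h6
      _ = _ := by ring
  have hsum : ρ ^ 2 * τ * ∑ G ∈ G1, (G.card : ℝ) ≤
      8 * (C0 : ℝ) ^ 2 * ((k : ℝ) - 1) ^ 2 * (C0 * (I.card : ℝ) ^ 2) := by
    rw [Finset.mul_sum]
    refine le_trans (Finset.sum_le_sum hterm) ?_
    rw [← Finset.mul_sum]
    apply mul_le_mul_of_nonneg_left _ (by positivity)
    refine le_trans ?_ hdbl
    exact Finset.sum_le_sum_of_subset_of_nonneg (Finset.filter_subset _ _)
      (fun _ _ _ => by positivity)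
  have hρτ : (0 : ℝ) ≤ ρ ^ 2 * τ := by positivity
  have hn : (0 : ℝ) ≤ (I.card : ℝ) ^ 2 := by positivity
  calc (P.card : ℝ) * τ * ρ ^ 2 = (ρ ^ 2 * τ) * (P.card : ℝ) := by ring
    _ ≤ (ρ ^ 2 * τ) * (2 * C0 * ∑ G ∈ G1, (G.card : ℝ)) := mul_le_mul_of_nonneg_left hlarge hρτ
    _ = 2 * C0 * (ρ ^ 2 * τ * ∑ G ∈ G1, (G.card : ℝ)) := by ring
    _ ≤ 2 * C0 * (8 * (C0 : ℝ) ^ 2 * ((k : ℝ) - 1) ^ 2 * (C0 * (I.card : ℝ) ^ 2)) :=
        mul_le_mul_of_nonneg_left hsum (by positivity)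
    _ = (16 * ((k : ℝ) - 1) ^ 2 * (C0 : ℝ) ^ 4) * (I.card : ℝ) ^ 2 := by ring
    _ ≤ (2 * C * (C0 : ℝ) ^ (k - 1) + 16 * ((k : ℝ) - 1) ^ 2 * (C0 : ℝ) ^ 4 + 1) *
        (I.card : ℝ) ^ 2 := by
        apply mul_le_mul_of_nonneg_right _ hn
        have : (0 : ℝ) ≤ 2 * C * (C0 : ℝ) ^ (k - 1) := by positivity
        linarith

end CFS
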