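import Pool.Agent.CFS.ThmCE

/-!
# Module CFS-Coro: norm-multiplicative pairings and quaternions

The family of the maps `x ↦ μ b x + c` is a family of flats with conformal slope differences.
-/

noncomputable section

namespace CFS

open Finset Classical

theorem thm_pair (B X : Type) [NormedAddCommGroup B] [NormedSpace ℝ B]
    [NormedAddCommGroup X] [NormedSpace ℝ X] [FiniteDimensional ℝ X]
    (μ : B →L[ℝ] X →L[ℝ] X) (hμ : ∀ b x, ‖μ b x‖ = ‖b‖ * ‖x‖) : ∃ A : ℝ, 0 ≤ A ∧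
    ∀ (P : Finset (X × X)) (F : Finset (B × X)),
      ((∑ p ∈ P, (F.filter (fun f => p.2 = μ f.1 p.1 + f.2)).card : ℕ) : ℝ) ≤
        A * ((P.card : ℝ) ^ (2 / 3 : ℝ) * (F.card : ℝ) ^ (2 / 3 : ℝ) + P.card + F.card) := by
  rcases subsingleton_or_nontrivial X with hX | hX
  · refine ⟨1, zero_le_one, fun P F => ?_⟩
    have h1 : P.card ≤ 1 := card_le_one_of_subsingleton P
    have h2 : ∑ p ∈ P, (F.filter (fun f => p.2 = μ f.1 p.1 + f.2)).card ≤ F.card := by
      calc ∑ p ∈ P, (F.filter (fun f => p.2 = μ f.1 p.1 + f.2)).card ≤ ∑ _p ∈ P, F.card :=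
            sum_le_sum fun p _ => card_filter_le _ _
        _ = P.card * F.card := by rw [sum_const, smul_eq_mul]
        _ ≤ 1 * F.card := Nat.mul_le_mul_right _ h1
        _ = F.card := one_mul _
    have h3 : ((∑ p ∈ P, (F.filter (fun f => p.2 = μ f.1 p.1 + f.2)).card : ℕ) : ℝ) ≤
        (F.card : ℝ) := by exact_mod_cast h2
    rw [one_mul]
    have h4 : (0 : ℝ) ≤ (P.card : ℝ) ^ (2 / 3 : ℝ) * (F.card : ℝ) ^ (2 / 3 : ℝ) := by positivity
    have h5 : (0 : ℝ) ≤ (P.card : ℝ) := Nat.cast_nonneg _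
    linarith
  · obtain ⟨x0, hx0⟩ := exists_ne (0 : X)
    obtain ⟨A, hA, hmain⟩ := thm_ce X 1
    refine ⟨A, hA, fun P F => ?_⟩
    have hinj : Function.Injective (fun f : B × X => ((μ f.1, f.2) : (X →L[ℝ] X) × X)) := by
      intro f g hfg
      obtain ⟨h1, h2⟩ := Prod.mk.inj hfg
      refine Prod.ext ?_ h2
      have h3 : ‖μ (f.1 - g.1) x0‖ = 0 := by
        rw [map_sub, ContinuousLinearMap.sub_apply, h1, sub_self, norm_zero]
      rw [hμ] at h3
      rcases mul_eq_zero.1 h3 with h4 | h4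
      · exact sub_eq_zero.1 (norm_eq_zero.1 h4)
      · exact absurd (norm_eq_zero.1 h4) hx0
    have hcard : (F.image (fun f : B × X => ((μ f.1, f.2) : (X →L[ℝ] X) × X))).card = F.card :=
      card_image_of_injective _ hinj
    have hfil : ∀ p : X × X, ((F.image (fun f : B × X => ((μ f.1, f.2) : (X →L[ℝ] X) × X))).filter
        (fun f => p.2 = f.1 p.1 + f.2)).card =
        (F.filter (fun f => p.2 = μ f.1 p.1 + f.2)).card := by
      intro p
      rw [filter_image, card_image_of_injective _ hinj]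
    have h := hmain P (F.image (fun f : B × X => ((μ f.1, f.2) : (X →L[ℝ] X) × X))) ?_
    · simp only [hfil, hcard] at h
      exact h
    · intro p _ f hf g hg _ _ _ u w
      obtain ⟨f', _, rfl⟩ := mem_image.1 hf
      obtain ⟨g', _, rfl⟩ := mem_image.1 hg
      show ‖(μ f'.1 - μ g'.1) u‖ * ‖w‖ ≤ 1 * (‖(μ f'.1 - μ g'.1) w‖ * ‖u‖)
      rw [← map_sub, hμ, hμ]
      exact le_of_eq (by ring)

theorem thm_quat : ∃ A : ℝ, 0 ≤ A ∧
    ∀ (P : Finset (Quaternion ℝ × Quaternion ℝ)) (F : Finset (Quaternion ℝ × Quaternion ℝ)),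
      ((∑ p ∈ P, (F.filter (fun f => p.2 = f.1 * p.1 + f.2)).card : ℕ) : ℝ) ≤
        A * ((P.card : ℝ) ^ (2 / 3 : ℝ) * (F.card : ℝ) ^ (2 / 3 : ℝ) + P.card + F.card) :=
  thm_pair (Quaternion ℝ) (Quaternion ℝ) (ContinuousLinearMap.mul ℝ (Quaternion ℝ))
    (fun b x => norm_mul b x)

end CFS
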