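import Mathlib

/-!
# Project CFS (MP_be5eee_co): epsilon-free incidence bounds for half-dimensional surfaces.
Definitions.  `W l = R^l x R^l` with the SUP metric (the metric of `Prod` and `Pi`):
`dist p q = max (dist p.1 q.1) (dist p.2 q.2)` and `dist x y = sup_i |x i - y i|` for
`x y : Fin l → ℝ`.
-/

noncomputable section

namespace CFS

open Finset Classical

/-- the space `R^l` with the sup metric -/
abbrev E (l : ℕ) : Type := Fin l → ℝ

/-- the space `R^l x R^l` with the sup metric -/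
abbrev W (l : ℕ) : Type := (Fin l → ℝ) × (Fin l → ℝ)

/-- `z` is a crossing point of a horizontal surface through `p` and a vertical surface through
`q` : the chord `z p` is `1/100`-horizontal and the chord `z q` is `1/100`-vertical. -/
def Cr {l : ℕ} (p q z : W l) : Prop :=
  dist z.2 p.2 ≤ dist z.1 p.1 / 100 ∧ dist z.1 q.1 ≤ dist z.2 q.2 / 100

/-- index of the cube of side `2^j` (grid shifted by `u` in all coordinates) containing `z` -/
def idx {l : ℕ} (u : ℝ) (j : ℤ) (z : W l) : (Fin l → ℤ) × (Fin l → ℤ) :=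
  (fun i => ⌊(z.1 i - u) / (2 : ℝ) ^ j⌋, fun i => ⌊(z.2 i - u) / (2 : ℝ) ^ j⌋)

/-- The data of the cell construction.  `P`: the good points, `S`: the sites, `d z`: the distance
of `z` to the nearest site, `j p`: the level of the point `p` (the cube of side `2^(j p)` is about
`2^(l+7)` times larger than `d p`), `good`: the ball of radius `8 d p` around `p` lies in the cube
of level `j p` containing `p`, `sparse`: the ball of radius `d p / 16` has few points. -/
structure Data (l : ℕ) where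
  P : Finset (W l)
  S : Finset (W l)
  u : ℝ
  τ : ℕ
  j : W l → ℤ
  d : W l → ℝ
  hS : S.Nonempty
  hτ : 1 ≤ τ
  dpos : ∀ p ∈ P, 0 < d p
  dle : ∀ z, ∀ c ∈ S, d z ≤ dist z c
  dex : ∀ z, ∃ c ∈ S, dist z c = d z
  jlo : ∀ p ∈ P, (2 : ℝ) ^ (l + 7) * d p ≤ (2 : ℝ) ^ (j p)
  jhi : ∀ p ∈ P, (2 : ℝ) ^ (j p) < (2 : ℝ) ^ (l + 8) * d p
  good : ∀ p ∈ P, ∀ z, dist z p ≤ 8 * d p → idx u (j p) z = idx u (j p) p
  sparse : ∀ p ∈ P, (P.filter (fun q => dist q p ≤ d p / 16)).card < τ

/-- the sites in the cube of level `j p` containing `p` -/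
def cl {l : ℕ} (D : Data l) (p : W l) : Finset (W l) :=
  D.S.filter (fun c => idx D.u (D.j p) c = idx D.u (D.j p) p)

/-- `p` is concentrated if the cluster `cl p` has small diameter with respect to `d p` -/
def Conc {l : ℕ} (D : Data l) (p : W l) : Prop :=
  ∀ c ∈ cl D p, ∀ c' ∈ cl D p, dist c c' ≤ D.d p / 4

/-- `p q` are on a horizontal chord -/
def Hor {l : ℕ} (p q : W l) : Prop := dist p.2 q.2 ≤ dist p.1 q.1 / 100

/-- `p q` are on a vertical chord -/
def Ver {l : ℕ} (p q : W l) : Prop := dist p.1 q.1 ≤ dist p.2 q.2 / 100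

/-- a flat `y = A x + b` -/
abbrev Fl (l : ℕ) : Type := (E l →L[ℝ] E l) × E l

/-- the point `p` lies on the flat `f` -/
def Inc {l : ℕ} (p : W l) (f : Fl l) : Prop := p.2 = f.1 p.1 + f.2

/-- a linear map is `K`-conformal: `‖D u‖ ≤ K ‖D w‖` whenever `‖u‖ = ‖w‖` -/
def KConf {l : ℕ} (K : ℝ) (D : E l →L[ℝ] E l) : Prop :=
  ∀ u w : E l, ‖D u‖ * ‖w‖ ≤ K * (‖D w‖ * ‖u‖)

/-- any two distinct flats of `F` through a common point of `P` have a `K`-conformal slope
difference -/
def ConfFam {l : ℕ} (K : ℝ) (P : Finset (W l)) (F : Finset (Fl l)) : Prop :=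
  ∀ p ∈ P, ∀ f ∈ F, ∀ g ∈ F, f ≠ g → Inc p f → Inc p g → KConf K (f.1 - g.1)

end CFS
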