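import Pool.Agent.CFS.Defs

/-!
# Module CFS-Idx: lemmas on the cube index `idx u j z`

Plan (all are coordinatewise facts on `⌊x / 2^j⌋`, then `funext`, `Prod.ext`).
* `idx_mono`: for `j ≤ j'`, write `j' = j + n` (`n : ℕ`), `2^j' = 2^j * 2^n`; then
  `⌊x / 2^j'⌋ = ⌊(x / 2^j) / 2^n⌋ = ⌊x/2^j⌋ / 2^n` (integer division;
  `Int.floor_div_natCast`-like lemma: `Int.floor (a / (n:ℝ)) = ⌊a⌋ / n`), so it only depends on
  `⌊x / 2^j⌋`.
* `idx_dist`: if the floors agree then `|z_i - w_i| / 2^j < 1`; use `dist_pi_le_iff`, `Prod.dist_eq`.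
* `idx_near`: if `dist z w ≤ m * 2^j` then each coordinate index differs by at most `m`
  (`|x - y| ≤ m → |⌊x⌋ - ⌊y⌋| ≤ m` for an integer `m`: `⌊x⌋ - ⌊y⌋ < x - (y - 1) ≤ m + 1`).
  Hence the number of indices of points `w` of a finite set `X` in the ball of radius `m * 2^j`
  around `z` is at most `(2 m + 1)^(2 l)` : the image is contained in the product
  `Fintype.piFinset (fun i => Icc (⌊·⌋ - m) (⌊·⌋ + m)) ×ˢ Fintype.piFinset ...`, of cardinality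
  `(2m+1)^l * (2m+1)^l`.
* `idx_sub`: points with the same index at level `j` have at most `(2^s)^(2 l)` indices at level
  `j - s` : if `a = ⌊x/2^j⌋` (with `x = z_i - u`) then `⌊x / 2^(j-s)⌋ = ⌊(x/2^j) * 2^s⌋` lies in
  `Ico (a * 2^s) ((a+1) * 2^s)`; product of `2 l` such intervals.
-/

noncomputable section

namespace CFS

open Finset Classical

private theorem fl_div {a b : ℝ} (h : ⌊a⌋ = ⌊b⌋) {M : ℕ} (hM : 0 < M) : ⌊a / M⌋ ≤ ⌊b / M⌋ := by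
  have hM' : (0 : ℝ) < M := by exact_mod_cast hM
  rw [Int.le_floor, le_div_iff₀ hM']
  have h1 : (⌊a / M⌋ : ℝ) * M ≤ a := by
    rw [← le_div_iff₀ hM']
    exact Int.floor_le _
  have h2 : ⌊a / M⌋ * (M : ℤ) ≤ ⌊a⌋ := by
    rw [Int.le_floor]
    push_cast
    exact h1
  rw [h] at h2
  have h3 : ((⌊a / M⌋ * (M : ℤ) : ℤ) : ℝ) ≤ (⌊b⌋ : ℝ) := by exact_mod_cast h2
  push_cast at h3
  exact h3.trans (Int.floor_le b)

private theorem fl_mono {x y : ℝ} {j j' : ℤ} (hj : j ≤ j')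
    (h : ⌊x / (2 : ℝ) ^ j⌋ = ⌊y / (2 : ℝ) ^ j⌋) : ⌊x / (2 : ℝ) ^ j'⌋ = ⌊y / (2 : ℝ) ^ j'⌋ := by
  obtain ⟨n, rfl⟩ := Int.exists_add_of_le hj
  have e : ∀ t : ℝ, t / (2 : ℝ) ^ (j + (n : ℤ)) = t / (2 : ℝ) ^ j / ((2 ^ n : ℕ) : ℝ) := by
    intro t
    rw [zpow_add₀ two_ne_zero, zpow_natCast, div_div]
    push_cast
    rfl
  rw [e, e]
  exact le_antisymm (fl_div h (by positivity)) (fl_div h.symm (by positivity))

private theorem fl_dist {u x y : ℝ} {j : ℤ}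
    (h : ⌊(x - u) / (2 : ℝ) ^ j⌋ = ⌊(y - u) / (2 : ℝ) ^ j⌋) : dist x y ≤ (2 : ℝ) ^ j := by
  have hp : (0 : ℝ) < (2 : ℝ) ^ j := by positivity
  have h1 := Int.abs_sub_lt_one_of_floor_eq_floor h
  rw [← sub_div, sub_sub_sub_cancel_right, abs_div, abs_of_pos hp, div_lt_one hp] at h1
  rw [Real.dist_eq]
  exact h1.le

private theorem idx_card {l M : ℕ} (X : Finset (W l)) (f : W l → (Fin l → ℤ) × (Fin l → ℤ))
    (T1 T2 : Fin l → Finset ℤ) (c1 : ∀ i, (T1 i).card = M) (c2 : ∀ i, (T2 i).card = M)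
    (h1 : ∀ w ∈ X, ∀ i, (f w).1 i ∈ T1 i) (h2 : ∀ w ∈ X, ∀ i, (f w).2 i ∈ T2 i) :
    (X.image f).card ≤ M ^ (2 * l) := by
  have hsub : X.image f ⊆ Fintype.piFinset T1 ×ˢ Fintype.piFinset T2 := by
    intro y hy
    rw [Finset.mem_image] at hy
    obtain ⟨w, hw, rfl⟩ := hy
    rw [Finset.mem_product, Fintype.mem_piFinset, Fintype.mem_piFinset]
    exact ⟨h1 w hw, h2 w hw⟩
  refine (Finset.card_le_card hsub).trans (le_of_eq ?_)
  rw [Finset.card_product, Fintype.card_piFinset, Fintype.card_piFinset,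
    Finset.prod_congr rfl (fun i _ => c1 i), Finset.prod_congr rfl (fun i _ => c2 i),
    Finset.prod_const, Finset.card_univ, Fintype.card_fin, two_mul, pow_add]

private theorem fl_near {u x y : ℝ} {j : ℤ} {m : ℕ} (h : dist x y ≤ m * (2 : ℝ) ^ j) :
    ⌊(x - u) / (2 : ℝ) ^ j⌋ ∈
      Finset.Icc (⌊(y - u) / (2 : ℝ) ^ j⌋ - m) (⌊(y - u) / (2 : ℝ) ^ j⌋ + m) := by
  have hp : (0 : ℝ) < (2 : ℝ) ^ j := by positivity
  have h1 : |(x - u) / (2 : ℝ) ^ j - (y - u) / (2 : ℝ) ^ j| ≤ m := by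
    rw [← sub_div, sub_sub_sub_cancel_right, abs_div, abs_of_pos hp, div_le_iff₀ hp,
      ← Real.dist_eq]
    exact h
  rw [abs_le] at h1
  rw [Finset.mem_Icc]
  constructor
  · rw [sub_le_iff_le_add, ← Int.floor_add_natCast]
    exact Int.floor_le_floor (by linarith [h1.1])
  · rw [← Int.floor_add_natCast]
    exact Int.floor_le_floor (by linarith [h1.2])

private theorem fl_sub {u x : ℝ} {j a : ℤ} (s : ℕ) (h : ⌊(x - u) / (2 : ℝ) ^ j⌋ = a) :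
    ⌊(x - u) / (2 : ℝ) ^ (j - (s : ℤ))⌋ ∈ Finset.Ico (a * 2 ^ s) ((a + 1) * 2 ^ s) := by
  have hp : (0 : ℝ) < (2 : ℝ) ^ j := by positivity
  have hs : (0 : ℝ) < (2 : ℝ) ^ s := by positivity
  have e : (x - u) / (2 : ℝ) ^ (j - (s : ℤ)) = (x - u) / (2 : ℝ) ^ j * (2 : ℝ) ^ s := by
    rw [zpow_sub₀ two_ne_zero, zpow_natCast]
    field_simp
  obtain ⟨h1, h2⟩ := Int.floor_eq_iff.1 h
  rw [e, Finset.mem_Ico]
  constructor
  · rw [Int.le_floor]
    push_cast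
    exact mul_le_mul_of_nonneg_right h1 hs.le
  · rw [Int.floor_lt]
    push_cast
    exact mul_lt_mul_of_pos_right h2 hs

theorem idx_mono {l : ℕ} {u : ℝ} {j j' : ℤ} (hj : j ≤ j') {z w : W l}
    (h : idx u j z = idx u j w) : idx u j' z = idx u j' w := by
  have h1 := congrArg Prod.fst h
  have h2 := congrArg Prod.snd h
  refine Prod.ext ?_ ?_
  · funext i
    exact fl_mono hj (congrFun h1 i)
  · funext i
    exact fl_mono hj (congrFun h2 i)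

theorem idx_dist {l : ℕ} {u : ℝ} {j : ℤ} {z w : W l} (h : idx u j z = idx u j w) :
    dist z w ≤ (2 : ℝ) ^ j := by
  have h1 := congrArg Prod.fst h
  have h2 := congrArg Prod.snd h
  have hp : (0 : ℝ) ≤ (2 : ℝ) ^ j := by positivity
  rw [Prod.dist_eq]
  refine max_le ?_ ?_
  · rw [dist_pi_le_iff hp]
    exact fun i => fl_dist (congrFun h1 i)
  · rw [dist_pi_le_iff hp]
    exact fun i => fl_dist (congrFun h2 i)

theorem idx_near {l : ℕ} (u : ℝ) (j : ℤ) (m : ℕ) (z : W l) (X : Finset (W l))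
    (hX : ∀ w ∈ X, dist z w ≤ m * (2 : ℝ) ^ j) :
    (X.image (idx u j)).card ≤ (2 * m + 1) ^ (2 * l) := by
  have hc : ∀ a : ℤ, (Finset.Icc (a - m) (a + m)).card = 2 * m + 1 := by
    intro a
    rw [Int.card_Icc]
    omega
  have hd : ∀ w ∈ X, dist w z ≤ m * (2 : ℝ) ^ j := fun w hw => by
    rw [dist_comm]
    exact hX w hw
  refine idx_card X (idx u j)
    (fun i => Finset.Icc (⌊(z.1 i - u) / (2 : ℝ) ^ j⌋ - m) (⌊(z.1 i - u) / (2 : ℝ) ^ j⌋ + m))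
    (fun i => Finset.Icc (⌊(z.2 i - u) / (2 : ℝ) ^ j⌋ - m) (⌊(z.2 i - u) / (2 : ℝ) ^ j⌋ + m))
    (fun i => hc _) (fun i => hc _) ?_ ?_
  · intro w hw i
    refine fl_near ((dist_le_pi_dist w.1 z.1 i).trans (le_trans ?_ (hd w hw)))
    rw [Prod.dist_eq]
    exact le_max_left _ _
  · intro w hw i
    refine fl_near ((dist_le_pi_dist w.2 z.2 i).trans (le_trans ?_ (hd w hw)))
    rw [Prod.dist_eq]
    exact le_max_right _ _

theorem idx_sub {l : ℕ} (u : ℝ) (j : ℤ) (s : ℕ) (z : W l) (X : Finset (W l))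
    (hX : ∀ w ∈ X, idx u j w = idx u j z) :
    (X.image (idx u (j - s))).card ≤ (2 ^ s) ^ (2 * l) := by
  have hc : ∀ a : ℤ, (Finset.Ico (a * 2 ^ s) ((a + 1) * 2 ^ s)).card = 2 ^ s := by
    intro a
    rw [Int.card_Ico, ← sub_mul, add_sub_cancel_left, one_mul]
    have h : ((2 : ℤ) ^ s) = ((2 ^ s : ℕ) : ℤ) := by push_cast; rfl
    rw [h, Int.toNat_natCast]
  refine idx_card X (idx u (j - s))
    (fun i => Finset.Ico (⌊(z.1 i - u) / (2 : ℝ) ^ j⌋ * 2 ^ s) ((⌊(z.1 i - u) / (2 : ℝ) ^ j⌋ + 1) * 2 ^ s))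
    (fun i => Finset.Ico (⌊(z.2 i - u) / (2 : ℝ) ^ j⌋ * 2 ^ s) ((⌊(z.2 i - u) / (2 : ℝ) ^ j⌋ + 1) * 2 ^ s))
    (fun i => hc _) (fun i => hc _) ?_ ?_
  · intro w hw i
    exact fl_sub s (congrFun (congrArg Prod.fst (hX w hw)) i)
  · intro w hw i
    exact fl_sub s (congrFun (congrArg Prod.snd (hX w hw)) i)

end CFS
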