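import Pool.Agent.CFS.Core2
import Pool.Agent.CFS.ConfL

/-!
# Module CFS-NearFar: points with many near and many far flats

Plan.  `core_map` with `I = F`, `g p = (p.1, (200 R)⁻¹ • (p.2 - A0 p.1))` (injective),
`H f = {p | Inc p f ∧ ‖f.1 - A0‖ ≤ R}`, `V f = {p | Inc p f ∧ 20002 K R < ‖f.1 - A0‖}`.
* Horizontal: `p q` on `f`: `(p.2 - A0 p.1) - (q.2 - A0 q.1) = (f.1 - A0)(p.1 - q.1)`, of norm
  `≤ R ‖p.1 - q.1‖`, divided by `200 R`: `≤ dist p.1 q.1 / 200`.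
* Vertical: let `p q` on a far flat `f`, `p ∈ P`.  `p` has a near flat `f' ∈ F` (the number is
  `≥ ρ ≥ 1 > 0`), `f' ≠ f`; `D = f.1 - f'.1` is `K`-conformal, `‖D‖ ≥ 20002 K R - R ≥ 20001 K R`
  (`K ≥ 1`), so for `w = p.1 - q.1`: `‖(f.1 - A0) w‖ ≥ ‖D w‖ - ‖(f'.1 - A0) w‖ ≥ (20001 R - R) ‖w‖ =
  20000 R ‖w‖` (`kconf_norm`).  After division by `200 R`: `dist (g p).2 (g q).2 ≥ 100 dist p.1 q.1`.
* pair conditions: `inc_unique`.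
-/

noncomputable section

namespace CFS

open Finset Classical

private theorem filter_inst {α : Type} (s : Finset α) (p : α → Prop) (i1 i2 : DecidablePred p) :
    (@Finset.filter α p i1 s).card = (@Finset.filter α p i2 s).card := by
  rw [Subsingleton.elim i1 i2]

private theorem inc_sub {l : ℕ} (A0 : E l →L[ℝ] E l) {p q : W l} {f : Fl l} (hp : Inc p f)
    (hq : Inc q f) : (p.2 - A0 p.1) - (q.2 - A0 q.1) = (f.1 - A0) (p.1 - q.1) := by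
  unfold Inc at hp hq
  rw [hp, hq, _root_.sub_apply, map_sub, map_sub]
  abel

private theorem far_low {l : ℕ} {K R : ℝ} (hK : 1 ≤ K) (hR : 0 < R) {P : Finset (W l)}
    {F : Finset (Fl l)} (hc : ConfFam K P F) (A0 : E l →L[ℝ] E l) {p : W l} (hp : p ∈ P)
    {f f' : Fl l} (hf : f ∈ F) (hf' : f' ∈ F) (h1 : Inc p f) (h2 : Inc p f')
    (h3 : 20002 * K * R < ‖f.1 - A0‖) (h4 : ‖f'.1 - A0‖ ≤ R) (w : E l) :
    20000 * R * ‖w‖ ≤ ‖(f.1 - A0) w‖ := by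
  have hKR : R ≤ K * R := by nlinarith
  have hne : f ≠ f' := by
    rintro rfl
    nlinarith
  have hD := hc p hp f hf f' hf' hne h1 h2
  have h5 : ‖f.1 - A0‖ ≤ ‖f.1 - f'.1‖ + ‖f'.1 - A0‖ := by
    have h6 : f.1 - A0 = (f.1 - f'.1) + (f'.1 - A0) := by abel
    rw [h6]
    exact norm_add_le _ _
  have h6 : 20001 * (K * R) ≤ ‖f.1 - f'.1‖ := by nlinarith
  have h7 := kconf_norm (by linarith) hD w
  have hw := norm_nonneg w
  have h8 : 20001 * R * ‖w‖ ≤ ‖(f.1 - f'.1) w‖ := by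
    have h9 : 20001 * (K * R) * ‖w‖ ≤ K * ‖(f.1 - f'.1) w‖ :=
      (mul_le_mul_of_nonneg_right h6 hw).trans h7
    have h10 : K * (20001 * R * ‖w‖) ≤ K * ‖(f.1 - f'.1) w‖ := by
      calc K * (20001 * R * ‖w‖) = 20001 * (K * R) * ‖w‖ := by ring
        _ ≤ _ := h9
    exact le_of_mul_le_mul_left h10 (by linarith)
  have h9 : ‖(f.1 - f'.1) w‖ ≤ ‖(f.1 - A0) w‖ + ‖(f'.1 - A0) w‖ := by
    have h10 : (f.1 - f'.1) w = (f.1 - A0) w - (f'.1 - A0) w := by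
      simp only [_root_.sub_apply]
      abel
    rw [h10]
    exact norm_sub_le _ _
  have h10 : ‖(f'.1 - A0) w‖ ≤ R * ‖w‖ :=
    ((f'.1 - A0).le_opNorm w).trans (mul_le_mul_of_nonneg_right h4 hw)
  linarith

theorem near_far (l : ℕ) : ∃ A : ℝ, 1 ≤ A ∧
    ∀ (K : ℝ) (F : Finset (Fl l)) (P : Finset (W l)) (A0 : E l →L[ℝ] E l) (R ρ : ℝ),
      1 ≤ K → ConfFam K P F → 0 < R → A ≤ ρ →
      (∀ p ∈ P, ρ ≤ ((F.filter (fun f => Inc p f ∧ ‖f.1 - A0‖ ≤ R)).card : ℝ)) →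
      (∀ p ∈ P, ρ ≤ ((F.filter (fun f => Inc p f ∧ 20002 * K * R < ‖f.1 - A0‖)).card : ℝ)) →
      (P.card : ℝ) ≤ A * ((F.card : ℝ) ^ 2 / ρ ^ 3 + F.card / ρ) := by
  obtain ⟨A, hA, h⟩ := core_map l
  refine ⟨A, hA, ?_⟩
  intro K F P A0 R ρ hK hc hR hρ hnear hfar
  have hc0 : (0 : ℝ) < (200 * R)⁻¹ := by positivity
  have hK0 : 0 ≤ K := by linarith
  refine h F P (fun p => (p.1, (200 * R)⁻¹ • (p.2 - A0 p.1)))
    (fun f => {p | Inc p f ∧ ‖f.1 - A0‖ ≤ R})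
    (fun f => {p | Inc p f ∧ 20002 * K * R < ‖f.1 - A0‖}) ρ ?_ ?_ ?_ ?_ ?_ hρ ?_ ?_
  · intro p _ q _ hpq
    obtain ⟨h1, h2⟩ := Prod.mk.inj hpq
    have h3 : p.2 - A0 p.1 = q.2 - A0 q.1 := smul_right_injective _ hc0.ne' h2
    rw [h1] at h3
    exact Prod.ext h1 (sub_left_injective h3)
  · rintro f _ p _ q _ ⟨hp, hn⟩ ⟨hq, _⟩
    unfold Hor
    change dist ((200 * R)⁻¹ • (p.2 - A0 p.1)) ((200 * R)⁻¹ • (q.2 - A0 q.1)) ≤
      dist p.1 q.1 / 100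
    rw [dist_eq_norm, ← smul_sub, inc_sub A0 hp hq, norm_smul, Real.norm_of_nonneg hc0.le,
      dist_eq_norm]
    have h1 : ‖(f.1 - A0) (p.1 - q.1)‖ ≤ R * ‖p.1 - q.1‖ :=
      ((f.1 - A0).le_opNorm _).trans (mul_le_mul_of_nonneg_right hn (norm_nonneg _))
    calc (200 * R)⁻¹ * ‖(f.1 - A0) (p.1 - q.1)‖ ≤ (200 * R)⁻¹ * (R * ‖p.1 - q.1‖) :=
          mul_le_mul_of_nonneg_left h1 hc0.le
      _ = ‖p.1 - q.1‖ / 200 := by field_simp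
      _ ≤ ‖p.1 - q.1‖ / 100 := by
          have := norm_nonneg (p.1 - q.1)
          linarith
  · rintro f hf p hpP q _ ⟨hp, hn⟩ ⟨hq, _⟩
    unfold Ver
    change dist p.1 q.1 ≤ dist ((200 * R)⁻¹ • (p.2 - A0 p.1)) ((200 * R)⁻¹ • (q.2 - A0 q.1)) / 100
    rw [dist_eq_norm, dist_eq_norm, ← smul_sub, inc_sub A0 hp hq, norm_smul,
      Real.norm_of_nonneg hc0.le]
    have h0 : (0 : ℝ) < ((F.filter (fun f => Inc p f ∧ ‖f.1 - A0‖ ≤ R)).card : ℝ) := by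
      have := hnear p hpP
      linarith
    obtain ⟨f', hf'⟩ := Finset.card_pos.1 (Nat.cast_pos.1 h0)
    obtain ⟨hf'F, hf'p, hf'R⟩ := Finset.mem_filter.1 hf'
    have h1 := far_low hK hR hc A0 hpP hf hf'F hp hf'p hn hf'R (p.1 - q.1)
    have h2 : (200 * R)⁻¹ * (20000 * R * ‖p.1 - q.1‖) ≤
        (200 * R)⁻¹ * ‖(f.1 - A0) (p.1 - q.1)‖ := mul_le_mul_of_nonneg_left h1 hc0.le
    have h3 : (200 * R)⁻¹ * (20000 * R * ‖p.1 - q.1‖) = 100 * ‖p.1 - q.1‖ := by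
      field_simp
      ring
    linarith
  · rintro p hp q hq hpq f hf f' hf' ⟨h1, _⟩ ⟨h2, _⟩ ⟨h3, _⟩ ⟨h4, _⟩
    exact inc_unique hK0 hc hp hq hpq hf hf' h1 h2 h3 h4
  · rintro p hp q hq hpq f hf f' hf' ⟨h1, _⟩ ⟨h2, _⟩ ⟨h3, _⟩ ⟨h4, _⟩
    exact inc_unique hK0 hc hp hq hpq hf hf' h1 h2 h3 h4
  · intro p hp
    exact (hnear p hp).trans (Nat.cast_le.2 (le_of_eq (filter_inst _ _ _ _)))
  · intro p hp
    exact (hfar p hp).trans (Nat.cast_le.2 (le_of_eq (filter_inst _ _ _ _)))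

end CFS
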