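import Pool.Agent.CFS.Core2
import Pool.Agent.CFS.ConfL

/-!
# Module CFS-NearNear: points with many flats in each of two separated patches of slopes

`Q1 Q2 : Fl l → Prop` are the patches.

Plan.  If `P` is empty the bound is trivial (right side `≥ 0`).  Otherwise take `p0 ∈ P`; there
are flats `f1, f2 ∈ F` through `p0` with `Q1 f1`, `Q2 f2` (`ρ ≥ 1`).  `D = f2.1 - f1.1`,
`‖D‖ ≥ 200 K² δ > 0`, so `f1 ≠ f2`, `D` is `K`-conformal and `D ≠ 0`; `Di` from `kconf_inv`.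
`core_map` with `I = F`, `g p = (p.1 - Di (p.2 - f1.1 p.1), ‖D‖⁻¹ • (p.2 - f1.1 p.1))`
(injective: the second component gives `v = p.2 - f1.1 p.1`, then the first gives `p.1`),
`H f = {p | Inc p f ∧ Q1 f}`, `V f = {p | Inc p f ∧ Q2 f}`.
Let `w = p.1 - q.1` for `p q` on `f`; `Δv = (f.1 - f1.1) w`.
* `Q1 f`: `M = f.1 - f1.1`, `‖M‖ ≤ δ`; `Δx' = w - Di (M w)`, `‖Di (M w)‖ ≤ K δ ‖w‖ / ‖D‖ ≤ ‖w‖/200`, so
  `‖Δx'‖ ≥ (199/200) ‖w‖`; `‖Δy'‖ = ‖M w‖/‖D‖ ≤ δ ‖w‖/‖D‖ ≤ ‖w‖/200 ≤ ‖Δx'‖/100`.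
* `Q2 f`: `f.1 - f1.1 = D + M`, `M = f.1 - f2.1`, `‖M‖ ≤ δ`; `Δx' = w - Di (D w + M w) = - Di (M w)`,
  `‖Δx'‖ ≤ K δ ‖w‖/‖D‖ ≤ ‖w‖/(200 K)`; `‖Δy'‖ ≥ (‖D w‖ - δ ‖w‖)/‖D‖ ≥ (1/K - 1/(200 K²)) ‖w‖ ≥
  (199/(200 K)) ‖w‖` (`kconf_norm`); so `‖Δx'‖ ≤ ‖Δy'‖/199`.
* pair conditions: `inc_unique`.
-/

noncomputable section

namespace CFS

open Finset Classical

private theorem nn_hor {l : ℕ} {K δ d : ℝ} (hK : 1 ≤ K) (hδ : 0 < δ) (hd : 200 * K ^ 2 * δ ≤ d)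
    {Di : E l →L[ℝ] E l} (hDi : ∀ v, d * ‖Di v‖ ≤ K * ‖v‖) (w v : E l) (hv : ‖v‖ ≤ δ * ‖w‖) :
    ‖d⁻¹ • v‖ ≤ ‖w - Di v‖ / 100 := by
  have hK0 : 0 < K := by linarith
  have hd0 : 0 < d := lt_of_lt_of_le (by positivity) hd
  have hK2 : 1 ≤ K ^ 2 := one_le_pow₀ hK
  have h1 := hDi v
  have h2 : 200 * ‖Di v‖ ≤ ‖w‖ := by
    have a1 : 200 * K ^ 2 * δ * ‖Di v‖ ≤ d * ‖Di v‖ := mul_le_mul_of_nonneg_right hd (norm_nonneg _)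
    have a2 : K * ‖v‖ ≤ K * (δ * ‖w‖) := mul_le_mul_of_nonneg_left hv hK0.le
    have a3 : (K * δ) * (200 * K * ‖Di v‖) ≤ (K * δ) * ‖w‖ := by
      have e1 : (K * δ) * (200 * K * ‖Di v‖) = 200 * K ^ 2 * δ * ‖Di v‖ := by ring
      have e2 : (K * δ) * ‖w‖ = K * (δ * ‖w‖) := by ring
      rw [e1, e2]
      linarith
    have a4 : 200 * K * ‖Di v‖ ≤ ‖w‖ := le_of_mul_le_mul_left a3 (by positivity)
    have a5 : 1 * ‖Di v‖ ≤ K * ‖Di v‖ := mul_le_mul_of_nonneg_right hK (norm_nonneg _)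
    linarith
  have h3 : ‖w‖ - ‖Di v‖ ≤ ‖w - Di v‖ := norm_sub_norm_le _ _
  have h4 : ‖d⁻¹ • v‖ ≤ ‖w‖ / 200 := by
    rw [norm_smul, norm_inv, Real.norm_of_nonneg hd0.le, inv_mul_le_iff₀ hd0]
    have a0 : δ ≤ d / 200 := by
      have : 1 * δ ≤ K ^ 2 * δ := mul_le_mul_of_nonneg_right hK2 hδ.le
      linarith
    have a1 : δ * ‖w‖ ≤ (d / 200) * ‖w‖ := mul_le_mul_of_nonneg_right a0 (norm_nonneg _)
    linarith
  linarith [norm_nonneg w]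

private theorem nn_ver {l : ℕ} {K δ d : ℝ} (hK : 1 ≤ K) (hδ : 0 < δ) (hd : 200 * K ^ 2 * δ ≤ d)
    {Di D : E l →L[ℝ] E l} (hDi : ∀ v, d * ‖Di v‖ ≤ K * ‖v‖) (w v : E l)
    (hD : d * ‖w‖ ≤ K * ‖D w‖) (hv : ‖v‖ ≤ δ * ‖w‖) :
    ‖Di v‖ ≤ ‖d⁻¹ • (D w + v)‖ / 100 := by
  have hK0 : 0 < K := by linarith
  have hd0 : 0 < d := lt_of_lt_of_le (by positivity) hd
  have h1 : d * ‖Di v‖ ≤ K * (δ * ‖w‖) := (hDi v).trans (mul_le_mul_of_nonneg_left hv hK0.le)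
  have h2 : ‖D w‖ - ‖v‖ ≤ ‖D w + v‖ := by
    have := norm_sub_norm_le (D w) (-v)
    rwa [norm_neg, sub_neg_eq_add] at this
  have h3 : 200 * K * δ * ‖w‖ ≤ ‖D w‖ := by
    have a1 := mul_le_mul_of_nonneg_right hd (norm_nonneg w)
    have a2 : K * (200 * K * δ * ‖w‖) ≤ K * ‖D w‖ := by
      have e1 : K * (200 * K * δ * ‖w‖) = 200 * K ^ 2 * δ * ‖w‖ := by ring
      rw [e1]
      linarith
    exact le_of_mul_le_mul_left a2 hK0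
  have h4 : ‖Di v‖ * 100 * d ≤ ‖D w + v‖ := by
    have a0 : 0 ≤ δ * ‖w‖ := mul_nonneg hδ.le (norm_nonneg _)
    have a1 : 1 * (δ * ‖w‖) ≤ K * (δ * ‖w‖) := mul_le_mul_of_nonneg_right hK a0
    have e1 : 200 * K * δ * ‖w‖ = 200 * (K * (δ * ‖w‖)) := by ring
    rw [e1] at h3
    have e2 : ‖Di v‖ * 100 * d = 100 * (d * ‖Di v‖) := by ring
    rw [e2]
    linarith
  rw [norm_smul, norm_inv, Real.norm_of_nonneg hd0.le, le_div_iff₀ (by norm_num : (0 : ℝ) < 100),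
    inv_mul_eq_div, le_div_iff₀ hd0]
  exact h4

private theorem nn_diff {l : ℕ} {p q : W l} {f : Fl l} (hp : Inc p f) (hq : Inc q f)
    (B : E l →L[ℝ] E l) : (p.2 - B p.1) - (q.2 - B q.1) = (f.1 - B) (p.1 - q.1) := by
  unfold Inc at hp hq
  rw [hp, hq, sub_apply, map_sub, map_sub]
  abel

theorem near_near (l : ℕ) : ∃ A : ℝ, 1 ≤ A ∧
    ∀ (K : ℝ) (F : Finset (Fl l)) (P : Finset (W l)) (Q1 Q2 : Fl l → Prop) (δ ρ : ℝ),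
      1 ≤ K → ConfFam K P F → 0 < δ → A ≤ ρ →
      (∀ f ∈ F, ∀ g ∈ F, Q1 f → Q1 g → ‖f.1 - g.1‖ ≤ δ) →
      (∀ f ∈ F, ∀ g ∈ F, Q2 f → Q2 g → ‖f.1 - g.1‖ ≤ δ) →
      (∀ f ∈ F, ∀ g ∈ F, Q1 f → Q2 g → 200 * K ^ 2 * δ ≤ ‖f.1 - g.1‖) →
      (∀ p ∈ P, ρ ≤ ((F.filter (fun f => Inc p f ∧ Q1 f)).card : ℝ)) →
      (∀ p ∈ P, ρ ≤ ((F.filter (fun f => Inc p f ∧ Q2 f)).card : ℝ)) →
      (P.card : ℝ) ≤ A * ((F.card : ℝ) ^ 2 / ρ ^ 3 + F.card / ρ) := by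
  obtain ⟨A, hA1, hcore⟩ := core_map l
  refine ⟨A, hA1, ?_⟩
  intro K F P Q1 Q2 δ ρ hK hconf hδ hρ h11 h22 h12 hr1 hr2
  have hK0 : 0 < K := by linarith
  have hA0 : 0 ≤ A := by linarith
  have hρ0 : 0 < ρ := by linarith
  rcases P.eq_empty_or_nonempty with rfl | ⟨p0, hp0⟩
  · rw [Finset.card_empty, Nat.cast_zero]
    positivity
  have hex : ∀ Q : Fl l → Prop, ρ ≤ ((F.filter (fun f => Inc p0 f ∧ Q f)).card : ℝ) →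
      ∃ f ∈ F, Inc p0 f ∧ Q f := by
    intro Q h
    have h1 : 0 < (F.filter (fun f => Inc p0 f ∧ Q f)).card := by
      have h2 : (0 : ℝ) < ((F.filter (fun f => Inc p0 f ∧ Q f)).card : ℝ) := by linarith
      exact_mod_cast h2
    obtain ⟨f, hf⟩ := Finset.card_pos.1 h1
    rw [Finset.mem_filter] at hf
    exact ⟨f, hf.1, hf.2⟩
  obtain ⟨f1, hf1, hi1, hq1⟩ := hex Q1 (hr1 p0 hp0)
  obtain ⟨f2, hf2, hi2, hq2⟩ := hex Q2 (hr2 p0 hp0)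
  obtain ⟨D, hD⟩ : ∃ D : E l →L[ℝ] E l, D = f2.1 - f1.1 := ⟨_, rfl⟩
  have hDn : 200 * K ^ 2 * δ ≤ ‖D‖ := by
    rw [hD, norm_sub_rev]
    exact h12 f1 hf1 f2 hf2 hq1 hq2
  have hDpos : 0 < ‖D‖ := lt_of_lt_of_le (by positivity) hDn
  have hD0 : D ≠ 0 := norm_pos_iff.1 hDpos
  have hne : f2 ≠ f1 := by
    intro h
    exact hD0 (by rw [hD, h, sub_self])
  have hDc : KConf K D := by
    rw [hD]
    exact hconf p0 hp0 f2 hf2 f1 hf1 hne hi2 hi1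
  obtain ⟨Di, _, hDi2, hDi3⟩ := kconf_inv hK0.le hDc hD0
  obtain ⟨g, hg1, hg2⟩ : ∃ g : W l → W l, (∀ p, (g p).1 = p.1 - Di (p.2 - f1.1 p.1)) ∧
      ∀ p, (g p).2 = ‖D‖⁻¹ • (p.2 - f1.1 p.1) :=
    ⟨fun p => (p.1 - Di (p.2 - f1.1 p.1), ‖D‖⁻¹ • (p.2 - f1.1 p.1)), fun _ => rfl, fun _ => rfl⟩
  have hd1 : ∀ p q : W l, (g p).1 - (g q).1 =
      (p.1 - q.1) - Di ((p.2 - f1.1 p.1) - (q.2 - f1.1 q.1)) := by
    intro p q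
    rw [hg1, hg1, map_sub Di (p.2 - f1.1 p.1) (q.2 - f1.1 q.1)]
    abel
  have hd2 : ∀ p q : W l, (g p).2 - (g q).2 =
      ‖D‖⁻¹ • ((p.2 - f1.1 p.1) - (q.2 - f1.1 q.1)) := by
    intro p q
    rw [hg2, hg2, ← smul_sub]
  have hinj : ∀ p ∈ P, ∀ q ∈ P, g p = g q → p = q := by
    intro p _ q _ h
    have e2 : ‖D‖⁻¹ • ((p.2 - f1.1 p.1) - (q.2 - f1.1 q.1)) = 0 := by
      rw [← hd2, h, sub_self]
    have e3 : (p.2 - f1.1 p.1) - (q.2 - f1.1 q.1) = 0 :=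
      (smul_eq_zero.1 e2).resolve_left (inv_ne_zero hDpos.ne')
    have e1 : (p.1 - q.1) - Di ((p.2 - f1.1 p.1) - (q.2 - f1.1 q.1)) = 0 := by
      rw [← hd1, h, sub_self]
    rw [e3, map_zero, sub_zero] at e1
    have e4 : p.1 = q.1 := sub_eq_zero.1 e1
    rw [e4] at e3
    have e5 : p.2 = q.2 := by
      have := sub_eq_zero.1 e3
      exact sub_left_inj.1 this
    exact Prod.ext e4 e5
  obtain ⟨H, hH⟩ : ∃ H : Fl l → Set (W l), ∀ f z, z ∈ H f ↔ (Inc z f ∧ Q1 f) :=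
    ⟨fun f => {z : W l | Inc z f ∧ Q1 f}, fun _ _ => Iff.rfl⟩
  obtain ⟨V, hV⟩ : ∃ V : Fl l → Set (W l), ∀ f z, z ∈ V f ↔ (Inc z f ∧ Q2 f) :=
    ⟨fun f => {z : W l | Inc z f ∧ Q2 f}, fun _ _ => Iff.rfl⟩
  refine hcore F P g H V ρ hinj ?_ ?_ ?_ ?_ hρ ?_ ?_
  · intro f hf p _ q _ hpf hqf
    obtain ⟨hp1, hQ⟩ := (hH f p).1 hpf
    obtain ⟨hq1', _⟩ := (hH f q).1 hqf
    have hM := h11 f hf f1 hf1 hQ hq1
    have hv : ‖(f.1 - f1.1) (p.1 - q.1)‖ ≤ δ * ‖p.1 - q.1‖ :=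
      (ContinuousLinearMap.le_opNorm _ _).trans (mul_le_mul_of_nonneg_right hM (norm_nonneg _))
    unfold Hor
    rw [dist_eq_norm, dist_eq_norm, hd1, hd2, nn_diff hp1 hq1' f1.1]
    exact nn_hor hK hδ hDn hDi3 _ _ hv
  · intro f hf p _ q _ hpf hqf
    obtain ⟨hp1, hQ⟩ := (hV f p).1 hpf
    obtain ⟨hq1', _⟩ := (hV f q).1 hqf
    have hM := h22 f hf f2 hf2 hQ hq2
    have hv : ‖(f.1 - f2.1) (p.1 - q.1)‖ ≤ δ * ‖p.1 - q.1‖ :=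
      (ContinuousLinearMap.le_opNorm _ _).trans (mul_le_mul_of_nonneg_right hM (norm_nonneg _))
    have e1 : (f.1 - f1.1) (p.1 - q.1) = D (p.1 - q.1) + (f.1 - f2.1) (p.1 - q.1) := by
      rw [hD, ← add_apply]
      congr 1
      abel
    unfold Ver
    rw [dist_eq_norm, dist_eq_norm, hd1, hd2, nn_diff hp1 hq1' f1.1, e1]
    have e2 : p.1 - q.1 - Di (D (p.1 - q.1) + (f.1 - f2.1) (p.1 - q.1)) =
        - Di ((f.1 - f2.1) (p.1 - q.1)) := by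
      rw [map_add, hDi2]
      abel
    rw [e2, norm_neg]
    exact nn_ver hK hδ hDn hDi3 _ _ (kconf_norm hK0.le hDc _) hv
  · intro p hp q hq hpq f hf f' hf' a1 a2 a3 a4
    exact inc_unique hK0.le hconf hp hq hpq hf hf' ((hH _ _).1 a1).1 ((hH _ _).1 a2).1
      ((hH _ _).1 a3).1 ((hH _ _).1 a4).1
  · intro p hp q hq hpq f hf f' hf' a1 a2 a3 a4
    exact inc_unique hK0.le hconf hp hq hpq hf hf' ((hV _ _).1 a1).1 ((hV _ _).1 a2).1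
      ((hV _ _).1 a3).1 ((hV _ _).1 a4).1
  · intro p hp
    refine (hr1 p hp).trans (le_of_eq (congrArg Nat.cast (congrArg Finset.card ?_)))
    ext f
    rw [Finset.mem_filter, Finset.mem_filter, hH]
  · intro p hp
    refine (hr2 p hp).trans (le_of_eq (congrArg Nat.cast (congrArg Finset.card ?_)))
    ext f
    rw [Finset.mem_filter, Finset.mem_filter, hV]

end CFS
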