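import Pool.Agent.CFS.Split
import Pool.Agent.CFS.NearFar
import Pool.Agent.CFS.NearNear
import Pool.Agent.CFS.Triv
import Pool.Agent.CFS.IndB

/-!
# Module CFS-Induct: number of `ρ`-rich points of a conformal family of flats (induction on `|F|`)
-/

noncomputable section

namespace CFS

open Finset Classical

private theorem confFam_mono {l : ℕ} {K : ℝ} {P P' : Finset (W l)} {F F' : Finset (Fl l)}
    (h : ConfFam K P F) (hP : P' ⊆ P) (hF : F' ⊆ F) : ConfFam K P' F' :=
  fun p hp f hf g hg => h p (hP hp) f (hF hf) g (hF hg)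

/-- at most one flat of given slope through a point -/
private theorem atom_count {l : ℕ} (F : Finset (Fl l)) (p : W l) (v : E l →L[ℝ] E l) :
    ((F.filter (fun f => Inc p f)).card : ℝ) - 1 ≤
      (((F.filter (fun f => f.1 ≠ v)).filter (fun f => Inc p f)).card : ℝ) := by
  have h1 : (F.filter (fun f => Inc p f)).card ≤
      ((F.filter (fun f => f.1 ≠ v)).filter (fun f => Inc p f)).card +
        (F.filter (fun f => Inc p f ∧ f.1 = v)).card := by
    refine (Finset.card_le_card ?_).trans (Finset.card_union_le _ _)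
    intro f hf
    rw [Finset.mem_filter] at hf
    rw [Finset.mem_union, Finset.mem_filter, Finset.mem_filter, Finset.mem_filter]
    by_cases h : f.1 = v
    · exact Or.inr ⟨hf.1, hf.2, h⟩
    · exact Or.inl ⟨⟨hf.1, h⟩, hf.2⟩
  have h2 : (F.filter (fun f => Inc p f ∧ f.1 = v)).card ≤ 1 := by
    rw [Finset.card_le_one]
    intro f hf g hg
    rw [Finset.mem_filter] at hf hg
    obtain ⟨-, hf1, hf2⟩ := hf
    obtain ⟨-, hg1, hg2⟩ := hg
    have e1 : f.1 = g.1 := hf2.trans hg2.symm
    have e2 : f.2 = g.2 := by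
      unfold Inc at hf1 hg1
      rw [hf1, e1] at hg1
      exact add_left_cancel hg1
    exact Prod.ext e1 e2
  have h3 : ((F.filter (fun f => Inc p f)).card : ℝ) ≤
      (((F.filter (fun f => f.1 ≠ v)).filter (fun f => Inc p f)).card : ℝ) + 1 := by
    exact_mod_cast h1.trans (Nat.add_le_add_left h2 _)
  linarith

private theorem inter_card {φ : Type} (d1 : DecidableEq φ) (s t : Finset φ)
    (h : ∀ f ∈ s, f ∈ t → ∀ g ∈ s, g ∈ t → f = g) : (s ∩ t).card ≤ 1 := by
  rw [Finset.card_le_one]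
  intro f hf g hg
  rw [Finset.mem_inter] at hf hg
  exact h f hf.1 hf.2 g hg.1 hg.2

theorem rich_flats (l : ℕ) (K : ℝ) (hK : 1 ≤ K) : ∃ A : ℝ, 0 ≤ A ∧
    ∀ (F : Finset (Fl l)) (P : Finset (W l)) (ρ : ℝ), ConfFam K P F → 2 ≤ ρ →
      (∀ p ∈ P, ρ ≤ ((F.filter (fun f => Inc p f)).card : ℝ)) →
      (P.card : ℝ) ≤ A * ((F.card : ℝ) ^ 2 / ρ ^ 3) + 2 * (F.card / ρ) := by
  obtain ⟨A1, hA1, nf⟩ := near_far l
  obtain ⟨A2, hA2, nn⟩ := near_near l
  obtain ⟨J, ζ, hζ, hζ1, split⟩ := split_lemma (E l →L[ℝ] E l) (200 * K ^ 2) (20002 * K)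
    (by positivity) (by linarith)
  obtain ⟨ρ0, hρ0⟩ : ∃ ρ0, ρ0 = (A1 + A2) / ζ + 20 := ⟨_, rfl⟩
  obtain ⟨C3, hC3⟩ : ∃ C3, C3 = (A1 + (J : ℝ) ^ 2 * A2) * (1 / ζ ^ 3 + 2 / ζ) + 5 := ⟨_, rfl⟩
  obtain ⟨A, hA⟩ : ∃ A, A = 2 * ρ0 + 5 * C3 := ⟨_, rfl⟩
  have hρ0' : 20 ≤ ρ0 := by
    rw [hρ0]
    have : 0 ≤ (A1 + A2) / ζ := by positivity
    linarith
  have hC3' : 0 ≤ C3 := by
    rw [hC3]
    positivity
  have hA0 : 0 ≤ A := by
    rw [hA]
    linarith
  refine ⟨A, hA0, ?_⟩
  suffices key : ∀ n : ℕ, ∀ (F : Finset (Fl l)), F.card = n → ∀ (P : Finset (W l)) (ρ : ℝ),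
      ConfFam K P F → 2 ≤ ρ → (∀ p ∈ P, ρ ≤ ((F.filter (fun f => Inc p f)).card : ℝ)) →
      (P.card : ℝ) ≤ A * ((F.card : ℝ) ^ 2 / ρ ^ 3) + 2 * (F.card / ρ) from
    fun F P ρ => key F.card F rfl P ρ
  intro n
  induction n using Nat.strong_induction_on with
  | _ n ih =>
  intro F hFn P ρ hconf hρ2 hrich
  have hρpos : 0 < ρ := by linarith
  obtain ⟨S, hSdef⟩ : ∃ S : W l → Finset (Fl l), ∀ p, S p = F.filter (fun f => Inc p f) :=
    ⟨_, fun p => rfl⟩
  have hSF : ∀ p ∈ P, S p ⊆ F := fun p _ => by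
    rw [hSdef]
    exact Finset.filter_subset _ _
  have hSr : ∀ p ∈ P, ρ ≤ ((S p).card : ℝ) := fun p hp => by
    rw [hSdef]
    exact hrich p hp
  have hSS : ∀ p ∈ P, ∀ q ∈ P, p ≠ q → ∀ f ∈ S p, f ∈ S q → ∀ g ∈ S p, g ∈ S q → f = g := by
    intro p hp q hq hpq f hf hf' g hg hg'
    rw [hSdef, Finset.mem_filter] at hf hf' hg hg'
    exact inc_unique (by linarith) hconf hp hq hpq hf.1 hg.1 hf.2 hf'.2 hg.2 hg'.2
  have hX0 : 0 ≤ (F.card : ℝ) ^ 2 / ρ ^ 3 := by positivity
  have hY0 : 0 ≤ (F.card : ℝ) / ρ := by positivity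
  rcases le_or_gt ρ ρ0 with hcase1 | hcase1
  · -- small `ρ`
    have h1 := triv2 F P S hSF (fun p hp q hq hpq => inter_card _ _ _ (hSS p hp q hq hpq)) ρ hρ2 hSr
    have h2 : (P.card : ℝ) ≤ 2 * ρ0 * ((F.card : ℝ) ^ 2 / ρ ^ 3) := by
      have h3 : (P.card : ℝ) ≤ 2 * (F.card : ℝ) ^ 2 / ρ ^ 2 := by
        rw [le_div_iff₀ (by positivity)]
        exact h1
      have h4 : 2 * (F.card : ℝ) ^ 2 / ρ ^ 2 = 2 * ρ * ((F.card : ℝ) ^ 2 / ρ ^ 3) := by
        field_simp
      rw [h4] at h3
      have h5 : 2 * ρ * ((F.card : ℝ) ^ 2 / ρ ^ 3) ≤ 2 * ρ0 * ((F.card : ℝ) ^ 2 / ρ ^ 3) :=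
        mul_le_mul_of_nonneg_right (by linarith) hX0
      linarith
    have h6 : 2 * ρ0 * ((F.card : ℝ) ^ 2 / ρ ^ 3) ≤ A * ((F.card : ℝ) ^ 2 / ρ ^ 3) :=
      mul_le_mul_of_nonneg_right (by rw [hA]; linarith) hX0
    linarith
  rcases le_or_gt (2 * (F.card : ℝ)) (ρ ^ 2) with hcase2 | hcase2
  · -- few flats
    have h1 := triv1 F P S hSF (fun p hp q hq hpq => inter_card _ _ _ (hSS p hp q hq hpq)) ρ hρpos hSr hcase2
    have h2 : 2 * (F.card : ℝ) / ρ = 2 * (F.card / ρ) := by ring
    rw [h2] at h1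
    have h3 : 0 ≤ A * ((F.card : ℝ) ^ 2 / ρ ^ 3) := mul_nonneg hA0 hX0
    linarith
  have hNpos : 0 < F.card := by
    rcases Nat.eq_zero_or_pos F.card with h | h
    · rw [h] at hcase2
      have : 0 < ρ ^ 2 := by positivity
      norm_num at hcase2
      linarith
    · exact h
  by_cases hv : ∃ v : E l →L[ℝ] E l, F.card ≤ 2 * (F.filter (fun f => f.1 = v)).card
  · -- one slope has half of the flats
    obtain ⟨v, hv⟩ := hv
    obtain ⟨F', hF'⟩ : ∃ F', F' = F.filter (fun f => f.1 ≠ v) := ⟨_, rfl⟩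
    have hsub : F' ⊆ F := by
      rw [hF']
      exact Finset.filter_subset _ _
    have hcard : F.card ≤ (F.filter (fun f => f.1 = v)).card + F'.card ∧
        (F.filter (fun f => f.1 = v)).card + F'.card ≤ F.card := by
      constructor
      · refine (Finset.card_le_card ?_).trans (Finset.card_union_le _ _)
        intro f hf
        rw [Finset.mem_union, hF', Finset.mem_filter, Finset.mem_filter]
        by_cases h : f.1 = v
        · exact Or.inl ⟨hf, h⟩
        · exact Or.inr ⟨hf, h⟩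
      · rw [← Finset.card_union_of_disjoint]
        · refine Finset.card_le_card (Finset.union_subset (Finset.filter_subset _ _) hsub)
        · rw [Finset.disjoint_left]
          intro f hf hf'
          rw [Finset.mem_filter] at hf
          rw [hF', Finset.mem_filter] at hf'
          exact hf'.2 hf.2
    have h2F : 2 * F'.card ≤ F.card := by omega
    have hlt : F'.card < n := by omega
    have h3 := ih F'.card hlt F' rfl P (ρ - 1) (confFam_mono hconf (fun _ h => h) hsub) (by linarith)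
      (fun p hp => by
        have h4 := atom_count F p v
        have h5 := hrich p hp
        rw [hF']
        linarith)
    exact h3.trans (atom_arith A F.card F'.card ρ hA0 (Nat.cast_nonneg _) (by exact_mod_cast h2F)
      (by linarith))
  · -- the splitting lemma
    push Not at hv
    obtain ⟨v, R, δ, pat, cls, Ex, hR, hδ, hpat, hpd, hcls, hExP, hEx, hkind⟩ :=
      split F (fun f => f.1) P S hSF hv
    have hζρ : (A1 + A2) ≤ ζ * ρ := by
      have h1 : (A1 + A2) / ζ ≤ ρ := by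
        rw [hρ0] at hcase1
        linarith
      rw [div_le_iff₀ hζ] at h1
      linarith
    obtain ⟨B, hB⟩ : ∃ B, B = (F.card : ℝ) ^ 2 / (ζ * ρ) ^ 3 + F.card / (ζ * ρ) := ⟨_, rfl⟩
    have hB0 : 0 ≤ B := by
      rw [hB]
      positivity
    -- the three kinds
    obtain ⟨T1, hT1⟩ : ∃ T1 : Finset (W l), T1 = P.filter (fun p =>
        ζ * (S p).card ≤ (((S p).filter (fun f => ‖f.1 - v‖ ≤ R)).card : ℝ) ∧
          ζ * (S p).card ≤ (((S p).filter (fun f => 20002 * K * R < ‖f.1 - v‖)).card : ℝ)) := ⟨_, rfl⟩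
    obtain ⟨T2, hT2⟩ : ∃ T2 : ℕ × ℕ → Finset (W l), ∀ i, T2 i = P.filter (fun p =>
        (∀ f ∈ F, ∀ g ∈ F, ‖f.1 - v‖ ≤ R → ‖g.1 - v‖ ≤ R → pat f = i.1 → pat g = i.2 →
              200 * K ^ 2 * δ ≤ ‖f.1 - g.1‖) ∧
            ζ * (S p).card ≤ (((S p).filter (fun f => ‖f.1 - v‖ ≤ R ∧ pat f = i.1)).card : ℝ) ∧
            ζ * (S p).card ≤ (((S p).filter (fun f => ‖f.1 - v‖ ≤ R ∧ pat f = i.2)).card : ℝ)) :=
      ⟨_, fun i => rfl⟩
    obtain ⟨T3, hT3⟩ : ∃ T3 : ℕ → Finset (W l), ∀ c, T3 c = P.filter (fun p =>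
        9 * (S p).card ≤ 10 * ((S p).filter (fun f => cls f = c)).card) := ⟨_, fun c => rfl⟩
    have hT1P : T1 ⊆ P := by
      rw [hT1]
      exact Finset.filter_subset _ _
    have hT2P : ∀ i, T2 i ⊆ P := fun i => by
      rw [hT2]
      exact Finset.filter_subset _ _
    have hT3P : ∀ c, T3 c ⊆ P := fun c => by
      rw [hT3]
      exact Finset.filter_subset _ _
    have hcover : P ⊆ Ex ∪ (T1 ∪ ((Finset.range J ×ˢ Finset.range J).biUnion T2 ∪
        (F.image cls).biUnion T3)) := by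
      intro p hp
      rw [Finset.mem_union, Finset.mem_union, Finset.mem_union, Finset.mem_biUnion, Finset.mem_biUnion]
      by_cases hpe : p ∈ Ex
      · exact Or.inl hpe
      right
      rcases hkind p hp hpe with h | ⟨i, hi, i', hi', h⟩ | ⟨c, h⟩
      · left
        rw [hT1, Finset.mem_filter]
        exact ⟨hp, h⟩
      · right
        left
        refine ⟨(i, i'), Finset.mem_product.2 ⟨Finset.mem_range.2 hi, Finset.mem_range.2 hi'⟩, ?_⟩
        rw [hT2, Finset.mem_filter]
        exact ⟨hp, h⟩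
      · right
        right
        refine ⟨c, ?_, ?_⟩
        · have h1 : 0 < (S p).card := by
            have h2 := hSr p hp
            have h3 : (0 : ℝ) < (S p).card := by linarith
            exact_mod_cast h3
          have h2 : 0 < ((S p).filter (fun f => cls f = c)).card := by omega
          obtain ⟨f, hf⟩ := Finset.card_pos.1 h2
          rw [Finset.mem_filter] at hf
          exact Finset.mem_image.2 ⟨f, hSF p hp hf.1, hf.2⟩
        · rw [hT3, Finset.mem_filter]
          exact ⟨hp, h⟩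
    have hcount : (P.card : ℝ) ≤ Ex.card + (T1.card + (∑ i ∈ Finset.range J ×ˢ Finset.range J, ((T2 i).card : ℝ) +
        ∑ c ∈ F.image cls, ((T3 c).card : ℝ))) := by
      have h1 := (Finset.card_le_card hcover).trans (Finset.card_union_le _ _)
      have h2 := Finset.card_union_le T1 ((Finset.range J ×ˢ Finset.range J).biUnion T2 ∪
        (F.image cls).biUnion T3)
      have h3 := Finset.card_union_le ((Finset.range J ×ˢ Finset.range J).biUnion T2)
        ((F.image cls).biUnion T3)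
      have h4 : ((Finset.range J ×ˢ Finset.range J).biUnion T2).card ≤
        ∑ i ∈ Finset.range J ×ˢ Finset.range J, (T2 i).card := Finset.card_biUnion_le
      have h5 : ((F.image cls).biUnion T3).card ≤ ∑ c ∈ F.image cls, (T3 c).card :=
        Finset.card_biUnion_le
      have h6 : P.card ≤ Ex.card + (T1.card + (∑ i ∈ Finset.range J ×ˢ Finset.range J, (T2 i).card +
        ∑ c ∈ F.image cls, (T3 c).card)) := by omega
      exact_mod_cast h6
    -- first kind
    have hb1 : (T1.card : ℝ) ≤ A1 * B := by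
      rw [hB]
      refine nf K F T1 v R (ζ * ρ) hK (confFam_mono hconf hT1P (fun _ h => h)) hR (by linarith) ?_ ?_
      · intro p hp
        have hpP := hT1P hp
        rw [hT1, Finset.mem_filter] at hp
        have h1 : ζ * ρ ≤ ζ * (S p).card := mul_le_mul_of_nonneg_left (hSr p hpP) hζ.le
        refine (h1.trans hp.2.1).trans ?_
        have h2 : ((S p).filter (fun f => ‖f.1 - v‖ ≤ R)).card ≤
            (F.filter (fun f => Inc p f ∧ ‖f.1 - v‖ ≤ R)).card := by
          refine Finset.card_le_card fun f hf => ?_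
          rw [Finset.mem_filter, hSdef, Finset.mem_filter] at hf
          exact Finset.mem_filter.2 ⟨hf.1.1, hf.1.2, hf.2⟩
        exact_mod_cast h2
      · intro p hp
        have hpP := hT1P hp
        rw [hT1, Finset.mem_filter] at hp
        have h1 : ζ * ρ ≤ ζ * (S p).card := mul_le_mul_of_nonneg_left (hSr p hpP) hζ.le
        refine (h1.trans hp.2.2).trans ?_
        have h2 : ((S p).filter (fun f => 20002 * K * R < ‖f.1 - v‖)).card ≤
            (F.filter (fun f => Inc p f ∧ 20002 * K * R < ‖f.1 - v‖)).card := by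
          refine Finset.card_le_card fun f hf => ?_
          rw [Finset.mem_filter, hSdef, Finset.mem_filter] at hf
          exact Finset.mem_filter.2 ⟨hf.1.1, hf.1.2, hf.2⟩
        exact_mod_cast h2
    -- second kind
    have hb2 : ∀ i, ((T2 i).card : ℝ) ≤ A2 * B := by
      intro i
      rcases (T2 i).eq_empty_or_nonempty with h0 | ⟨p0, hp0⟩
      · rw [h0, Finset.card_empty, Nat.cast_zero]
        exact mul_nonneg (by linarith) hB0
      · rw [hT2, Finset.mem_filter] at hp0
        obtain ⟨-, hsep, -, -⟩ := hp0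
        rw [hB]
        obtain ⟨Q1, hQ1⟩ : ∃ Q : Fl l → Prop, ∀ f, Q f ↔ (‖f.1 - v‖ ≤ R ∧ pat f = i.1) :=
          ⟨_, fun _ => Iff.rfl⟩
        obtain ⟨Q2, hQ2⟩ : ∃ Q : Fl l → Prop, ∀ f, Q f ↔ (‖f.1 - v‖ ≤ R ∧ pat f = i.2) :=
          ⟨_, fun _ => Iff.rfl⟩
        refine nn K F (T2 i) Q1 Q2
          δ (ζ * ρ) hK (confFam_mono hconf (hT2P i) (fun _ h => h)) hδ (by linarith) ?_ ?_ ?_ ?_ ?_
        · intro f hf g hg h1 h2
          rw [hQ1] at h1 h2
          exact hpd f hf g hg h1.1 h2.1 (h1.2.trans h2.2.symm)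
        · intro f hf g hg h1 h2
          rw [hQ2] at h1 h2
          exact hpd f hf g hg h1.1 h2.1 (h1.2.trans h2.2.symm)
        · intro f hf g hg h1 h2
          rw [hQ1] at h1
          rw [hQ2] at h2
          exact hsep f hf g hg h1.1 h2.1 h1.2 h2.2
        · intro p hp
          have hpP := hT2P i hp
          rw [hT2, Finset.mem_filter] at hp
          have h1 : ζ * ρ ≤ ζ * (S p).card := mul_le_mul_of_nonneg_left (hSr p hpP) hζ.le
          refine (h1.trans hp.2.2.1).trans (Nat.cast_le.2 (Finset.card_le_card fun f hf => ?_))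
          rw [Finset.mem_filter, hSdef, Finset.mem_filter] at hf
          exact Finset.mem_filter.2 ⟨hf.1.1, hf.1.2, (hQ1 f).2 hf.2⟩
        · intro p hp
          have hpP := hT2P i hp
          rw [hT2, Finset.mem_filter] at hp
          have h1 : ζ * ρ ≤ ζ * (S p).card := mul_le_mul_of_nonneg_left (hSr p hpP) hζ.le
          refine (h1.trans hp.2.2.2).trans (Nat.cast_le.2 (Finset.card_le_card fun f hf => ?_))
          rw [Finset.mem_filter, hSdef, Finset.mem_filter] at hf
          exact Finset.mem_filter.2 ⟨hf.1.1, hf.1.2, (hQ2 f).2 hf.2⟩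
    -- third kind
    have hb3 : ∀ c, ((T3 c).card : ℝ) ≤
        A * (((F.filter (fun f => cls f = c)).card : ℝ) ^ 2 / (9 / 10 * ρ) ^ 3)
          + 2 * ((F.filter (fun f => cls f = c)).card / (9 / 10 * ρ)) := by
      intro c
      have h1 := hcls c
      refine ih (F.filter (fun f => cls f = c)).card (by omega) (F.filter (fun f => cls f = c)) rfl (T3 c)
        (9 / 10 * ρ) (confFam_mono hconf (hT3P c) (Finset.filter_subset _ _)) (by linarith) ?_
      intro p hp
      have hpP := hT3P c hp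
      rw [hT3, Finset.mem_filter] at hp
      have h2 : 9 * ((S p).card : ℝ) ≤ 10 * (((S p).filter (fun f => cls f = c)).card : ℝ) := by
        exact_mod_cast hp.2
      have h3 := hSr p hpP
      have h4 : ((S p).filter (fun f => cls f = c)).card ≤
          ((F.filter (fun f => cls f = c)).filter (fun f => Inc p f)).card := by
        refine Finset.card_le_card fun f hf => ?_
        rw [Finset.mem_filter, hSdef, Finset.mem_filter] at hf
        exact Finset.mem_filter.2 ⟨Finset.mem_filter.2 ⟨hf.1.1, hf.2⟩, hf.1.2⟩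
      have h5 : (((S p).filter (fun f => cls f = c)).card : ℝ) ≤
          (((F.filter (fun f => cls f = c)).filter (fun f => Inc p f)).card : ℝ) := by
        exact_mod_cast h4
      linarith
    -- sums
    have hs2 : ∑ i ∈ Finset.range J ×ˢ Finset.range J, ((T2 i).card : ℝ) ≤ (J : ℝ) ^ 2 * (A2 * B) := by
      refine (Finset.sum_le_sum fun i _ => hb2 i).trans ?_
      rw [Finset.sum_const, Finset.card_product, Finset.card_range, nsmul_eq_mul]
      push_cast
      rw [sq]
    have hs3 : ∑ c ∈ F.image cls, ((T3 c).card : ℝ) ≤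
        A * ((F.card : ℝ) ^ 2 / 2 / (9 / 10 * ρ) ^ 3) + 2 * (F.card / (9 / 10 * ρ)) :=
      (Finset.sum_le_sum fun c _ => hb3 c).trans (class_sum F cls A (9 / 10 * ρ) hA0 (by positivity) hcls)
    have hEx' : (Ex.card : ℝ) ≤ P.card / 10 := by
      have h1 : 10 * (Ex.card : ℝ) ≤ P.card := by exact_mod_cast hEx
      linarith
    refine ind_arith A1 A2 ζ J A P.card F.card ρ C3 (by linarith) (by linarith) hζ (Nat.cast_nonneg _)
      hρpos hcase2 hC3 (by rw [hA]; linarith) ?_
    rw [← hB]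
    linarith

end CFS
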