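import Pool.Agent.CFS.Lev
import Pool.Agent.CFS.Cls
import Pool.Agent.CFS.Fiber

/-!
# Module CFS-Nc: the groups of non-concentrated points

Plan.  `s = l + 12`, `key p = (D.j p, idx u (D.j p - s) p)`; groups by `fiber_groups Q key`.
* size: a group is contained in the set of `lev_sparse` of one of its points: `≤ τ`.
* number of keys: consider `key1 p = (D.j p, cl D p)`.
  (i) `(Q.image key1).card ≤ (l + 11) * (Q.image (cl D)).card ≤ (l+11) * 2 * D.S.card`
  (`cl_laminar_card`, `image_subset_image`): for a fixed cluster `c0 = cl D p`, `p ∈ Q`, choose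
  `c c' ∈ c0` realising the diameter `δ` of `c0` (max over the finite nonempty set `c0 ×ˢ c0`); every
  `q ∈ Q` with `cl D q = c0` has (not `Conc`) `δ > d q / 4 > 2^(j q) / 2^(l+10)` (`D.jhi`) and
  `δ ≤ 2^(j q)` (`idx_dist`, as all elements of `cl D q` have the same index at level `j q`).  So
  `2^(j q)` lies in `[δ, 2^(l+10) δ)`, so all these `j q` lie in an interval of `l + 11` integers
  (if `j0` is the smallest such `j q`, then `2^(j q) < 2^(l+10) δ ≤ 2^(l+10) 2^(j0)`, so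
  `j0 ≤ j q < j0 + l + 10`).
  (ii) for fixed `(j, c0)` the points `q ∈ Q` with `j q = j`, `cl D q = c0` have all the same index
  at level `j` (the index of any element of the nonempty `c0`), so by `idx_sub` they have at most
  `(2^s)^(2l)` indices at level `j - s`.  So `(Q.image key).card ≤ (2^s)^(2l) * (Q.image key1).card`.
  (e.g. `Q.image key ⊆ (Q.image key1).biUnion (fun k => (Q.filter (key1 · = k)).image key)`.)
* overlap: fix `z`.  By the last item of `fiber_groups` count the keys `κ = (j, i)`, `κ ∈ Q.image key`,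
  such that there are `p q ∈ Q` with `key p = κ = key q` and `Cr p q z`.  By `lev_cross`:
  `(8/9) d z ≤ d p ≤ (8/7) d z`, so (`jlo`, `jhi`) `2^(l+7) (8/9) d z ≤ 2^j < 2^(l+8) (8/7) d z`, an
  interval of ratio `18/7 < 4`: at most 2 values of `j` (if `j0` is the smallest then
  `2^j < (18/7) 2^j0 < 4 * 2^j0`, `j ≤ j0 + 1`).  For each `j`: `dist z p ≤ 4 * 2^(j-s)`, so by
  `idx_near` (with `m = 4`, `X` = those `p`) at most `9^(2l)` values of `i`.  Total `≤ 2 * 9^(2l)`.
  (`d z > 0` is not needed: `d z ≥ (7/8) d p > 0`.)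
`C = max` of the three constants, e.g. their sum.
-/

noncomputable section

namespace CFS

open Finset Classical

/-- the type of the keys -/
private def KeyT (l : ℕ) : Type := ℤ × ((Fin l → ℤ) × (Fin l → ℤ))

/-- the key of a point -/
private def key {l : ℕ} (D : Data l) (p : W l) : KeyT l :=
  (D.j p, idx D.u (D.j p - (l + 12 : ℕ)) p)

private theorem key_eq {l : ℕ} {D : Data l} {p q : W l} (h : key D q = key D p) :
    D.j q = D.j p ∧
      idx D.u (D.j p - (l + 12 : ℕ)) q = idx D.u (D.j p - (l + 12 : ℕ)) p := by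
  have h1 : D.j q = D.j p := congrArg Prod.fst h
  have h2 : idx D.u (D.j q - (l + 12 : ℕ)) q = idx D.u (D.j p - (l + 12 : ℕ)) p :=
    congrArg Prod.snd h
  rw [h1] at h2
  exact ⟨h1, h2⟩

/-- levels of the points with a given cluster -/
private theorem lev_bound {l : ℕ} {D : Data l} {p q : W l} (hq : q ∈ D.P)
    (hc : ¬ Conc D q) (h : cl D q = cl D p) : D.j q < D.j p + (l + 10 : ℕ) := by
  unfold Conc at hc
  push Not at hc
  obtain ⟨c, hc1, c', hc2, hd⟩ := hc
  have h1 : idx D.u (D.j p) c = idx D.u (D.j p) p := by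
    rw [h] at hc1
    exact (mem_filter.1 hc1).2
  have h2 : idx D.u (D.j p) c' = idx D.u (D.j p) p := by
    rw [h] at hc2
    exact (mem_filter.1 hc2).2
  have h3 := idx_dist (h1.trans h2.symm)
  have h4 := D.jhi q hq
  have h5 : (2 : ℝ) ^ (D.j q) < (2 : ℝ) ^ (D.j p + (l + 10 : ℕ)) := by
    rw [zpow_add₀ (by norm_num), zpow_natCast]
    have h6 : (0 : ℝ) < 2 ^ (l + 8) := by positivity
    have h7 : D.d q < 4 * (2 : ℝ) ^ (D.j p) := by linarith
    have h8 : (2 : ℝ) ^ (l + 10) = 2 ^ (l + 8) * 4 := by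
      rw [show l + 10 = l + 8 + 2 from rfl, pow_add]
      norm_num
    rw [h8]
    nlinarith [mul_lt_mul_of_pos_left h7 h6]
  exact (zpow_lt_zpow_iff_right₀ (by norm_num : (1 : ℝ) < 2)).1 h5

private theorem card_lev {l : ℕ} (D : Data l) (Q : Finset (W l)) (hQ : Q ⊆ D.P)
    (hc : ∀ p ∈ Q, ¬ Conc D p) (c0 : Finset (W l)) :
    ((Q.filter (fun p => cl D p = c0)).image (fun p => (D.j p, cl D p))).card ≤ l + 11 := by
  rcases (Q.filter (fun p => cl D p = c0)).eq_empty_or_nonempty with h0 | h0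
  · rw [h0, image_empty, card_empty]
    exact Nat.zero_le _
  · obtain ⟨q0, hq0, hmin⟩ := exists_min_image _ (fun p => D.j p) h0
    have hsub : (Q.filter (fun p => cl D p = c0)).image (fun p => (D.j p, cl D p)) ⊆
        (Ico (D.j q0) (D.j q0 + (l + 11 : ℕ))).image (fun i => (i, c0)) := by
      intro x hx
      obtain ⟨q, hq, rfl⟩ := mem_image.1 hx
      have h1 := (mem_filter.1 hq).2
      have h2 := (mem_filter.1 hq0).2
      have h3 := lev_bound (hQ (mem_filter.1 hq).1) (hc q (mem_filter.1 hq).1)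
        (h1.trans h2.symm)
      refine mem_image.2 ⟨D.j q, mem_Ico.2 ⟨hmin q hq, ?_⟩, ?_⟩
      · push_cast at h3 ⊢
        linarith
      · rw [h1]
    refine (card_le_card hsub).trans (card_image_le.trans ?_)
    rw [Int.card_Ico, add_sub_cancel_left, Int.toNat_natCast]

private theorem card_key1 {l : ℕ} (D : Data l) (Q : Finset (W l)) (hQ : Q ⊆ D.P)
    (hc : ∀ p ∈ Q, ¬ Conc D p) :
    (Q.image (fun p => (D.j p, cl D p))).card ≤ 2 * D.S.card * (l + 11) := by
  have hsub : Q.image (fun p => (D.j p, cl D p)) ⊆ (Q.image (cl D)).biUnion (fun c0 =>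
      (Q.filter (fun p => cl D p = c0)).image (fun p => (D.j p, cl D p))) := by
    intro x hx
    obtain ⟨q, hq, rfl⟩ := mem_image.1 hx
    exact mem_biUnion.2 ⟨cl D q, mem_image_of_mem _ hq,
      mem_image.2 ⟨q, mem_filter.2 ⟨hq, rfl⟩, rfl⟩⟩
  refine (card_le_card hsub).trans ((card_biUnion_le_card_mul _ _ (l + 11)
    fun c0 _ => card_lev D Q hQ hc c0).trans ?_)
  exact Nat.mul_le_mul_right _ ((card_le_card (image_subset_image hQ)).trans (cl_laminar_card D))

private theorem card_sub {l : ℕ} (D : Data l) (Q : Finset (W l)) (hQ : Q ⊆ D.P)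
    (k : ℤ × Finset (W l)) :
    ((Q.filter (fun p => (D.j p, cl D p) = k)).image (key D)).card ≤
      (2 ^ (l + 12)) ^ (2 * l) := by
  rcases (Q.filter (fun p => (D.j p, cl D p) = k)).eq_empty_or_nonempty with h0 | h0
  · rw [h0, image_empty, card_empty]
    exact Nat.zero_le _
  · obtain ⟨p0, hp0⟩ := h0
    have hk := (mem_filter.1 hp0).2
    have hX : ∀ q ∈ Q.filter (fun p => (D.j p, cl D p) = k),
        D.j q = D.j p0 ∧ idx D.u (D.j p0) q = idx D.u (D.j p0) p0 := by
      intro q hq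
      have h1 := (mem_filter.1 hq).2.trans hk.symm
      have h2 : D.j q = D.j p0 := congrArg Prod.fst h1
      have h3 : cl D q = cl D p0 := congrArg Prod.snd h1
      obtain ⟨c, hc, -⟩ := cl_mem D (hQ (mem_filter.1 hp0).1)
      have h4 := (mem_filter.1 hc).2
      rw [← h3] at hc
      have h5 := (mem_filter.1 hc).2
      rw [h2] at h5
      exact ⟨h2, h5.symm.trans h4⟩
    have hsub : (Q.filter (fun p => (D.j p, cl D p) = k)).image (key D) ⊆
        ((Q.filter (fun p => (D.j p, cl D p) = k)).image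
          (idx D.u (D.j p0 - (l + 12 : ℕ)))).image (fun i => (D.j p0, i)) := by
      intro x hx
      obtain ⟨q, hq, rfl⟩ := mem_image.1 hx
      refine mem_image.2 ⟨_, mem_image_of_mem _ hq, ?_⟩
      unfold key
      rw [(hX q hq).1]
    exact (card_le_card hsub).trans (card_image_le.trans
      (idx_sub D.u (D.j p0) (l + 12) p0 _ fun w hw => (hX w hw).2))

private theorem card_key {l : ℕ} (D : Data l) (Q : Finset (W l)) (hQ : Q ⊆ D.P)
    (hc : ∀ p ∈ Q, ¬ Conc D p) :
    (Q.image (key D)).card ≤ 2 * D.S.card * (l + 11) * (2 ^ (l + 12)) ^ (2 * l) := by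
  have hsub : Q.image (key D) ⊆ (Q.image (fun p => (D.j p, cl D p))).biUnion (fun k =>
      (Q.filter (fun p => (D.j p, cl D p) = k)).image (key D)) := by
    intro x hx
    obtain ⟨q, hq, rfl⟩ := mem_image.1 hx
    exact mem_biUnion.2 ⟨(D.j q, cl D q), mem_image.2 ⟨q, hq, rfl⟩,
      mem_image.2 ⟨q, mem_filter.2 ⟨hq, rfl⟩, rfl⟩⟩
  refine (card_le_card hsub).trans ((card_biUnion_le_card_mul _ _ _
    fun k _ => card_sub D Q hQ k).trans ?_)
  exact Nat.mul_le_mul_right _ (card_key1 D Q hQ hc)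

/-- overlap of the keys seen from `z` -/
private theorem card_over {l : ℕ} (D : Data l) (Q : Finset (W l)) (hQ : Q ⊆ D.P) (z : W l)
    (T : Finset (KeyT l))
    (hT : ∀ κ ∈ T, ∃ p ∈ Q, ∃ q ∈ Q, key D p = κ ∧ key D q = κ ∧ Cr p q z) :
    T.card ≤ 9 ^ (2 * l) * 2 := by
  have hT' : ∀ κ ∈ T, ∃ p ∈ Q, key D p = κ ∧ D.j p = κ.1 ∧ 7 / 8 * D.d p ≤ D.d z ∧
      D.d z ≤ 9 / 8 * D.d p ∧ dist z p ≤ 4 * (2 : ℝ) ^ (κ.1 - (l + 12 : ℕ)) := by
    intro κ hκ
    obtain ⟨p, hp, q, hq, h1, h2, h3⟩ := hT κ hκ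
    obtain ⟨h4, h5⟩ := key_eq (h2.trans h1.symm)
    obtain ⟨h6, h7, h8⟩ := lev_cross D (hQ hp) (hQ hq) h4 h5 h3
    have h9 : D.j p = κ.1 := congrArg Prod.fst h1
    rw [h9] at h8
    exact ⟨p, hp, h1, h9, h6, h7, h8⟩
  rcases T.eq_empty_or_nonempty with h0 | h0
  · rw [h0, card_empty]
    exact Nat.zero_le _
  · obtain ⟨κ0, hκ0, hmin⟩ := exists_min_image T (fun κ => κ.1) h0
    obtain ⟨p0, hp0, -, a1, a2, a3, -⟩ := hT' κ0 hκ0
    have himg : T.image Prod.fst ⊆ Ico κ0.1 (κ0.1 + 2) := by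
      intro x hx
      obtain ⟨κ, hκ, rfl⟩ := mem_image.1 hx
      refine mem_Ico.2 ⟨hmin κ hκ, ?_⟩
      obtain ⟨p, hp, -, b1, b2, b3, -⟩ := hT' κ hκ
      have e1 := D.jhi p (hQ hp)
      have e2 := D.jlo p0 (hQ hp0)
      rw [b1] at e1
      rw [a1] at e2
      have e3 : (0 : ℝ) < 2 ^ (l + 7) := by positivity
      have e4 : (2 : ℝ) ^ (l + 8) = 2 ^ (l + 7) * 2 := by
        rw [show l + 8 = l + 7 + 1 from rfl, pow_succ]
      rw [e4] at e1
      have e5 : D.d p ≤ 9 / 7 * D.d p0 := by linarith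
      have e6 : 0 < D.d p0 := D.dpos p0 (hQ hp0)
      have e7 : (2 : ℝ) ^ κ.1 < (2 : ℝ) ^ (κ0.1 + 2) := by
        rw [zpow_add₀ (by norm_num)]
        have e8 := mul_le_mul_of_nonneg_left e5 e3.le
        have e9 : (2 : ℝ) ^ (2 : ℤ) = 4 := by norm_num
        rw [e9]
        have e10 : 0 < (2 : ℝ) ^ (l + 7) * D.d p0 := mul_pos e3 e6
        linarith
      exact (zpow_lt_zpow_iff_right₀ (by norm_num : (1 : ℝ) < 2)).1 e7
    have hfib : ∀ j ∈ T.image Prod.fst, (T.filter (fun κ => κ.1 = j)).card ≤ 9 ^ (2 * l) := by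
      intro j _
      have hsub : T.filter (fun κ => κ.1 = j) ⊆
          ((Q.filter (fun p => dist z p ≤ 4 * (2 : ℝ) ^ (j - (l + 12 : ℕ)))).image
            (idx D.u (j - (l + 12 : ℕ)))).image (fun i => (j, i)) := by
        intro κ hκ
        obtain ⟨h1, h2⟩ := mem_filter.1 hκ
        obtain ⟨p, hp, b0, b1, -, -, b4⟩ := hT' κ h1
        rw [h2] at b4
        refine mem_image.2 ⟨_, mem_image_of_mem _ (mem_filter.2 ⟨hp, b4⟩), ?_⟩
        rw [← b0]
        unfold key
        rw [b1, h2]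
      refine (card_le_card hsub).trans (card_image_le.trans ?_)
      have h1 := idx_near D.u (j - (l + 12 : ℕ)) 4 z
        (Q.filter (fun p => dist z p ≤ 4 * (2 : ℝ) ^ (j - (l + 12 : ℕ)))) (by
          intro w hw
          have h2 := (mem_filter.1 hw).2
          push_cast at h2 ⊢
          exact h2)
      exact h1
    refine (card_le_mul_card_image T (9 ^ (2 * l)) hfib).trans (Nat.mul_le_mul_left _ ?_)
    refine (card_le_card himg).trans ?_
    rw [Int.card_Ico, add_sub_cancel_left]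
    exact le_rfl

private theorem filt_card {α : Type*} (s : Finset α) (p : α → Prop) (h1 h2 : DecidablePred p) :
    (@filter α p h1 s).card = (@filter α p h2 s).card := by
  rw [Subsingleton.elim h1 h2]

private theorem mem_filt {α : Type*} {s : Finset α} {p : α → Prop} {h : DecidablePred p} {a : α}
    (ha : a ∈ @filter α p h s) : a ∈ s ∧ p a :=
  (@mem_filter α p h s a).1 ha

theorem nc_groups (l : ℕ) : ∃ C : ℕ, ∀ (D : Data l) (Q : Finset (W l)), Q ⊆ D.P →
    (∀ p ∈ Q, ¬ Conc D p) →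
    ∃ G0 : Finset (Finset (W l)),
      (∀ G ∈ G0, G ⊆ Q) ∧ (∀ G ∈ G0, G.card ≤ C * D.τ) ∧ G0.card ≤ C * D.S.card ∧
      Q.card = ∑ G ∈ G0, G.card ∧
      ∀ z : W l, (G0.filter (fun G => ∃ p ∈ G, ∃ q ∈ G, Cr p q z)).card ≤ C := by
  refine ⟨1 + 2 * (l + 11) * (2 ^ (l + 12)) ^ (2 * l) + 9 ^ (2 * l) * 2, fun D Q hQ hc => ?_⟩
  obtain ⟨G0, h1, h2, h3, h4⟩ := fiber_groups Q (key D)
  refine ⟨G0, fun G hG => ?_, fun G hG => ?_, ?_, h3, fun z => ?_⟩
  · obtain ⟨κ, -, rfl⟩ := h1 G hG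
    exact filter_subset _ _
  · obtain ⟨κ, hκ, rfl⟩ := h1 G hG
    obtain ⟨p0, hp0, rfl⟩ := mem_image.1 hκ
    have h5 : (Q.filter (fun p => key D p = key D p0)).card ≤ D.τ := by
      refine le_trans (card_le_card ?_) (lev_sparse D (hQ hp0))
      intro q hq
      obtain ⟨h6, h7⟩ := mem_filter.1 hq
      exact mem_filter.2 ⟨hQ h6, key_eq h7⟩
    exact h5.trans (Nat.le_mul_of_pos_left _ (by positivity))
  · refine h2.trans ((card_key D Q hQ hc).trans ?_)
    have h6 : 2 * D.S.card * (l + 11) * (2 ^ (l + 12)) ^ (2 * l) =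
        (2 * (l + 11) * (2 ^ (l + 12)) ^ (2 * l)) * D.S.card := by ring
    rw [h6]
    exact Nat.mul_le_mul_right _ ((Nat.le_add_left _ _).trans (Nat.le_add_right _ _))
  · have h5 := h4 (fun G => ∃ p ∈ G, ∃ q ∈ G, Cr p q z)
    refine (filt_card _ _ _ _).le.trans (h5.trans
      ((card_over D Q hQ z _ ?_).trans (Nat.le_add_left _ _)))
    intro κ hκ
    obtain ⟨-, p, hp, q, hq, hz⟩ := mem_filt hκ
    exact ⟨p, (mem_filter.1 hp).1, q, (mem_filter.1 hq).1, (mem_filter.1 hp).2,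
      (mem_filter.1 hq).2, hz⟩

end CFS
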