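import Mathlib

/-!
# Module CFS-SplA: covers, minimal radius
-/

namespace CFS

open Finset Classical

theorem cover_unit (V : Type*) [NormedAddCommGroup V] [NormedSpace ℝ V] [FiniteDimensional ℝ V]
    (ε : ℝ) (hε : 0 < ε) : ∃ (J : ℕ) (c : ℕ → V), ∀ B : V, ‖B‖ ≤ 1 → ∃ i < J, ‖B - c i‖ ≤ ε := by
  have : ProperSpace V := FiniteDimensional.proper_real V
  obtain ⟨t, -, ht2, ht3⟩ := (isCompact_closedBall (0 : V) 1).finite_cover_balls hε
  refine ⟨ht2.toFinset.toList.length, fun i => ht2.toFinset.toList.getD i 0, ?_⟩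
  intro B hB
  have hB1 : B ∈ Metric.closedBall (0 : V) 1 := by
    rw [mem_closedBall_zero_iff]
    exact hB
  have hB2 := ht3 hB1
  rw [Set.mem_iUnion₂] at hB2
  obtain ⟨x, hx, hxB⟩ := hB2
  have hx' : x ∈ ht2.toFinset.toList := by
    rw [Finset.mem_toList, Set.Finite.mem_toFinset]
    exact hx
  obtain ⟨i, hi, hix⟩ := List.getElem_of_mem hx'
  refine ⟨i, hi, ?_⟩
  have h1 : ht2.toFinset.toList.getD i 0 = x := by
    rw [List.getD_eq_getElem _ _ hi, hix]
  simp only [h1]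
  rw [Metric.mem_ball, dist_eq_norm] at hxB
  exact hxB.le

theorem min_radius {V φ : Type*} [NormedAddCommGroup V] (F : Finset φ) (a : φ → V)
    (hatom : ∀ v : V, 2 * (F.filter (fun f => a f = v)).card < F.card) :
    ∃ s : ℝ, 0 < s ∧ ∃ f0 ∈ F, F.card ≤ 2 * (F.filter (fun f => ‖a f - a f0‖ ≤ s)).card ∧
      ∀ g ∈ F, ∀ r : ℝ, r < s → 2 * (F.filter (fun f => ‖a f - a g‖ ≤ r)).card < F.card := by
  have hF0 : 0 < F.card := lt_of_le_of_lt (Nat.zero_le _) (hatom 0)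
  obtain ⟨g0, hg0⟩ := Finset.card_pos.1 hF0
  obtain ⟨R1, hR1⟩ : ∃ R1 : Finset ℝ, R1 = ((F ×ˢ F).image fun p : φ × φ => ‖a p.1 - a p.2‖).filter
      (fun r => ∃ g ∈ F, F.card ≤ 2 * (F.filter (fun f => ‖a f - a g‖ ≤ r)).card) := ⟨_, rfl⟩
  have hne : R1.Nonempty := by
    obtain ⟨q, hq, hmax⟩ := Finset.exists_max_image (F ×ˢ F) (fun p : φ × φ => ‖a p.1 - a p.2‖)
      ⟨(g0, g0), mk_mem_product hg0 hg0⟩
    refine ⟨‖a q.1 - a q.2‖, ?_⟩
    rw [hR1, mem_filter]
    refine ⟨mem_image_of_mem _ hq, g0, hg0, ?_⟩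
    have h1 : F.filter (fun f => ‖a f - a g0‖ ≤ ‖a q.1 - a q.2‖) = F := by
      apply filter_true_of_mem
      intro f hf
      exact hmax (f, g0) (mk_mem_product hf hg0)
    rw [h1]
    omega
  obtain ⟨s, hs, hmin⟩ := Finset.exists_min_image R1 id hne
  simp only [id] at hmin
  have hs' := hs
  rw [hR1, mem_filter, mem_image] at hs'
  obtain ⟨⟨q, hq, hqs⟩, f0, hf0, hcard⟩ := hs'
  have hs0 : 0 ≤ s := by
    rw [← hqs]
    exact norm_nonneg _
  have hspos : 0 < s := by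
    rcases hs0.lt_or_eq with h | h
    · exact h
    · exfalso
      rw [← h] at hcard
      have h1 : F.filter (fun f => ‖a f - a f0‖ ≤ 0) = F.filter (fun f => a f = a f0) := by
        apply filter_congr
        intro f _
        rw [norm_le_zero_iff, sub_eq_zero]
      rw [h1] at hcard
      exact absurd (hatom (a f0)) (not_lt.2 hcard)
  refine ⟨s, hspos, f0, hf0, hcard, ?_⟩
  intro g hg r hr
  by_contra hcon
  rw [not_lt] at hcon
  have hQ : (F.filter (fun f => ‖a f - a g‖ ≤ r)).Nonempty := by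
    rw [← Finset.card_pos]
    omega
  obtain ⟨f1, hf1, hmax⟩ := Finset.exists_max_image _ (fun f => ‖a f - a g‖) hQ
  have hf1' := mem_filter.1 hf1
  have hmem : ‖a f1 - a g‖ ∈ R1 := by
    rw [hR1, mem_filter]
    refine ⟨mem_image.2 ⟨(f1, g), mk_mem_product hf1'.1 hg, rfl⟩, g, hg, ?_⟩
    refine hcon.trans (Nat.mul_le_mul_left 2 (card_le_card ?_))
    intro f hf
    rw [mem_filter]
    exact ⟨(mem_filter.1 hf).1, hmax f hf⟩
  have h1 := hmin _ hmem
  have h2 := hf1'.2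
  linarith

theorem ball_small {V φ : Type*} [NormedAddCommGroup V] (F : Finset φ) (a : φ → V) (s : ℝ)
    (hs : 0 < s)
    (h : ∀ g ∈ F, ∀ r : ℝ, r < s → 2 * (F.filter (fun f => ‖a f - a g‖ ≤ r)).card < F.card)
    (c : V) (r : ℝ) (hr : r ≤ s / 4) :
    2 * (F.filter (fun f => ‖a f - c‖ ≤ r)).card ≤ F.card := by
  rcases (F.filter (fun f => ‖a f - c‖ ≤ r)).eq_empty_or_nonempty with h0 | ⟨g, hg⟩
  · rw [h0]
    simp
  · obtain ⟨hgF, hgr⟩ := mem_filter.1 hg
    have h1 := h g hgF (s / 2) (by linarith)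
    have h2 : (F.filter (fun f => ‖a f - c‖ ≤ r)).card ≤
        (F.filter (fun f => ‖a f - a g‖ ≤ s / 2)).card := by
      apply card_le_card
      intro f hf
      obtain ⟨hfF, hfr⟩ := mem_filter.1 hf
      rw [mem_filter]
      refine ⟨hfF, ?_⟩
      have h3 : ‖a f - a g‖ ≤ ‖a f - c‖ + ‖a g - c‖ := by
        have h4 : a f - a g = (a f - c) - (a g - c) := by abel
        rw [h4]
        exact norm_sub_le _ _
      linarith
    omega

end CFS
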