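import Pool.Agent.CFS.CoreTau

/-!
# Module CFS-RichK: number of points which are `ρ`-rich for both families

Plan.  `A1` from `core_tau`.  Put `x = (ρ / A1)^(1/(k-1))` (`Real.rpow`), `τ = ⌊x⌋₊`.  With
`A ≥ A1 * 2^(k-1)` and `ρ ≥ A` we have `x ≥ 2`, so `τ ≥ 2` and `τ ≥ x / 2`; `τ ≤ x` gives
`A1 τ^(k-1) ≤ A1 x^(k-1) = ρ`.
Case `τ ≤ |P|`: `core_tau`: `|P| ≤ A1 n²/(τ ρ²) ≤ 2 A1 n² / (x ρ²)` and
`x ρ² = A1^(-1/(k-1)) ρ^(1/(k-1) + 2) = A1^(-1/(k-1)) ρ^((2k-1)/(k-1))`, so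
`|P| ≤ 2 A1 A1^(1/(k-1)) n²/ρ^((2k-1)/(k-1)) ≤ 2 A1² n²/...` (`A1 ≥ 1`, `1/(k-1) ≤ 1`).
Case `|P| < τ` : `kst` for `G = P` : `ρ |P| ≤ (k-1) n + C |P|^k` and
`C |P|^(k-1) ≤ C τ^(k-1) ≤ C ρ / A1 ≤ ρ/2` (`2 C ≤ A1`), so `ρ |P| ≤ 2 (k-1) n`.
`A = max` of the constants (e.g. `A1 * 2^(k-1) + 2 A1² + 2 k`).
-/

noncomputable section

namespace CFS

open Finset Classical

theorem rich_k (l k C : ℕ) (hk : 2 ≤ k) : ∃ A : ℝ, 1 ≤ A ∧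
    ∀ {ι : Type} (I : Finset ι) (P : Finset (W l)) (H V : ι → Set (W l)) (ρ : ℝ),
      System l k C I P H V → A ≤ ρ →
      (∀ p ∈ P, ρ ≤ ((I.filter (fun i => p ∈ H i)).card : ℝ)) →
      (∀ p ∈ P, ρ ≤ ((I.filter (fun i => p ∈ V i)).card : ℝ)) →
      (P.card : ℝ) ≤ A * ((I.card : ℝ) ^ 2 / ρ ^ ((2 * k - 1 : ℝ) / (k - 1)) + I.card / ρ) := by
  obtain ⟨m, rfl⟩ : ∃ m, k = m + 1 := ⟨k - 1, by omega⟩
  have hm : 1 ≤ m := by omega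
  have hmR : (1 : ℝ) ≤ m := by exact_mod_cast hm
  obtain ⟨A1, h1, h2C, hcore⟩ := core_tau l (m + 1) C hk
  have h2m : (1 : ℝ) ≤ 2 ^ m := one_le_pow₀ (by norm_num)
  have hA1m : 1 ≤ A1 * 2 ^ m := one_le_mul_of_one_le_of_one_le h1 h2m
  have hA1sq : 0 ≤ A1 ^ 2 := sq_nonneg _
  refine ⟨A1 * 2 ^ m + 2 * A1 ^ 2 + 2 * m, by linarith, ?_⟩
  intro ι I P H V ρ hS hρ hH hV
  have hA1 : 0 < A1 := by linarith
  have hρ0 : 0 < ρ := by linarith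
  set x : ℝ := (ρ / A1) ^ ((m : ℝ)⁻¹) with hx
  have hxm : x ^ m = ρ / A1 := by
    rw [hx]
    exact Real.rpow_inv_natCast_pow (by positivity) (by omega)
  have hx0 : 0 ≤ x := by rw [hx]; positivity
  have hx2 : 2 ≤ x := by
    by_contra hlt
    push Not at hlt
    have h3 : x ^ m < 2 ^ m := pow_lt_pow_left₀ hlt hx0 (by omega)
    rw [hxm, div_lt_iff₀ hA1] at h3
    nlinarith
  set τ : ℕ := ⌊x⌋₊ with hτ
  have hτx : (τ : ℝ) ≤ x := Nat.floor_le hx0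
  have hτ2 : 2 ≤ τ := Nat.le_floor (by exact_mod_cast hx2)
  have hτ2R : (2 : ℝ) ≤ τ := by exact_mod_cast hτ2
  have hxτ : x ≤ 2 * τ := by
    have := Nat.lt_floor_add_one x
    rw [← hτ] at this
    linarith
  have hn0 : (0 : ℝ) ≤ (I.card : ℝ) := Nat.cast_nonneg _
  have hN0 : (0 : ℝ) ≤ (P.card : ℝ) := Nat.cast_nonneg _
  have hτm : A1 * (τ : ℝ) ^ (m + 1 - 1) ≤ ρ := by
    rw [Nat.add_sub_cancel]
    have h3 : (τ : ℝ) ^ m ≤ x ^ m := pow_le_pow_left₀ (by positivity) hτx m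
    rw [hxm, le_div_iff₀ hA1] at h3
    linarith
  rcases le_or_gt τ P.card with hcase | hcase
  · have h3 := hcore I P H V τ ρ hS hτ2 hcase hτm hH hV
    -- the exponent
    have he : ((2 * ((m + 1 : ℕ) : ℝ) - 1) / (((m + 1 : ℕ) : ℝ) - 1) : ℝ) = 2 + (m : ℝ)⁻¹ := by
      have hm0 : (m : ℝ) ≠ 0 := by positivity
      push_cast
      rw [show (2 * ((m : ℝ) + 1) - 1) = 2 * m + 1 by ring, show ((m : ℝ) + 1 - 1) = m by ring,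
        div_eq_iff hm0, add_mul, inv_mul_cancel₀ hm0]
    have hpow : ρ ^ ((2 * ((m + 1 : ℕ) : ℝ) - 1) / (((m + 1 : ℕ) : ℝ) - 1) : ℝ) =
        ρ ^ 2 * ρ ^ ((m : ℝ)⁻¹) := by
      rw [he, Real.rpow_add hρ0]
      congr 1
      exact_mod_cast Real.rpow_natCast ρ 2
    have hρx : ρ ^ ((m : ℝ)⁻¹) ≤ x * A1 := by
      have e1 : ρ = (ρ / A1) * A1 := by field_simp
      have e2 : ρ ^ ((m : ℝ)⁻¹) = x * A1 ^ ((m : ℝ)⁻¹) := by
        conv_lhs => rw [e1]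
        rw [Real.mul_rpow (by positivity) hA1.le]
      rw [e2]
      have e3 : A1 ^ ((m : ℝ)⁻¹) ≤ A1 ^ (1 : ℝ) :=
        Real.rpow_le_rpow_of_exponent_le h1 (inv_le_one_of_one_le₀ hmR)
      rw [Real.rpow_one] at e3
      exact mul_le_mul_of_nonneg_left e3 hx0
    have hpos : 0 < ρ ^ ((2 * ((m + 1 : ℕ) : ℝ) - 1) / (((m + 1 : ℕ) : ℝ) - 1) : ℝ) := by positivity
    have key : (P.card : ℝ) * ρ ^ ((2 * ((m + 1 : ℕ) : ℝ) - 1) / (((m + 1 : ℕ) : ℝ) - 1) : ℝ) ≤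
        2 * A1 ^ 2 * (I.card : ℝ) ^ 2 := by
      rw [hpow]
      calc (P.card : ℝ) * (ρ ^ 2 * ρ ^ ((m : ℝ)⁻¹))
          ≤ (P.card : ℝ) * (ρ ^ 2 * (x * A1)) := by gcongr
        _ ≤ (P.card : ℝ) * (ρ ^ 2 * ((2 * τ) * A1)) := by gcongr
        _ = 2 * A1 * ((P.card : ℝ) * τ * ρ ^ 2) := by ring
        _ ≤ 2 * A1 * (A1 * (I.card : ℝ) ^ 2) := by gcongr
        _ = 2 * A1 ^ 2 * (I.card : ℝ) ^ 2 := by ring
    have h4 : (P.card : ℝ) ≤ 2 * A1 ^ 2 * ((I.card : ℝ) ^ 2 /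
        ρ ^ ((2 * ((m + 1 : ℕ) : ℝ) - 1) / (((m + 1 : ℕ) : ℝ) - 1) : ℝ)) := by
      rw [← mul_div_assoc, le_div_iff₀ hpos]
      exact key
    have h5 : 0 ≤ (I.card : ℝ) ^ 2 /
        ρ ^ ((2 * ((m + 1 : ℕ) : ℝ) - 1) / (((m + 1 : ℕ) : ℝ) - 1) : ℝ) := by positivity
    have h6 : 0 ≤ (I.card : ℝ) / ρ := by positivity
    have h7 : 0 ≤ A1 * 2 ^ m + 2 * (m : ℝ) := by positivity
    nlinarith [mul_nonneg h7 h5, mul_nonneg h7 h6, mul_nonneg hA1sq h6]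
  · have h3 := kst I P H (m + 1) C (by omega) hS.fewH
    have h4 : ρ * (P.card : ℝ) ≤ ((∑ p ∈ P, (I.filter (fun i => p ∈ H i)).card : ℕ) : ℝ) := by
      push_cast
      have : ∑ _p ∈ P, ρ ≤ ∑ p ∈ P, ((I.filter (fun i => p ∈ H i)).card : ℝ) :=
        Finset.sum_le_sum hH
      rw [Finset.sum_const, nsmul_eq_mul] at this
      linarith
    have h5 : (((m + 1 - 1) * (I.filter (fun i => ∃ p ∈ P, p ∈ H i)).card + C * P.card ^ (m + 1) : ℕ) : ℝ)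
        ≤ m * (I.card : ℝ) + C * (P.card : ℝ) ^ (m + 1) := by
      rw [Nat.add_sub_cancel]
      push_cast
      have : ((I.filter (fun i => ∃ p ∈ P, p ∈ H i)).card : ℝ) ≤ I.card := by
        exact_mod_cast Finset.card_filter_le _ _
      gcongr
    have h6 : ρ * (P.card : ℝ) ≤ m * (I.card : ℝ) + C * (P.card : ℝ) ^ (m + 1) := by
      refine h4.trans (le_trans ?_ h5)
      exact_mod_cast h3
    have h7 : (C : ℝ) * (P.card : ℝ) ^ m ≤ ρ / 2 := by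
      have e1 : (P.card : ℝ) ^ m ≤ (τ : ℝ) ^ m := by
        have : (P.card : ℝ) ≤ τ := by exact_mod_cast hcase.le
        gcongr
      rw [Nat.add_sub_cancel] at hτm
      have hC0 : (0 : ℝ) ≤ C := Nat.cast_nonneg _
      have e2 : (0 : ℝ) ≤ (τ : ℝ) ^ m := by positivity
      calc (C : ℝ) * (P.card : ℝ) ^ m ≤ C * (τ : ℝ) ^ m := by gcongr
        _ ≤ A1 / 2 * (τ : ℝ) ^ m := by
            apply mul_le_mul_of_nonneg_right _ e2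
            linarith
        _ ≤ ρ / 2 := by linarith
    have h8 : (C : ℝ) * (P.card : ℝ) ^ (m + 1) ≤ ρ / 2 * P.card := by
      rw [pow_succ, ← mul_assoc]
      exact mul_le_mul_of_nonneg_right h7 hN0
    have h9 : (P.card : ℝ) ≤ 2 * m * ((I.card : ℝ) / ρ) := by
      rw [← mul_div_assoc, le_div_iff₀ hρ0]
      nlinarith
    have h10 : 0 ≤ (I.card : ℝ) ^ 2 /
        ρ ^ ((2 * ((m + 1 : ℕ) : ℝ) - 1) / (((m + 1 : ℕ) : ℝ) - 1) : ℝ) := by positivity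
    have h11 : 0 ≤ (I.card : ℝ) / ρ := by positivity
    have h12 : 0 ≤ A1 * 2 ^ m + 2 * A1 ^ 2 := by positivity
    have h13 : 0 ≤ A1 * 2 ^ m + 2 * A1 ^ 2 + 2 * (m : ℝ) := by positivity
    nlinarith [mul_nonneg h12 h11, mul_nonneg h13 h10]

end CFS
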