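import Pool.Agent.CFS.SplA
import Pool.Agent.CFS.SplB

/-!
# Module CFS-Split: the splitting lemma

A finite set `F` with slopes `a f` in a finite-dimensional space `V`, points `p ∈ P` with finite sets
`S p ⊆ F`; no slope has half of `F`.  Then there are a centre `v`, `R > 0`, `δ > 0`, patches
(`pat f < J`, of slope diameter `≤ δ` among the near flats) and classes `cls` (each with at most half
of `F`), and all but a tenth of the points are of one of three kinds.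

Plan.  Constants: `T = 1000`, `W ≥ 1` given; cover of the unit ball with `ε1 = 1/(8 W^T)`: `J1`, `c1`
(`cover_unit`); `κ = 1/(24 (20 J1 + 1))`; cover with `ε2 = κ/(2 (M+2) W^T)`: `J2`, `c2`; `J = J2`
(make sure `J2 ≥ 1`: it is, as the unit ball is nonempty); `ζ = 1/(25 * J2)`, so `ζ ≤ 1/25`.
Given `F, a, P, S`: `min_radius` gives `s, f0`; `v = a f0`; `ring_pig` (with `w = W`) gives `t < T`;
`R = W^t s` (`s ≤ R ≤ W^T s`).  near: `‖a f - v‖ ≤ R`; far: `W R < ‖a f - v‖`.  `E1` = the bad set of `ring_pig`.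
`δ = κ s/(M + 2)`.  Patches: for near `f`, `B = R⁻¹ • (a f - v)` has norm `≤ 1`; `pat f` = some `i < J2` with
`‖B - c2 i‖ ≤ ε2` (0 for the other `f`); same patch → `‖a f - a f'‖ ≤ 2 ε2 R ≤ δ`.
Centres: `C i = v + R • c1 i`; every near `a f` is within `ε1 R ≤ s/8` of some `C i`, `i < J1`.
Heavy patch at `p`: `25 * J2 * #{f ∈ S p near, pat f = i} ≥ |S p|`, (`ζ |S p| ≤ #`).
`b p` = slope of some near `f ∈ S p` in a heavy patch if there is one (`0` otherwise).
`cut_pig` with `J1, κ, b, C` gives `r ∈ [s/8, s/4]`; `E2` = the cut set.  `Ex = E1 ∪ E2`: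
`10 |Ex| ≤ |P|`.
Classes: `cls f = 0` if far; `1` if neither near nor far; `i + 2` if near where `i < J1` is the least index
with `‖a f - C i‖ ≤ r` (exists as `r ≥ s/8`).  Each class has at most half of `F`: for `0` and `1` the flats
are outside the ball of radius `s ≤ R` around `v` which contains at least half of `F`; for `i + 2`
`ball_small`.
(The counting at one point is lemma `dich` of `SplB`.)
Let `p ∈ P \ Ex`, `m = |S p|`; if `m = 0` the third alternative holds trivially.  If not (first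
alternative): (a) near count `< ζ m ≤ m/25`: the ring count is `≤ m/50`, so the far count is
`≥ (1 - 3/50) m ≥ 9m/10`: third alternative with class `0`.  (b) far count `< m/25`: near count
`≥ 47m/50`.  The near flats in non-heavy patches are `< J2 * m/(25 J2) = m/25`, so the near flats in
heavy patches are `≥ 45m/50 = 9m/10 > 0`; `b p = a f1`, `f1` such a flat.
If the second alternative fails then no two heavy patches `i, i'` at `p` are separated
(separated: `M δ ≤ ‖a f - a f'‖` for all near `f f' ∈ F` in `i`, `i'`), so for each near `f` in a heavy patch there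
are `g, g'` in the patches of `f`, `f1` with `‖a g - a g'‖ < M δ`, so
`‖a f - a f1‖ < (M + 2) δ = κ s`.  As `p` is not cut: for all `i < J1`,
`‖a f - C i‖ ≤ r ↔ ‖a f1 - C i‖ ≤ r`; so `cls f = cls f1`: third alternative.
-/

namespace CFS

open Finset Classical

private theorem half_small {φ : Type*} (F : Finset φ) (q q' : φ → Prop) [DecidablePred q]
    [DecidablePred q']
    (h : F.card ≤ 2 * (F.filter q).card) (hd : ∀ f ∈ F, q f → ¬ q' f) :
    2 * (F.filter q').card ≤ F.card := by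
  have h1 : Disjoint (F.filter q) (F.filter q') := by
    rw [Finset.disjoint_left]
    intro f hf hf'
    rw [Finset.mem_filter] at hf hf'
    exact hd f hf.1 hf.2 hf'.2
  have h2 := Finset.card_union_of_disjoint h1
  have h3 : (F.filter q ∪ F.filter q').card ≤ F.card :=
    Finset.card_le_card (Finset.union_subset (Finset.filter_subset _ _) (Finset.filter_subset _ _))
  omega

theorem split_lemma (V : Type*) [NormedAddCommGroup V] [NormedSpace ℝ V] [FiniteDimensional ℝ V]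
    (M w : ℝ) (hM : 0 ≤ M) (hw : 1 ≤ w) :
    ∃ (J : ℕ) (ζ : ℝ), 0 < ζ ∧ ζ ≤ 1 ∧
    ∀ {φ X : Type} (F : Finset φ) (a : φ → V) (P : Finset X) (S : X → Finset φ),
      (∀ p ∈ P, S p ⊆ F) →
      (∀ v : V, 2 * (F.filter (fun f => a f = v)).card < F.card) →
      ∃ (v : V) (R δ : ℝ) (pat : φ → ℕ) (cls : φ → ℕ) (Ex : Finset X),
        0 < R ∧ 0 < δ ∧ (∀ f ∈ F, pat f < J) ∧
        (∀ f ∈ F, ∀ g ∈ F, ‖a f - v‖ ≤ R → ‖a g - v‖ ≤ R → pat f = pat g → ‖a f - a g‖ ≤ δ) ∧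
        (∀ c : ℕ, 2 * (F.filter (fun f => cls f = c)).card ≤ F.card) ∧
        Ex ⊆ P ∧ 10 * Ex.card ≤ P.card ∧
        ∀ p ∈ P, p ∉ Ex →
          (ζ * (S p).card ≤ (((S p).filter (fun f => ‖a f - v‖ ≤ R)).card : ℝ) ∧
            ζ * (S p).card ≤ (((S p).filter (fun f => w * R < ‖a f - v‖)).card : ℝ)) ∨
          (∃ i < J, ∃ i' < J,
            (∀ f ∈ F, ∀ g ∈ F, ‖a f - v‖ ≤ R → ‖a g - v‖ ≤ R → pat f = i → pat g = i' →
              M * δ ≤ ‖a f - a g‖) ∧
            ζ * (S p).card ≤ (((S p).filter (fun f => ‖a f - v‖ ≤ R ∧ pat f = i)).card : ℝ) ∧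
            ζ * (S p).card ≤ (((S p).filter (fun f => ‖a f - v‖ ≤ R ∧ pat f = i')).card : ℝ)) ∨
          (∃ c : ℕ, 9 * (S p).card ≤ 10 * ((S p).filter (fun f => cls f = c)).card) := by
  have hwT : 0 < w ^ 1000 := by positivity
  obtain ⟨J1, c1, hc1⟩ := cover_unit V (1 / (8 * w ^ 1000)) (by positivity)
  obtain ⟨κ, hκ⟩ : ∃ κ : ℝ, κ = 1 / (24 * (20 * (J1 : ℝ) + 1)) := ⟨_, rfl⟩
  have hκ0 : 0 < κ := by rw [hκ]; positivity
  obtain ⟨J2, c2, hc2⟩ := cover_unit V (κ / (2 * (M + 2) * w ^ 1000)) (by positivity)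
  have hJ2 : 1 ≤ J2 := by
    obtain ⟨i, hi, _⟩ := hc2 0 (by simp)
    omega
  have hJ2' : (1 : ℝ) ≤ (J2 : ℝ) := by exact_mod_cast hJ2
  refine ⟨J2, 1 / (25 * (J2 : ℝ)), by positivity, ?_, ?_⟩
  · rw [div_le_one (by positivity)]
    linarith
  obtain ⟨ζ, hζ⟩ : ∃ ζ : ℝ, ζ = 1 / (25 * (J2 : ℝ)) := ⟨_, rfl⟩
  rw [← hζ]
  intro φ X F a P S hS hatom
  obtain ⟨s, hs, f0, hf0, hf0c, hsm⟩ := min_radius F a hatom
  obtain ⟨t, ht, hring⟩ := ring_pig P S a (a f0) s w hs hw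
  obtain ⟨v, hv⟩ : ∃ v : V, v = a f0 := ⟨_, rfl⟩
  rw [← hv] at hf0c hring
  obtain ⟨R, hR⟩ : ∃ R : ℝ, R = w ^ t * s := ⟨_, rfl⟩
  have hwR : w ^ (t + 1) * s = w * R := by rw [hR]; ring
  rw [← hR, hwR] at hring
  have hsR : s ≤ R := by
    rw [hR]
    exact le_mul_of_one_le_left hs.le (one_le_pow₀ hw)
  have hR0 : 0 < R := hs.trans_le hsR
  have hRT : R ≤ w ^ 1000 * s := by
    rw [hR]
    exact mul_le_mul_of_nonneg_right (pow_le_pow_right₀ hw ht.le) hs.le
  obtain ⟨δ, hδ⟩ : ∃ δ : ℝ, δ = κ * s / (M + 2) := ⟨_, rfl⟩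
  have hδ0 : 0 < δ := by rw [hδ]; positivity
  have hδe : (M + 2) * δ = κ * s := by rw [hδ]; field_simp
  -- patches
  have hpatex : ∀ f : φ, ∃ i, i < J2 ∧
      (‖a f - v‖ ≤ R → ‖R⁻¹ • (a f - v) - c2 i‖ ≤ κ / (2 * (M + 2) * w ^ 1000)) := by
    intro f
    by_cases hf : ‖a f - v‖ ≤ R
    · obtain ⟨i, hi, hi'⟩ := hc2 (R⁻¹ • (a f - v)) (by
        rw [norm_smul, norm_inv, Real.norm_of_nonneg hR0.le, inv_mul_le_iff₀ hR0, mul_one]
        exact hf)
      exact ⟨i, hi, fun _ => hi'⟩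
    · exact ⟨0, hJ2, fun h => absurd h hf⟩
  choose pat hpatJ hpat using hpatex
  have hnrm : ∀ x : V, ∀ c : V, ‖x - (v + R • c)‖ = R * ‖R⁻¹ • (x - v) - c‖ := by
    intro x c
    have e : x - (v + R • c) = R • (R⁻¹ • (x - v) - c) := by
      rw [smul_sub, smul_smul, mul_inv_cancel₀ hR0.ne', one_smul]
      abel
    rw [e, norm_smul, Real.norm_of_nonneg hR0.le]
  have hsame : ∀ f g : φ, ‖a f - v‖ ≤ R → ‖a g - v‖ ≤ R → pat f = pat g → ‖a f - a g‖ ≤ δ := by
    intro f g hf hg hfg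
    have h1 := hpat f hf
    have h2 := hpat g hg
    rw [← hfg] at h2
    have h3 : ‖a f - a g‖ ≤ R * (κ / (2 * (M + 2) * w ^ 1000)) + R * (κ / (2 * (M + 2) * w ^ 1000)) := by
      calc ‖a f - a g‖ = ‖(a f - (v + R • c2 (pat f))) - (a g - (v + R • c2 (pat f)))‖ := by
            congr 1; abel
        _ ≤ ‖a f - (v + R • c2 (pat f))‖ + ‖a g - (v + R • c2 (pat f))‖ := norm_sub_le _ _
        _ ≤ _ := by
            rw [hnrm, hnrm]
            exact add_le_add (mul_le_mul_of_nonneg_left h1 hR0.le) (mul_le_mul_of_nonneg_left h2 hR0.le)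
    refine h3.trans ?_
    have h4 : R * (κ / (2 * (M + 2) * w ^ 1000)) + R * (κ / (2 * (M + 2) * w ^ 1000)) =
        R / w ^ 1000 * (κ / (M + 2)) := by
      field_simp
      ring
    have h5 : δ = s * (κ / (M + 2)) := by rw [hδ]; ring
    rw [h4, h5]
    refine mul_le_mul_of_nonneg_right ?_ (by positivity)
    rw [div_le_iff₀ hwT]
    linarith
  -- centres
  have hcen : ∀ f : φ, ‖a f - v‖ ≤ R → ∃ i, i < J1 ∧ ‖a f - (v + R • c1 i)‖ ≤ s / 8 := by
    intro f hf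
    obtain ⟨i, hi, hi'⟩ := hc1 (R⁻¹ • (a f - v)) (by
      rw [norm_smul, norm_inv, Real.norm_of_nonneg hR0.le, inv_mul_le_iff₀ hR0, mul_one]
      exact hf)
    refine ⟨i, hi, ?_⟩
    rw [hnrm]
    calc R * ‖R⁻¹ • (a f - v) - c1 i‖ ≤ R * (1 / (8 * w ^ 1000)) :=
          mul_le_mul_of_nonneg_left hi' hR0.le
      _ ≤ (w ^ 1000 * s) * (1 / (8 * w ^ 1000)) :=
          mul_le_mul_of_nonneg_right hRT (by positivity)
      _ = s / 8 := by field_simp
  have hbex : ∀ p : X, ∃ b : V, (∃ f ∈ S p, ‖a f - v‖ ≤ R ∧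
      ζ * (S p).card ≤ (((S p).filter (fun g => ‖a g - v‖ ≤ R ∧ pat g = pat f)).card : ℝ)) →
      ∃ f ∈ S p, ‖a f - v‖ ≤ R ∧
      ζ * (S p).card ≤ (((S p).filter (fun g => ‖a g - v‖ ≤ R ∧ pat g = pat f)).card : ℝ) ∧
      b = a f := by
    intro p
    by_cases h : ∃ f ∈ S p, ‖a f - v‖ ≤ R ∧
      ζ * (S p).card ≤ (((S p).filter (fun g => ‖a g - v‖ ≤ R ∧ pat g = pat f)).card : ℝ)
    · obtain ⟨f, h1, h2, h3⟩ := h
      exact ⟨a f, fun _ => ⟨f, h1, h2, h3, rfl⟩⟩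
    · exact ⟨0, fun h' => absurd h' h⟩
  choose b hb using hbex
  obtain ⟨r, hr1, hr2, hcut⟩ := cut_pig J1 κ hκ P b (fun i => v + R • c1 i) s hs
  obtain ⟨cls, hcls⟩ : ∃ cls : φ → ℕ, cls = fun f =>
      if w * R < ‖a f - v‖ then 0 else if ‖a f - v‖ ≤ R then
        sInf {i | i < J1 ∧ ‖a f - (v + R • c1 i)‖ ≤ r} + 2 else 1 := ⟨_, rfl⟩
  have hRw : R ≤ w * R := le_mul_of_one_le_left hR0.le hw
  have hclsfar : ∀ f, w * R < ‖a f - v‖ → cls f = 0 := by
    intro f hf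
    rw [hcls]
    exact if_pos hf
  have hclsnear : ∀ f, ‖a f - v‖ ≤ R →
      cls f = sInf {i | i < J1 ∧ ‖a f - (v + R • c1 i)‖ ≤ r} + 2 := by
    intro f hf
    rw [hcls]
    show (if w * R < ‖a f - v‖ then 0 else if ‖a f - v‖ ≤ R then
        sInf {i | i < J1 ∧ ‖a f - (v + R • c1 i)‖ ≤ r} + 2 else 1) = _
    rw [if_neg (not_lt.2 (hf.trans hRw)), if_pos hf]
  have hcls0 : ∀ f, cls f = 0 → w * R < ‖a f - v‖ := by
    intro f hf
    by_contra hn
    rw [hcls] at hf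
    change (if w * R < ‖a f - v‖ then 0 else if ‖a f - v‖ ≤ R then
        sInf {i | i < J1 ∧ ‖a f - (v + R • c1 i)‖ ≤ r} + 2 else 1) = 0 at hf
    rw [if_neg hn] at hf
    split_ifs at hf
  have hcls1 : ∀ f, cls f = 1 → ¬ ‖a f - v‖ ≤ R := by
    intro f hf hn
    rw [hclsnear f hn] at hf
    omega
  have hcls2 : ∀ f i, cls f = i + 2 → ‖a f - (v + R • c1 i)‖ ≤ r := by
    intro f i hf
    by_cases hfar : w * R < ‖a f - v‖
    · rw [hclsfar f hfar] at hf
      omega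
    by_cases hnear : ‖a f - v‖ ≤ R
    · rw [hclsnear f hnear] at hf
      have h1 : sInf {i | i < J1 ∧ ‖a f - (v + R • c1 i)‖ ≤ r} = i := by omega
      obtain ⟨i', hi', hi''⟩ := hcen f hnear
      have h2 : sInf {i | i < J1 ∧ ‖a f - (v + R • c1 i)‖ ≤ r} ∈
          {i | i < J1 ∧ ‖a f - (v + R • c1 i)‖ ≤ r} :=
        Nat.sInf_mem ⟨i', hi', hi''.trans hr1⟩
      rw [h1] at h2
      exact h2.2
    · rw [hcls] at hf
      change (if w * R < ‖a f - v‖ then 0 else if ‖a f - v‖ ≤ R then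
        sInf {i | i < J1 ∧ ‖a f - (v + R • c1 i)‖ ≤ r} + 2 else 1) = i + 2 at hf
      rw [if_neg hfar, if_neg hnear] at hf
      omega
  have hhalf : F.card ≤ 2 * (F.filter (fun f => ‖a f - v‖ ≤ R)).card := by
    refine hf0c.trans (Nat.mul_le_mul_left 2 (Finset.card_le_card ?_))
    intro f hf
    rw [Finset.mem_filter] at hf ⊢
    exact ⟨hf.1, hf.2.trans hsR⟩
  obtain ⟨E1, hE1⟩ : ∃ E1 : Finset X, E1 = P.filter (fun p => (S p).card < 50 * ((S p).filter
      (fun f => R < ‖a f - v‖ ∧ ‖a f - v‖ ≤ w * R)).card) := ⟨_, rfl⟩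
  obtain ⟨E2, hE2⟩ : ∃ E2 : Finset X, E2 = P.filter (fun p => ∃ i < J1,
      |‖b p - (v + R • c1 i)‖ - r| ≤ κ * s) := ⟨_, rfl⟩
  rw [← hE1] at hring
  have hcut' : 20 * E2.card ≤ P.card := by rw [hE2]; exact hcut
  refine ⟨v, R, δ, pat, cls, E1 ∪ E2, hR0, hδ0, fun f _ => hpatJ f,
    fun f _ g _ hf hg hfg => hsame f g hf hg hfg, ?_, ?_, ?_, ?_⟩
  · intro c
    rcases c with _ | _ | i
    · exact half_small F _ _ hhalf fun f _ hf h0 => not_lt.2 (hf.trans hRw) (hcls0 f h0)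
    · exact half_small F _ _ hhalf fun f _ hf h1 => hcls1 f h1 hf
    · refine le_trans (Nat.mul_le_mul_left 2 (Finset.card_le_card ?_))
        (ball_small F a s hs hsm (v + R • c1 i) r hr2)
      intro f hf
      rw [Finset.mem_filter] at hf ⊢
      exact ⟨hf.1, hcls2 f i hf.2⟩
  · rw [hE1, hE2]
    exact Finset.union_subset (Finset.filter_subset _ _) (Finset.filter_subset _ _)
  · have h1 := Finset.card_union_le E1 E2
    omega
  intro p hpP hpE
  have hpE1 : p ∉ E1 := fun h => hpE (Finset.mem_union_left _ h)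
  have hpE2 : p ∉ E2 := fun h => hpE (Finset.mem_union_right _ h)
  have hring' : 50 * ((S p).filter (fun f => ¬ ‖a f - v‖ ≤ R ∧ ¬ w * R < ‖a f - v‖)).card ≤ (S p).card := by
    by_contra hn
    apply hpE1
    rw [hE1, Finset.mem_filter]
    refine ⟨hpP, ?_⟩
    have h1 : ((S p).filter (fun f => ¬ ‖a f - v‖ ≤ R ∧ ¬ w * R < ‖a f - v‖)) =
        ((S p).filter (fun f => R < ‖a f - v‖ ∧ ‖a f - v‖ ≤ w * R)) := by
      refine Finset.filter_congr fun f _ => ?_
      rw [not_le, not_lt]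
    rw [← h1]
    omega
  rcases dich (S p) (fun f => ‖a f - v‖ ≤ R) (fun f => w * R < ‖a f - v‖) pat J2 ζ hJ2 hζ
    (fun f hf => not_lt.2 (hf.trans hRw)) (fun f _ _ => hpatJ f) hring' with h | h | h
  · exact Or.inl h
  · refine Or.inr (Or.inr ⟨0, h.trans (Nat.mul_le_mul_left 10 (Finset.card_le_card ?_))⟩)
    intro f hf
    rw [Finset.mem_filter] at hf ⊢
    exact ⟨hf.1, hclsfar f hf.2⟩
  · by_cases h0 : (S p).card = 0
    · exact Or.inr (Or.inr ⟨0, by rw [h0]; omega⟩)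
    have hex : ∃ f ∈ S p, ‖a f - v‖ ≤ R ∧
        ζ * (S p).card ≤ (((S p).filter (fun g => ‖a g - v‖ ≤ R ∧ pat g = pat f)).card : ℝ) := by
      have h1 : 0 < ((S p).filter (fun f => ‖a f - v‖ ≤ R ∧
          ζ * (S p).card ≤ (((S p).filter (fun g => ‖a g - v‖ ≤ R ∧ pat g = pat f)).card : ℝ))).card := by
        omega
      obtain ⟨f, hf⟩ := Finset.card_pos.1 h1
      rw [Finset.mem_filter] at hf
      exact ⟨f, hf.1, hf.2⟩
    obtain ⟨f1, hf1S, hf1n, hf1h, hbf1⟩ := hb p hex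
    by_cases hsec : ∃ i < J2, ∃ i' < J2,
            (∀ f ∈ F, ∀ g ∈ F, ‖a f - v‖ ≤ R → ‖a g - v‖ ≤ R → pat f = i → pat g = i' →
              M * δ ≤ ‖a f - a g‖) ∧
            ζ * (S p).card ≤ (((S p).filter (fun f => ‖a f - v‖ ≤ R ∧ pat f = i)).card : ℝ) ∧
            ζ * (S p).card ≤ (((S p).filter (fun f => ‖a f - v‖ ≤ R ∧ pat f = i')).card : ℝ)
    · exact Or.inr (Or.inl hsec)
    refine Or.inr (Or.inr ⟨cls f1, h.trans (Nat.mul_le_mul_left 10 (Finset.card_le_card ?_))⟩)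
    intro f hf
    rw [Finset.mem_filter] at hf ⊢
    obtain ⟨hfS, hfn, hfh⟩ := hf
    refine ⟨hfS, ?_⟩
    have hclose : ‖a f - a f1‖ < κ * s := by
      have hns : ¬ ∀ g ∈ F, ∀ g' ∈ F, ‖a g - v‖ ≤ R → ‖a g' - v‖ ≤ R → pat g = pat f →
          pat g' = pat f1 → M * δ ≤ ‖a g - a g'‖ := fun hall =>
        hsec ⟨pat f, hpatJ f, pat f1, hpatJ f1, hall, hfh, hf1h⟩
      push Not at hns
      obtain ⟨g, hg, g', hg', hgn, hgn', hgp, hgp', hlt⟩ := hns
      have h1 := hsame f g hfn hgn hgp.symm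
      have h2 := hsame g' f1 hgn' hf1n hgp'
      calc ‖a f - a f1‖ = ‖(a f - a g) + (a g - a g') + (a g' - a f1)‖ := by congr 1; abel
        _ ≤ ‖(a f - a g) + (a g - a g')‖ + ‖a g' - a f1‖ := norm_add_le _ _
        _ ≤ ‖a f - a g‖ + ‖a g - a g'‖ + ‖a g' - a f1‖ := by
            have := norm_add_le (a f - a g) (a g - a g')
            linarith
        _ < κ * s := by rw [← hδe]; linarith
    have hset : {i | i < J1 ∧ ‖a f - (v + R • c1 i)‖ ≤ r} =
        {i | i < J1 ∧ ‖a f1 - (v + R • c1 i)‖ ≤ r} := by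
      ext i
      rw [Set.mem_ofPred_eq, Set.mem_ofPred_eq]
      refine and_congr_right fun hi => ?_
      have h1 : κ * s < |‖a f1 - (v + R • c1 i)‖ - r| := by
        by_contra hn
        apply hpE2
        rw [hE2, Finset.mem_filter]
        refine ⟨hpP, i, hi, ?_⟩
        rw [hbf1]
        exact not_lt.1 hn
      have h2 : |‖a f - (v + R • c1 i)‖ - ‖a f1 - (v + R • c1 i)‖| ≤ ‖a f - a f1‖ := by
        have h3 := abs_norm_sub_norm_le (a f - (v + R • c1 i)) (a f1 - (v + R • c1 i))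
        have e : a f - (v + R • c1 i) - (a f1 - (v + R • c1 i)) = a f - a f1 := by abel
        rwa [e] at h3
      have h4 := abs_le.1 h2
      constructor
      · intro h5
        by_contra h6
        rw [abs_of_pos (by linarith [not_le.1 h6])] at h1
        linarith [h4.1]
      · intro h5
        rw [abs_of_nonpos (by linarith)] at h1
        linarith [h4.2]
    rw [hclsnear f hfn, hclsnear f1 hf1n, hset]

end CFS
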