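import Pool.Agent.CFS.RichK
import Pool.Agent.CFS.SumF

/-!
# Module CFS-ThmA: Theorem A (two-sided incidences)

Plan.  `μ p = min #{i ∈ I : p ∈ H i} #{i ∈ I : p ∈ V i}`.  `sum_final k hk A0 t0` with `A0 = A + k + C`,
`t0 = A` (`A` from `rich_k`): for `t ≥ A` apply `rich_k` to `P.filter (t ≤ μ ·)` (a `System` on a subset
of `P`); second hypothesis: `μ p ≤ #{i : p ∈ H i}` and `kst` for `G = P'`
(`(I.filter ...).card ≤ I.card = n`).
-/

noncomputable section

namespace CFS

open Finset Classical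

private theorem sys_mono {l k C : ℕ} {ι : Type*} {I : Finset ι} {P P' : Finset (W l)}
    {H V : ι → Set (W l)} (h : System l k C I P H V) (hP : P' ⊆ P) : System l k C I P' H V where
  hor := fun i hi p hp q hq => h.hor i hi p (hP hp) q (hP hq)
  ver := fun i hi p hp q hq => h.ver i hi p (hP hp) q (hP hq)
  fewH := fun T hT hc => h.fewH T (hT.trans hP) hc
  fewV := fun T hT hc => h.fewV T (hT.trans hP) hc

theorem two_sided (l k C : ℕ) (hk : 2 ≤ k) : ∃ A : ℝ, 0 ≤ A ∧
    ∀ {ι : Type} (I : Finset ι) (P : Finset (W l)) (H V : ι → Set (W l)),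
      System l k C I P H V →
      ((∑ p ∈ P, min (I.filter (fun i => p ∈ H i)).card (I.filter (fun i => p ∈ V i)).card : ℕ) : ℝ) ≤
        A * ((P.card : ℝ) ^ ((k : ℝ) / (2 * k - 1)) *
          (I.card : ℝ) ^ ((2 * k - 2 : ℝ) / (2 * k - 1)) + P.card + I.card) := by
  obtain ⟨A1, hA1, hR⟩ := rich_k l k C hk
  obtain ⟨A, hA, hF⟩ := sum_final k hk (A1 + k + C) A1
  refine ⟨A, hA, fun {ι} I P H V hS => ?_⟩
  refine hF P (fun p => min (I.filter (fun i => p ∈ H i)).card (I.filter (fun i => p ∈ V i)).card)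
    I.card ?_ ?_
  · intro t ht ht0
    have h1 := hR I (P.filter fun p => t ≤ ((min (I.filter (fun i => p ∈ H i)).card
      (I.filter (fun i => p ∈ V i)).card : ℕ) : ℝ)) H V t (sys_mono hS (Finset.filter_subset _ _))
      ht ?_ ?_
    · refine h1.trans (mul_le_mul_of_nonneg_right ?_ ?_)
      · have hk0 : (0 : ℝ) ≤ k := Nat.cast_nonneg _
        have hC0 : (0 : ℝ) ≤ C := Nat.cast_nonneg _
        linarith
      · positivity
    · intro p hp
      exact (Finset.mem_filter.1 hp).2.trans (by exact_mod_cast min_le_left _ _)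
    · intro p hp
      exact (Finset.mem_filter.1 hp).2.trans (by exact_mod_cast min_le_right _ _)
  · intro P' hP'
    have h1 : ∑ p ∈ P', min (I.filter (fun i => p ∈ H i)).card (I.filter (fun i => p ∈ V i)).card ≤
        (k - 1) * I.card + C * P'.card ^ k := by
      refine (Finset.sum_le_sum fun p _ => min_le_left _ _).trans ?_
      refine (kst I P' H k C (by omega) (sys_mono hS hP').fewH).trans ?_
      exact Nat.add_le_add_right (Nat.mul_le_mul_left _ (Finset.card_filter_le _ _)) _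
    have h2 : ((∑ p ∈ P', min (I.filter (fun i => p ∈ H i)).card
        (I.filter (fun i => p ∈ V i)).card : ℕ) : ℝ) ≤
        (((k - 1) * I.card + C * P'.card ^ k : ℕ) : ℝ) := by exact_mod_cast h1
    refine h2.trans ?_
    push_cast
    have hk1 : (((k - 1 : ℕ)) : ℝ) ≤ A1 + k + C := by
      have h3 : (((k - 1 : ℕ)) : ℝ) ≤ k := by exact_mod_cast Nat.sub_le k 1
      have hC0 : (0 : ℝ) ≤ C := Nat.cast_nonneg _
      linarith
    have hC1 : (C : ℝ) ≤ A1 + k + C := by
      have hk0 : (0 : ℝ) ≤ k := Nat.cast_nonneg _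
      linarith
    have h4 := mul_le_mul_of_nonneg_right hk1 (Nat.cast_nonneg I.card : (0 : ℝ) ≤ I.card)
    have h5 := mul_le_mul_of_nonneg_right hC1 (by positivity : (0 : ℝ) ≤ (P'.card : ℝ) ^ k)
    rw [mul_add]
    exact add_le_add h4 h5

end CFS
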