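import Pool.Agent.CFS.Induct
import Pool.Agent.CFS.SumF
import Pool.Agent.CFS.Kst

/-!
# Module CFS-ThmC: incidences with a conformal family of flats, sup norm

Plan.  `K' = max K 1` (a `K`-conformal family is `K'`-conformal: `‖D w‖ * ‖u‖ ≥ 0`).  `A` from
`rich_flats l K'`.  `sum_final 2 (A + 2) 2` with `μ p = #{f ∈ F : Inc p f}`, `n = F.card`:
first hypothesis: `rich_flats` on `P.filter (t ≤ μ ·)`; `((2:ℕ):ℝ) * 2 - 1)/((2:ℕ) - 1) = 3`
(`Real.rpow_natCast` after `norm_num`); second: `kst` with `k = 2`, `C = 1`, `H f = {p | Inc p f}`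
(`hfew` by `inc_unique`: `T = {p, q}`, `Finset.card_eq_two`, `Finset.card_le_one`).
The exponents of the conclusion: `2/(2*2-1) = 2/3`, `(2*2-2)/(2*2-1) = 2/3`.
-/

noncomputable section

namespace CFS

open Finset Classical

private theorem confFam_mono' {l : ℕ} {K K' : ℝ} (h : K ≤ K') {P P' : Finset (W l)}
    (hP : P' ⊆ P) {F : Finset (Fl l)} (hc : ConfFam K P F) : ConfFam K' P' F := by
  intro p hp f hf g hg hfg h1 h2 u w
  refine (hc p (hP hp) f hf g hg hfg h1 h2 u w).trans ?_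
  exact mul_le_mul_of_nonneg_right h (by positivity)

theorem thm_c (l : ℕ) (K : ℝ) : ∃ A : ℝ, 0 ≤ A ∧
    ∀ (F : Finset (Fl l)) (P : Finset (W l)), ConfFam K P F →
      ((∑ p ∈ P, (F.filter (fun f => Inc p f)).card : ℕ) : ℝ) ≤
        A * ((P.card : ℝ) ^ (2 / 3 : ℝ) * (F.card : ℝ) ^ (2 / 3 : ℝ) + P.card + F.card) := by
  obtain ⟨A, hA0, hA⟩ := rich_flats l (max K 1) (le_max_right _ _)
  obtain ⟨A', hA'0, hA'⟩ := sum_final 2 le_rfl (A + 2) 2
  refine ⟨A', hA'0, fun F P hc => ?_⟩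
  have h1 : ∀ t : ℝ, 2 ≤ t → 0 < t →
      ((P.filter (fun p => t ≤ (((F.filter (fun f => Inc p f)).card : ℕ) : ℝ))).card : ℝ) ≤
        (A + 2) * ((F.card : ℝ) ^ 2 / t ^ ((2 * ((2 : ℕ) : ℝ) - 1 : ℝ) / (((2 : ℕ) : ℝ) - 1)) +
          F.card / t) := by
    intro t ht ht0
    have e : (2 * ((2 : ℕ) : ℝ) - 1) / (((2 : ℕ) : ℝ) - 1) = ((3 : ℕ) : ℝ) := by norm_num
    rw [e, Real.rpow_natCast]
    refine (hA F (P.filter (fun p => t ≤ (((F.filter (fun f => Inc p f)).card : ℕ) : ℝ))) t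
      (confFam_mono' (le_max_left _ _) (filter_subset _ _) hc) ht
      (fun p hp => (mem_filter.1 hp).2)).trans ?_
    have hX : 0 ≤ (F.card : ℝ) ^ 2 / t ^ 3 := by positivity
    have hY : 0 ≤ (F.card : ℝ) / t := by positivity
    nlinarith [mul_nonneg hA0 hY]
  have h2 : ∀ P' : Finset (W l), P' ⊆ P →
      ((∑ p ∈ P', (F.filter (fun f => Inc p f)).card : ℕ) : ℝ) ≤
        (A + 2) * ((F.card : ℝ) + (P'.card : ℝ) ^ 2) := by
    intro P' hP'
    have h3 := kst F P' (fun f => {p | Inc p f}) 2 1 (by norm_num) (by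
      intro T hT hT2
      rw [card_eq_two] at hT2
      obtain ⟨p, q, hpq, rfl⟩ := hT2
      rw [card_le_one]
      intro f hf g hg
      rw [mem_filter] at hf hg
      have hp : p ∈ P' := hT (mem_insert_self _ _)
      have hq : q ∈ P' := hT (mem_insert_of_mem (mem_singleton_self _))
      exact inc_unique (K := max K 1) (le_trans zero_le_one (le_max_right _ _))
        (confFam_mono' (le_max_left _ _) (Finset.Subset.refl P) hc) (hP' hp) (hP' hq) hpq hf.1 hg.1
        (hf.2 p (mem_insert_self _ _)) (hf.2 q (mem_insert_of_mem (mem_singleton_self _)))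
        (hg.2 p (mem_insert_self _ _)) (hg.2 q (mem_insert_of_mem (mem_singleton_self _))))
    have h4 : ∑ p ∈ P', (F.filter (fun f => Inc p f)).card ≤ F.card + P'.card ^ 2 := by
      refine h3.trans ?_
      have h5 : (F.filter (fun i => ∃ p ∈ P', p ∈ {p | Inc p i})).card ≤ F.card :=
        card_le_card (filter_subset _ _)
      omega
    have h6 : ((∑ p ∈ P', (F.filter (fun f => Inc p f)).card : ℕ) : ℝ) ≤
        (F.card : ℝ) + (P'.card : ℝ) ^ 2 := by exact_mod_cast h4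
    refine h6.trans ?_
    have hZ : 0 ≤ (F.card : ℝ) + (P'.card : ℝ) ^ 2 := by positivity
    nlinarith [mul_nonneg hA0 hZ]
  have h := hA' P (fun p => (F.filter (fun f => Inc p f)).card) F.card h1 h2
  have e1 : ((2 : ℕ) : ℝ) / (2 * ((2 : ℕ) : ℝ) - 1) = 2 / 3 := by norm_num
  have e2 : (2 * ((2 : ℕ) : ℝ) - 2) / (2 * ((2 : ℕ) : ℝ) - 1) = 2 / 3 := by norm_num
  rw [e1, e2] at h
  exact h

end CFS
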