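import Pool.Agent.CFS.ThmC

/-!
# Module CFS-ThmCE: the theorem for every finite-dimensional normed space

Plan.  `l = Module.finrank ℝ X`, `e : X ≃L[ℝ] (Fin l → ℝ)` (`ContinuousLinearEquiv.ofFinrankEq`,
`Module.finrank_fin_fun`).  Let `c = ‖(e : X →L[ℝ] _)‖ * ‖(e.symm : _ →L[ℝ] X)‖` and `K' = |K| * c²`
(or `max K 0 * c^2`).
Transport: `P' = P.image (fun p => (e p.1, e p.2))`, `F' = F.image (fun f => (e ∘L f.1 ∘L e.symm, e f.2))`,
both maps are injective, incidences correspond: `p.2 = f.1 p.1 + f.2 ↔ e p.2 = e (f.1 (e.symm (e p.1))) + e f.2`.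
Conformality: for `u' = e u`, `w' = e w`, `D' = e ∘ D ∘ e.symm`:
`‖D' u'‖ ‖w'‖ ≤ ‖e‖² ‖D u‖ ‖w‖ ≤ ‖e‖² |K| ‖D w‖ ‖u‖ ≤ ‖e‖² |K| ‖e.symm‖² ‖D' w'‖ ‖u'‖`.
-/

noncomputable section

namespace CFS

open Finset Classical

theorem thm_ce (X : Type) [NormedAddCommGroup X] [NormedSpace ℝ X] [FiniteDimensional ℝ X]
    (K : ℝ) : ∃ A : ℝ, 0 ≤ A ∧
    ∀ (P : Finset (X × X)) (F : Finset ((X →L[ℝ] X) × X)),
      (∀ p ∈ P, ∀ f ∈ F, ∀ g ∈ F, f ≠ g → p.2 = f.1 p.1 + f.2 → p.2 = g.1 p.1 + g.2 →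
        ∀ u w : X, ‖(f.1 - g.1) u‖ * ‖w‖ ≤ K * (‖(f.1 - g.1) w‖ * ‖u‖)) →
      ((∑ p ∈ P, (F.filter (fun f => p.2 = f.1 p.1 + f.2)).card : ℕ) : ℝ) ≤
        A * ((P.card : ℝ) ^ (2 / 3 : ℝ) * (F.card : ℝ) ^ (2 / 3 : ℝ) + P.card + F.card) := by
  obtain ⟨e⟩ : Nonempty (X ≃L[ℝ] E (Module.finrank ℝ X)) :=
    ⟨ContinuousLinearEquiv.ofFinrankEq (by simp)⟩
  set l := Module.finrank ℝ X with hl
  set a : ℝ := ‖(e : X →L[ℝ] E l)‖ with ha
  set b : ℝ := ‖(e.symm : E l →L[ℝ] X)‖ with hb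
  have ha0 : 0 ≤ a := norm_nonneg _
  have hb0 : 0 ≤ b := norm_nonneg _
  have hea : ∀ x : X, ‖e x‖ ≤ a * ‖x‖ := fun x => (e : X →L[ℝ] E l).le_opNorm x
  have heb : ∀ y : E l, ‖e.symm y‖ ≤ b * ‖y‖ := fun y => (e.symm : E l →L[ℝ] X).le_opNorm y
  obtain ⟨A, hA, h⟩ := thm_c l (|K| * (a * b) ^ 2)
  refine ⟨A, hA, fun P F hPF => ?_⟩
  let ip : X × X → W l := fun p => (e p.1, e p.2)
  let jf : (X →L[ℝ] X) × X → Fl l := fun f =>
    ((e : X →L[ℝ] E l) ∘L f.1 ∘L (e.symm : E l →L[ℝ] X), e f.2)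
  have hip : Function.Injective ip := by
    intro p q hpq
    have h1 : e p.1 = e q.1 := congrArg Prod.fst hpq
    have h2 : e p.2 = e q.2 := congrArg Prod.snd hpq
    exact Prod.ext (e.injective h1) (e.injective h2)
  have hjf : Function.Injective jf := by
    intro f g hfg
    have h1 : (jf f).1 = (jf g).1 := congrArg Prod.fst hfg
    have h2 : e f.2 = e g.2 := congrArg Prod.snd hfg
    refine Prod.ext ?_ (e.injective h2)
    ext x
    have h3 : e (f.1 (e.symm (e x))) = e (g.1 (e.symm (e x))) :=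
      congrArg (fun D : E l →L[ℝ] E l => D (e x)) h1
    rw [e.symm_apply_apply] at h3
    exact e.injective h3
  have hinc : ∀ p f, Inc (ip p) (jf f) ↔ p.2 = f.1 p.1 + f.2 := by
    intro p f
    have h1 : (jf f).1 (ip p).1 + (jf f).2 = e (f.1 p.1 + f.2) := by
      change e (f.1 (e.symm (e p.1))) + e f.2 = e (f.1 p.1 + f.2)
      rw [e.symm_apply_apply, map_add]
    unfold Inc
    rw [h1]
    exact e.injective.eq_iff
  have hconf : ConfFam (|K| * (a * b) ^ 2) (P.image ip) (F.image jf) := by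
    intro p' hp' f' hf' g' hg' hne hf hg u' w'
    obtain ⟨p, hp, rfl⟩ := Finset.mem_image.1 hp'
    obtain ⟨f, hf1, rfl⟩ := Finset.mem_image.1 hf'
    obtain ⟨g, hg1, rfl⟩ := Finset.mem_image.1 hg'
    have hne' : f ≠ g := fun h => hne (h ▸ rfl)
    rw [hinc] at hf hg
    have h1 := hPF p hp f hf1 g hg1 hne' hf hg (e.symm u') (e.symm w')
    have hD : ∀ y : E l, ((jf f).1 - (jf g).1) y = e ((f.1 - g.1) (e.symm y)) := by
      intro y
      change e (f.1 (e.symm y)) - e (g.1 (e.symm y)) = e (f.1 (e.symm y) - g.1 (e.symm y))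
      rw [map_sub]
    rw [hD, hD]
    set D := f.1 - g.1
    have h2 : ‖e (D (e.symm u'))‖ ≤ a * ‖D (e.symm u')‖ := hea _
    have h3 : ‖w'‖ ≤ a * ‖e.symm w'‖ := by
      have := hea (e.symm w')
      rwa [e.apply_symm_apply] at this
    have h4 : ‖D (e.symm w')‖ ≤ b * ‖e (D (e.symm w'))‖ := by
      have := heb (e (D (e.symm w')))
      rwa [e.symm_apply_apply] at this
    have h5 : ‖e.symm u'‖ ≤ b * ‖u'‖ := heb _
    have h6 : ‖D (e.symm u')‖ * ‖e.symm w'‖ ≤ |K| * (‖D (e.symm w')‖ * ‖e.symm u'‖) :=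
      h1.trans (mul_le_mul_of_nonneg_right (le_abs_self K)
        (mul_nonneg (norm_nonneg _) (norm_nonneg _)))
    calc ‖e (D (e.symm u'))‖ * ‖w'‖
        ≤ (a * ‖D (e.symm u')‖) * (a * ‖e.symm w'‖) :=
          mul_le_mul h2 h3 (norm_nonneg _) (mul_nonneg ha0 (norm_nonneg _))
      _ = a ^ 2 * (‖D (e.symm u')‖ * ‖e.symm w'‖) := by ring
      _ ≤ a ^ 2 * (|K| * (‖D (e.symm w')‖ * ‖e.symm u'‖)) :=
          mul_le_mul_of_nonneg_left h6 (sq_nonneg a)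
      _ ≤ a ^ 2 * (|K| * ((b * ‖e (D (e.symm w'))‖) * (b * ‖u'‖))) := by
          refine mul_le_mul_of_nonneg_left (mul_le_mul_of_nonneg_left ?_ (abs_nonneg K))
            (sq_nonneg a)
          exact mul_le_mul h4 h5 (norm_nonneg _) (mul_nonneg hb0 (norm_nonneg _))
      _ = |K| * (a * b) ^ 2 * (‖e (D (e.symm w'))‖ * ‖u'‖) := by ring
  have key := h (F.image jf) (P.image ip) hconf
  rw [Finset.card_image_of_injective _ hip, Finset.card_image_of_injective _ hjf,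
    Finset.sum_image (fun x _ y _ hxy => hip hxy)] at key
  have hsum : ∑ p ∈ P, ((F.image jf).filter (fun f => Inc (ip p) f)).card =
      ∑ p ∈ P, (F.filter (fun f => p.2 = f.1 p.1 + f.2)).card := by
    refine Finset.sum_congr rfl fun p _ => ?_
    have h1 : (F.image jf).filter (fun f => Inc (ip p) f) =
        (F.filter (fun f => p.2 = f.1 p.1 + f.2)).image jf := by
      ext f'
      simp only [Finset.mem_filter, Finset.mem_image]
      constructor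
      · rintro ⟨⟨f, hf, rfl⟩, hi⟩
        exact ⟨f, ⟨hf, (hinc p f).1 hi⟩, rfl⟩
      · rintro ⟨f, ⟨hf, hi⟩, rfl⟩
        exact ⟨⟨f, hf, rfl⟩, (hinc p f).2 hi⟩
    rw [h1, Finset.card_image_of_injective _ hjf]
  rw [hsum] at key
  exact key

end CFS
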